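import Pool.Agent.H54.NFPlace

/-!
# The Noether-Fano inequality (job NF) and the degree lemma (job DEG)
-/

open Polynomial IsDedekindDomain

namespace Pool.Agent.H48.SymDP

lemma jac_ne_zero {k : Type} [Field k] [CharZero k]
    {x w : RatFunc (RatFunc k)} (hgen : IntermediateField.adjoin k {x, w} = ⊤) :
    Jac (Du k) (Dv k) x w ≠ 0 := by
  intro h0
  -- a derivation killing `x` and `w` is zero
  have hkill : ∀ D : Derivation k (RatFunc (RatFunc k)) (RatFunc (RatFunc k)),
      D x = 0 → D w = 0 → ∀ f, D f = 0 := by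
    intro D hx hw f
    have hmem : f ∈ IntermediateField.adjoin k {x, w} := by rw [hgen]; trivial
    induction hmem using IntermediateField.adjoin_induction with
    | mem y hy =>
      rcases hy with rfl | hy
      · exact hx
      · rw [Set.mem_singleton_iff] at hy
        rw [hy]; exact hw
    | algebraMap c => exact D.map_algebraMap c
    | add y z _ _ hy hz => rw [map_add, hy, hz, add_zero]
    | inv y _ hy => rw [D.leibniz_inv, hy, smul_zero]
    | mul y z _ _ hy hz => rw [D.leibniz, hy, hz, smul_zero, smul_zero, add_zero]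
  -- `J(·, w)` vanishes, hence `w` is killed by both derivations
  have h1 := hkill (JD (Du k) (Dv k) w) (by rw [JD_apply, Jac_swap, h0, neg_zero])
    (by rw [JD_apply, Jac_self])
  have hwv : Dv k w = 0 := by
    have := h1 (RatFunc.C RatFunc.X)
    rw [JD_apply, Jac, Du_u, Dv_u, mul_zero, mul_one, zero_sub, neg_eq_zero] at this
    exact this
  have hwu : Du k w = 0 := by
    have := h1 RatFunc.X
    rw [JD_apply, Jac, Du_v, Dv_v, mul_zero, mul_one, sub_zero] at this
    exact this
  have h2 := hkill (JD (Du k) (Dv k) x) (by rw [JD_apply, Jac_self])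
    (by rw [JD_apply, h0])
  have hxv : Dv k x = 0 := by
    have := h2 (RatFunc.C RatFunc.X)
    rw [JD_apply, Jac, Du_u, Dv_u, mul_zero, mul_one, zero_sub, neg_eq_zero] at this
    exact this
  have hxu : Du k x = 0 := by
    have := h2 RatFunc.X
    rw [JD_apply, Jac, Du_v, Dv_v, mul_zero, mul_one, sub_zero] at this
    exact this
  have := hkill (Du k) hxu hwu (RatFunc.C RatFunc.X)
  rw [Du_u] at this
  exact one_ne_zero this

/-- Job NF. -/
theorem nf {k : Type} [Field k] [IsAlgClosed k] [CharZero k]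
    (x w : RatFunc (RatFunc k)) (hgen : IntermediateField.adjoin k {x, w} = ⊤)
    (m : ℕ) (hm : 1 ≤ m) (A : Fin 2 → k[X][X]) (hA0 : ev x w (A 0) ≠ 0)
    (hu : ev x w (A 1) = RatFunc.C (RatFunc.X : RatFunc k) * ev x w (A 0))
    (hdeg : ∀ i, (A i).natDegree ≤ 2 * m) (htop : ∃ i, (A i).coeff (2 * m) ≠ 0)
    (hbez : ∃ (C₀ C₁ : k[X][X]) (R : k[X]), R ≠ 0 ∧ C₀ * A 0 + C₁ * A 1 = C R)
    (θ₁ θ₂ : k[X]) (hθ₁ : θ₁ ≠ 0) (hθ₂ : θ₂ ≠ 0)
    (chart : ∀ x₀ : k, ∃ (B : Fin 2 → k[X][X]) (w' : RatFunc (RatFunc k)) (f₁ f₂ : k[X]),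
      f₁.eval x₀ ≠ 0 ∧ f₂.eval x₀ ≠ 0 ∧ GoodFibre B m x₀ ∧
      ∀ D : Derivation k (RatFunc (RatFunc k)) (RatFunc (RatFunc k)), D x = 0 →
        (D w ≠ 0 → D w' ≠ 0) ∧
        ∀ i, ev x w (A i) * (D w') ^ m * aeval x (θ₁ * f₁) =
          ev x w' (B i) * (D w) ^ m * aeval x (θ₂ * f₂))
    (δ : ℕ) (A' : Fin 2 → k[X][X]) (hgood : GoodFibre A' m 0)
    (hinf : ∀ i, ev x w (A i) = x ^ δ * ev x⁻¹ (w / x ^ 2) (A' i))
    (hb : 4 * m + θ₂.natDegree ≤ δ + θ₁.natDegree) : False := by
  have hJ := jac_ne_zero hgen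
  have hu0 : RatFunc.C (RatFunc.X : RatFunc k) ≠ 0 := by
    simp [RatFunc.X_ne_zero]
  have hue : ∀ E : PL (RatFunc k) (RatFunc (RatFunc k)),
      E.ord (RatFunc.C (RatFunc.X : RatFunc k)) = 0 := by
    intro E
    have := E.ord_base RatFunc.X RatFunc.X_ne_zero
    rwa [RatFunc.algebraMap_eq_C] at this
  obtain ⟨hθ₁', hθ₂', hinf'⟩ := (jplace_inf k).main hgen m A hA0 hu0 (hue _) hu hdeg htop hbez
    θ₁ θ₂ hθ₁ hθ₂ chart δ A' hgood hinf hb hJ
  have hφ : ev x w (A 0) * aeval x θ₁ / (aeval x θ₂ * (Jac (Du k) (Dv k) x w) ^ m) ≠ 0 :=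
    div_ne_zero (mul_ne_zero hA0 hθ₁') (mul_ne_zero hθ₂' (pow_ne_zero m hJ))
  have hord : ∀ E : PL (RatFunc k) (RatFunc (RatFunc k)),
      E.ord (ev x w (A 0) * aeval x θ₁ / (aeval x θ₂ * (Jac (Du k) (Dv k) x w) ^ m)) =
      E.ord (ev x w (A 0)) + E.ord (aeval x θ₁) - E.ord (aeval x θ₂) -
        m * E.ord (Jac (Du k) (Dv k) x w) := by
    intro E
    rw [E.ord_div (mul_ne_zero hA0 hθ₁') (mul_ne_zero hθ₂' (pow_ne_zero m hJ)),
      E.ord_mul hA0 hθ₁', E.ord_mul hθ₂' (pow_ne_zero m hJ), E.ord_pow hJ]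
    ring
  have h1 := sum_formula hφ (fun P => by
    rw [hord]
    obtain ⟨-, -, h⟩ := (jplace_fin k P).main hgen m A hA0 hu0 (hue _) hu hdeg htop hbez
      θ₁ θ₂ hθ₁ hθ₂ chart δ A' hgood hinf hb hJ
    simpa using h)
  rw [hord] at h1
  have h2 : (1 : ℤ) ≤ m := by exact_mod_cast hm
  linarith

/-- Transport of a place along an isomorphism. -/
noncomputable def PL.transport {F K L : Type*} [Field F] [Field K] [Field L] [Algebra F K]
    [Algebra F L] (E : PL F K) (e : K ≃+* L) (he : ∀ c : F, e (algebraMap F K c) = algebraMap F L c) :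
    PL F L where
  ord y := E.ord (e.symm y)
  ord_mul {a b} ha hb := by
    rw [map_mul, E.ord_mul (by simpa using ha) (by simpa using hb)]
  ord_add {a b} ha hb hab := by
    rw [map_add]
    refine E.ord_add (by simpa using ha) (by simpa using hb) ?_
    rw [← map_add]
    exact (map_ne_zero_iff _ e.symm.injective).mpr hab
  ord_base c hc := by
    rw [← he c, RingEquiv.symm_apply_apply]
    exact E.ord_base c hc

lemma PL.transport_ord {F K L : Type*} [Field F] [Field K] [Field L] [Algebra F K]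
    [Algebra F L] (E : PL F K) (e : K ≃+* L) (he : ∀ c : F, e (algebraMap F K c) = algebraMap F L c)
    (y : K) : (E.transport e he).ord (e y) = E.ord y := by
  change E.ord (e.symm (e y)) = _
  rw [RingEquiv.symm_apply_apply]

lemma PL.transport_ge {F K L : Type*} [Field F] [Field K] [Field L] [Algebra F K]
    [Algebra F L] (E : PL F K) (e : K ≃+* L) (he : ∀ c : F, e (algebraMap F K c) = algebraMap F L c)
    (n : ℤ) (y : K) : (E.transport e he).ge n (e y) ↔ E.ge n y := by
  unfold PL.ge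
  rw [PL.transport_ord]
  simp

/-- The degree lemma in `F(v)`. -/
lemma deg_ratFunc {F : Type*} [Field F] (x b : RatFunc F) (n : ℕ)
    (p : F[X]) (hp : p.natDegree ≤ 2) (hx0 : x ≠ 0)
    (hx : x * RatFunc.X = algebraMap F[X] (RatFunc F) p)
    (h : ∀ E : PL F (RatFunc F), (0 ≤ E.ord x → E.ge 0 b) ∧ (E.ord x = -1 → E.ge (-n) b)) :
    ∃ B : F[X], B.natDegree ≤ 2 * n ∧ b * RatFunc.X ^ n = algebraMap F[X] (RatFunc F) B := by
  have hXne : (RatFunc.X : RatFunc F) ≠ 0 := RatFunc.X_ne_zero
  have hpne : algebraMap F[X] (RatFunc F) p ≠ 0 := by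
    rw [← hx]
    exact mul_ne_zero hx0 hXne
  have hge : ∀ E : PL F (RatFunc F), -1 ≤ E.ord x → E.ge (-n) b := by
    intro E hE
    by_cases h0 : 0 ≤ E.ord x
    · exact E.ge_mono (by omega) ((h E).1 h0)
    · exact (h E).2 (by omega)
  have hfin : ∀ P : HeightOneSpectrum F[X], (plFin P).ge 0 (b * RatFunc.X ^ n) := by
    intro P
    have h1 : (plFin P).ord x + (plFin P).ord RatFunc.X =
        (plFin P).ord (algebraMap F[X] (RatFunc F) p) := by
      rw [← hx, (plFin P).ord_mul hx0 hXne]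
    have h2 : 0 ≤ (plFin P).ord (algebraMap F[X] (RatFunc F) p) :=
      (plFin P).le_of_ge (plFin_ge_poly P p) hpne
    have hXeq : (RatFunc.X : RatFunc F) = algebraMap F[X] (RatFunc F) X := by simp
    have h3 : 0 ≤ (plFin P).ord RatFunc.X := by
      refine (plFin P).le_of_ge ?_ hXne
      rw [hXeq]
      exact plFin_ge_poly P X
    rcases h3.eq_or_lt with h4 | h4
    · -- `P` is not the place `v = 0`
      have h5 := (h (plFin P)).1 (by omega)
      have h6 := (plFin P).ge_pow ((plFin P).ge_of_le h3) n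
      simpa using (plFin P).ge_mul h5 h6
    · -- `P` is the place `v = 0`
      have h5 : (plFin P).ord (RatFunc.X : RatFunc F) = 1 := by
        have hmem : (X : F[X]) ∈ P.asIdeal := by
          rw [← HeightOneSpectrum.valuation_lt_one_iff_mem (K := RatFunc F)]
          change P.valuation (RatFunc F) (algebraMap F[X] (RatFunc F) X) < 1
          rw [← hXeq]
          have h6 : ¬ (plFin P).ord (RatFunc.X : RatFunc F) ≤ 0 := by omega
          by_contra h7
          rw [not_lt] at h7
          apply h6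
          change - WithZero.log (P.valuation (RatFunc F) RatFunc.X) ≤ 0
          have h8 := (WithZero.log_le_log one_ne_zero
            (((P.valuation (RatFunc F)).ne_zero_iff).2 hXne)).2 h7
          rw [WithZero.log_one] at h8
          omega
        have hspan : P.asIdeal = Ideal.span {(X : F[X])} := by
          have hmax : (Ideal.span {(X : F[X])}).IsMaximal :=
            PrincipalIdealRing.isMaximal_of_irreducible irreducible_X
          exact (hmax.eq_of_le P.isPrime.ne_top
            (by rw [Ideal.span_singleton_le_iff_mem]; exact hmem)).symm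
        change - WithZero.log (P.valuation (RatFunc F) RatFunc.X) = 1
        rw [hXeq, HeightOneSpectrum.valuation_of_algebraMap,
          P.intValuation_singleton X_ne_zero hspan, WithZero.log_exp]
        norm_num
      have h6 := hge (plFin P) (by omega)
      have h7 := (plFin P).ge_pow ((plFin P).ge_of_le h5.ge) n
      simpa using (plFin P).ge_mul h6 h7
  obtain ⟨B, hB⟩ := exists_poly_of_integral hfin
  refine ⟨B, ?_, hB.symm⟩
  by_cases hB0 : B = 0
  · simp [hB0]
  have h1 : (plInf F).ord x + (plInf F).ord RatFunc.X =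
      (plInf F).ord (algebraMap F[X] (RatFunc F) p) := by
    rw [← hx, (plInf F).ord_mul hx0 hXne]
  have h2 : (plInf F).ord (RatFunc.X : RatFunc F) = -1 := by
    change - RatFunc.intDegree _ = _
    rw [RatFunc.intDegree_X]
  have h3 : (plInf F).ord (algebraMap F[X] (RatFunc F) p) = - (p.natDegree : ℤ) := by
    change - RatFunc.intDegree _ = _
    rw [RatFunc.intDegree_polynomial]
  have h4 := hge (plInf F) (by omega)
  have h5 := (plInf F).ge_mul h4 ((plInf F).ge_pow ((plInf F).ge_of_le h2.ge) n)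
  rw [← hB] at h5
  have h6 := (plInf F).le_of_ge h5 (RatFunc.algebraMap_ne_zero hB0)
  have h7 : (plInf F).ord (algebraMap F[X] (RatFunc F) B) = - (B.natDegree : ℤ) := by
    change - RatFunc.intDegree _ = _
    rw [RatFunc.intDegree_polynomial]
  rw [h7] at h6
  omega

/-- Job DEG. -/
theorem deg_lemma {F L : Type} [Field F] [Field L] [Algebra F L] (W : L)
    (hW : Transcendental F W) (hgen : IntermediateField.adjoin F {W} = ⊤) (x b : L) (n : ℕ)
    (p : F[X]) (hp : p.natDegree ≤ 2) (hx0 : x ≠ 0) (hx : x * W = aeval W p)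
    (h : ∀ E : PL F L, (0 ≤ E.ord x → E.ge 0 b) ∧ (E.ord x = -1 → E.ge (-n) b)) :
    ∃ B : F[X], B.natDegree ≤ 2 * n ∧ b * W ^ n = aeval W B := by
  have hinj : Function.Injective ((aeval W : F[X] →ₐ[F] L) : F[X] →+* L) :=
    transcendental_iff_injective.mp hW
  let φ : RatFunc F →+* L := IsFractionRing.lift hinj
  have hφ : ∀ q : F[X], φ (algebraMap F[X] (RatFunc F) q) = aeval W q := fun q =>
    IsFractionRing.lift_algebraMap hinj q
  have hsurj : Function.Surjective φ := by
    intro y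
    have hmem : y ∈ IntermediateField.adjoin F {W} := by rw [hgen]; trivial
    rw [IntermediateField.mem_adjoin_iff_div] at hmem
    obtain ⟨r, hr, s, hs, rfl⟩ := hmem
    rw [Algebra.adjoin_singleton_eq_range_aeval] at hr hs
    obtain ⟨r, rfl⟩ := hr
    obtain ⟨s, rfl⟩ := hs
    exact ⟨algebraMap F[X] (RatFunc F) r / algebraMap F[X] (RatFunc F) s, by
      rw [map_div₀, hφ, hφ]; rfl⟩
  let e : RatFunc F ≃+* L := RingEquiv.ofBijective φ ⟨φ.injective, hsurj⟩
  have he : ∀ q : F[X], e (algebraMap F[X] (RatFunc F) q) = aeval W q := hφ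
  have heX : e RatFunc.X = W := by
    have := he X
    rwa [RatFunc.algebraMap_X, aeval_X] at this
  have heF : ∀ c : F, e (algebraMap F (RatFunc F) c) = algebraMap F L c := by
    intro c
    have := he (C c)
    rwa [aeval_C, RatFunc.algebraMap_C, ← RatFunc.algebraMap_eq_C] at this
  obtain ⟨x, rfl⟩ := e.surjective x
  obtain ⟨b, rfl⟩ := e.surjective b
  obtain ⟨B, hB, hBe⟩ := deg_ratFunc x b n p hp (by rintro rfl; simp at hx0)
    (e.injective (by rw [map_mul, heX, he, hx]))
    (fun E => by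
      have := h (E.transport e heF)
      rw [PL.transport_ord, PL.transport_ge, PL.transport_ge] at this
      exact this)
  refine ⟨B, hB, ?_⟩
  have := congrArg e hBe
  rwa [map_mul, map_pow, heX, he] at this

end Pool.Agent.H48.SymDP
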