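import Pool.Agent.H48.SymDP.Irr.Red

/-!
# Injectivity of the evaluation at generators of `k(u, v)` and reduced representations (job F1, F2)
-/

open Polynomial

namespace Pool.Agent.H48.SymDP

open scoped IntermediateField.algebraAdjoinAdjoin in
/-- JOB F1. -/
theorem ev_injective {k : Type} [Field k] (x w : RatFunc (RatFunc k))
    (hgen : IntermediateField.adjoin k {x, w} = ⊤) :
    Function.Injective (ev x w : k[X][X] →+* RatFunc (RatFunc k)) := by
  classical
  have hrange : Set.range ![x, w] = {x, w} := by
    ext y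
    simp only [Matrix.range_cons, Matrix.range_empty, Set.union_empty, Set.mem_union,
      Set.mem_singleton_iff, Set.mem_insert_iff]
  -- transcendence degree
  have h1 : 1 ≤ Algebra.trdeg k (RatFunc k) := by
    rw [Cardinal.one_le_iff_pos]
    have : Algebra.Transcendental k (RatFunc k) := ⟨_, RatFunc.transcendental_X⟩
    exact trdeg_pos k (RatFunc k)
  have h2 : 1 ≤ Algebra.trdeg (RatFunc k) (RatFunc (RatFunc k)) := by
    rw [Cardinal.one_le_iff_pos]
    have : Algebra.Transcendental (RatFunc k) (RatFunc (RatFunc k)) :=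
      ⟨_, RatFunc.transcendental_X⟩
    exact trdeg_pos (RatFunc k) (RatFunc (RatFunc k))
  have h3 : (2 : Cardinal) ≤ Algebra.trdeg k (RatFunc (RatFunc k)) := by
    rw [← trdeg_add_eq k (RatFunc k) (A := RatFunc (RatFunc k)), ← one_add_one_eq_two]
    exact add_le_add h1 h2
  -- algebraicity
  have halg : Algebra.IsAlgebraic (Algebra.adjoin k (Set.range ![x, w])) (RatFunc (RatFunc k)) := by
    rw [hrange]
    have hb : Algebra.IsAlgebraic (Algebra.adjoin k {x, w})
        (IntermediateField.adjoin k {x, w}) :=
      IsLocalization.isAlgebraic _ (nonZeroDivisors (Algebra.adjoin k {x, w}))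
    constructor
    intro y
    have hy : y ∈ IntermediateField.adjoin k {x, w} := by rw [hgen]; trivial
    have := hb.isAlgebraic (⟨y, hy⟩ : IntermediateField.adjoin k {x, w})
    obtain ⟨p, hp, hpy⟩ := this
    refine ⟨p, hp, ?_⟩
    have h := congrArg (fun z : IntermediateField.adjoin k {x, w} => (z : RatFunc (RatFunc k))) hpy
    simpa [aeval_def, eval₂_eq_sum, Polynomial.sum] using h
  have htb := Algebra.IsAlgebraic.isTranscendenceBasis_of_le_trdeg_of_finite k ![x, w] (by simpa using h3)
  have hai : Function.Injective (MvPolynomial.aeval (R := k) ![x, w]) :=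
    (algebraicIndependent_iff_injective_aeval).1 htb.1
  have hcomp : (ev x w : k[X][X] →+* RatFunc (RatFunc k)) =
      ((MvPolynomial.aeval (R := k) ![x, w]).toRingHom).comp
        ((Polynomial.Bivariate.equivMvPolynomial k).toAlgHom.toRingHom) := by
    apply ringHom_ext'
    · apply ringHom_ext'
      · ext a
        simp
      · simp
    · simp
  rw [hcomp]
  exact hai.comp (Polynomial.Bivariate.equivMvPolynomial k).injective

/-- JOB F2 (existence of reduced representations). -/
theorem exists_red {k : Type} [Field k] (x w f : RatFunc (RatFunc k))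
    (hgen : IntermediateField.adjoin k {x, w} = ⊤) (A₀ : Fin 2 → k[X][X]) (n : ℕ)
    (h0 : ev x w (A₀ 0) ≠ 0) (h1 : ev x w (A₀ 1) = f * ev x w (A₀ 0))
    (hn : ∀ i, (A₀ i).natDegree ≤ n) :
    ∃ (A : Fin 2 → k[X][X]) (N : ℕ), N ≤ n ∧ Red x w f A N := by
  have hA0 : A₀ 0 ≠ 0 := by rintro h; rw [h, map_zero] at h0; exact h0 rfl
  obtain ⟨a, b, c, hrp, ha, hb⟩ :=
    UniqueFactorizationMonoid.exists_reduced_factors (A₀ 0) hA0 (A₀ 1)
  have hc : c ≠ 0 := by rintro rfl; rw [zero_mul] at ha; exact hA0 ha.symm
  have ha0 : a ≠ 0 := by rintro rfl; rw [mul_zero] at ha; exact hA0 ha.symm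
  have hinj := ev_injective x w hgen
  have hec : ev x w c ≠ 0 := by
    intro h; exact hc (hinj (by rw [h, map_zero]))
  have hda : a.natDegree ≤ n := by
    refine le_trans ?_ (hn 0)
    rw [← ha, natDegree_mul hc ha0]; omega
  have hdb : b.natDegree ≤ n := by
    by_cases hb0 : b = 0
    · rw [hb0, natDegree_zero]; exact Nat.zero_le _
    refine le_trans ?_ (hn 1)
    rw [← hb, natDegree_mul hc hb0]; omega
  refine ⟨![a, b], max a.natDegree b.natDegree, max_le hda hdb, ?_⟩
  constructor
  · exact ha0
  · show ev x w b = f * ev x w a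
    apply mul_left_cancel₀ hec
    rw [← map_mul, hb, h1, ← ha, map_mul]; ring
  · exact hrp
  · intro i
    fin_cases i
    · exact le_max_left _ _
    · exact le_max_right _ _
  · rcases le_total a.natDegree b.natDegree with h | h
    · rw [max_eq_right h]
      by_cases hb0 : b = 0
      · refine ⟨0, ?_⟩
        rw [hb0, natDegree_zero] at h ⊢
        have : a.natDegree = 0 := by omega
        show a.coeff 0 ≠ 0
        rw [← this]
        exact leadingCoeff_ne_zero.2 ha0
      · exact ⟨1, leadingCoeff_ne_zero.2 hb0⟩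
    · rw [max_eq_left h]
      exact ⟨0, leadingCoeff_ne_zero.2 ha0⟩

end Pool.Agent.H48.SymDP
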