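import Mathlib

open Set Real

namespace Pool.Agent.H54.Bike

/-- Linear comparison lemma: `w' = g - K w` with `g ≥ 0`, `w a ≥ 0`. -/
lemma lin_nonneg {a b : ℝ} (hab : a ≤ b) {w K g : ℝ → ℝ} (hK : ContinuousOn K (Icc a b))
    (hg : ∀ t ∈ Icc a b, 0 ≤ g t)
    (hw : ∀ t ∈ Icc a b, HasDerivWithinAt w (g t - K t * w t) (Icc a b) t) (h0 : 0 ≤ w a) :
    (∀ t ∈ Icc a b, 0 ≤ w t) ∧ (w b = 0 → ∀ t ∈ Icc a b, w t = 0) := by
  set Kt : ℝ → ℝ := IccExtend hab ((Icc a b).domRestrict K) with hKt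
  have hKc : Continuous Kt := by
    apply Continuous.Icc_extend'
    exact continuousOn_iff_continuous_domRestrict.mp hK
  have hKeq : ∀ t ∈ Icc a b, Kt t = K t := by
    intro t ht
    rw [hKt, IccExtend_of_mem hab _ ht]; rfl
  set E : ℝ → ℝ := fun t => Real.exp (∫ s in a..t, Kt s) with hE
  have hEd : ∀ t, HasDerivAt E (Kt t * E t) t := by
    intro t
    have h1 : HasDerivAt (fun u => ∫ s in a..u, Kt s) (Kt t) t :=
      intervalIntegral.integral_hasDerivAt_right (hKc.intervalIntegrable _ _)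
        (hKc.stronglyMeasurableAtFilter _ _) hKc.continuousAt
    have h2 := h1.exp
    simpa [hE, mul_comm] using h2
  have hEpos : ∀ t, 0 < E t := fun t => Real.exp_pos _
  set u : ℝ → ℝ := fun t => w t * E t with hu
  have hud : ∀ t ∈ Icc a b, HasDerivWithinAt u (g t * E t) (Icc a b) t := by
    intro t ht
    have h1 := (hw t ht).mul (hEd t).hasDerivWithinAt (s := Icc a b)
    have h2 : (g t - K t * w t) * E t + w t * (Kt t * E t) = g t * E t := by
      rw [hKeq t ht]; ring
    rw [h2] at h1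
    exact h1
  have hmono : MonotoneOn u (Icc a b) := by
    apply monotoneOn_of_deriv_nonneg (convex_Icc a b)
    · intro t ht
      exact (hud t ht).continuousWithinAt
    · intro t ht
      rw [interior_Icc] at ht
      exact ((hud t (Ioo_subset_Icc_self ht)).hasDerivAt
        (Icc_mem_nhds ht.1 ht.2)).differentiableAt.differentiableWithinAt
    · intro t ht
      rw [interior_Icc] at ht
      rw [((hud t (Ioo_subset_Icc_self ht)).hasDerivAt (Icc_mem_nhds ht.1 ht.2)).deriv]
      exact mul_nonneg (hg t (Ioo_subset_Icc_self ht)) (hEpos t).le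
  have hua : 0 ≤ u a := mul_nonneg h0 (hEpos a).le
  have hnn : ∀ t ∈ Icc a b, 0 ≤ w t := by
    intro t ht
    have h1 : u a ≤ u t := hmono (left_mem_Icc.mpr hab) ht ht.1
    have h2 : 0 ≤ w t * E t := le_trans hua h1
    exact nonneg_of_mul_nonneg_left h2 (hEpos t)
  refine ⟨hnn, ?_⟩
  intro hb t ht
  have h1 : u t ≤ u b := hmono ht (right_mem_Icc.mpr hab) ht.2
  have h2 : u b = 0 := by simp [hu, hb]
  have h3 : w t * E t ≤ 0 := by rw [h2] at h1; exact h1
  have h4 : w t ≤ 0 := by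
    by_contra h
    push Not at h
    have := mul_pos h (hEpos t)
    linarith
  exact le_antisymm h4 (hnn t ht)

/-- strict version: positivity at the right end unless `g` vanishes identically. -/
lemma lin_pos {a b : ℝ} (hab : a < b) {w K g : ℝ → ℝ} (hK : ContinuousOn K (Icc a b))
    (hg : ∀ t ∈ Icc a b, 0 ≤ g t)
    (hw : ∀ t ∈ Icc a b, HasDerivWithinAt w (g t - K t * w t) (Icc a b) t) (h0 : 0 ≤ w a)
    (hne : w a ≠ 0 ∨ ∃ t ∈ Icc a b, g t ≠ 0) : 0 < w b := by
  obtain ⟨h1, h2⟩ := lin_nonneg hab.le hK hg hw h0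
  rcases (h1 b (right_mem_Icc.mpr hab.le)).lt_or_eq with h | h
  · exact h
  · exfalso
    have h3 := h2 h.symm
    rcases hne with h4 | ⟨t, ht, h4⟩
    · exact h4 (h3 a (left_mem_Icc.mpr hab.le))
    · apply h4
      have h5 := hw t ht
      have h6 : HasDerivWithinAt w 0 (Icc a b) t :=
        (hasDerivWithinAt_const t (Icc a b) (0:ℝ)).congr (fun x hx => h3 x hx) (h3 t ht)
      have h7 := (uniqueDiffOn_Icc hab t ht).eq_deriv _ h5 h6
      rw [h3 t ht] at h7
      simpa using h7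

lemma sin_eq_mul_sinc (x : ℝ) : Real.sin x = x * Real.sinc x := by
  rcases eq_or_ne x 0 with h | h
  · simp [h]
  · rw [Real.sinc_of_ne_zero h]; field_simp

lemma sin_sub_sin_eq (x y : ℝ) : Real.sin x - Real.sin y
    = (Real.sinc ((x - y) / 2) * Real.cos ((x + y) / 2)) * (x - y) := by
  rw [Real.sin_sub_sin, sin_eq_mul_sinc ((x - y) / 2)]
  ring

lemma one_sub_cos_eq (x : ℝ) : 1 - Real.cos x = (Real.sinc (x / 2) * Real.sin (x / 2)) * x := by
  have h1 : Real.cos x = 1 - 2 * Real.sin (x / 2) ^ 2 := by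
    have := Real.cos_two_mul (x / 2)
    have h2 := Real.sin_sq_add_cos_sq (x / 2)
    rw [show 2 * (x / 2) = x by ring] at this
    linarith
  have h2 := sin_eq_mul_sinc (x / 2)
  calc 1 - Real.cos x = 2 * Real.sin (x/2) * Real.sin (x/2) := by rw [h1]; ring
    _ = 2 * (x / 2 * Real.sinc (x / 2)) * Real.sin (x/2) := by rw [← h2]
    _ = _ := by ring

end Pool.Agent.H54.Bike
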