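import Mathlib
import Pool.Agent.H54.BikeODE

open Set Real

namespace Pool.Agent.H54.Bike

/-- Global existence on `[0,T]` for a bounded Lipschitz scalar ODE. -/
lemma exists_solution {T : ℝ} (hT : 0 ≤ T) {F : ℝ → ℝ → ℝ} {K C : ℝ} (hK : 0 ≤ K) (hC : 0 ≤ C)
    (hlip : ∀ t ∈ Icc 0 T, ∀ x y, |F t x - F t y| ≤ K * |x - y|)
    (hcont : ∀ x, ContinuousOn (fun t => F t x) (Icc 0 T))
    (hbd : ∀ t ∈ Icc 0 T, ∀ x, |F t x| ≤ C) (x₀ : ℝ) :
    ∃ α : ℝ → ℝ, α 0 = x₀ ∧ ∀ t ∈ Icc 0 T, HasDerivWithinAt α (F t (α t)) (Icc 0 T) t := by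
  have hpl : IsPicardLindelof F (tmin := 0) (tmax := T) ⟨0, left_mem_Icc.mpr hT⟩ x₀
      ⟨C * T, mul_nonneg hC hT⟩ 0 ⟨C, hC⟩ ⟨K, hK⟩ := by
    constructor
    · intro t ht
      apply LipschitzOnWith.of_dist_le_mul
      intro x _ y _
      rw [Real.dist_eq, Real.dist_eq]
      exact hlip t ht x y
    · intro x _
      exact hcont x
    · intro t ht x _
      rw [Real.norm_eq_abs]
      exact hbd t ht x
    · simp only [sub_zero, NNReal.coe_zero]
      apply mul_le_mul_of_nonneg_left _ hC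
      simp [hT]
  exact hpl.exists_eq_forall_mem_Icc_hasDerivWithinAt₀

/-- Data extracted from an oriented convex closed curve: speed `v`, curvature times speed `k`,
tangent angle `φ`. -/
structure AngleData (T : ℝ) (v k φ : ℝ → ℝ) : Prop where
  hT : 0 < T
  hv : Continuous v
  vpos : ∀ t, 0 < v t
  hk : Continuous k
  kpos : ∀ t, 0 ≤ k t
  hφ : ∀ t, HasDerivAt φ (k t) t
  hφT : φ T = φ 0 + 2 * π

/-- `β` is a solution of `β' = k - c v sin β` on `[0,T]`. -/
def IsSol (T : ℝ) (v k : ℝ → ℝ) (c : ℝ) (β : ℝ → ℝ) : Prop :=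
  ∀ t ∈ Icc 0 T, HasDerivWithinAt β (k t - c * v t * Real.sin (β t)) (Icc 0 T) t

variable {T : ℝ} {v k φ : ℝ → ℝ}

lemma IsSol.continuousOn {c : ℝ} {β : ℝ → ℝ} (h : IsSol T v k c β) : ContinuousOn β (Icc 0 T) :=
  fun t ht => (h t ht).continuousWithinAt

lemma IsSol.exists (D : AngleData T v k φ) (c : ℝ) (hc : 0 ≤ c) (b : ℝ) :
    ∃ β, IsSol T v k c β ∧ β 0 = b := by
  obtain ⟨V, hV⟩ := isCompact_Icc.exists_bound_of_continuousOn (s := Icc 0 T) D.hv.continuousOn
  obtain ⟨Kb, hKb⟩ := isCompact_Icc.exists_bound_of_continuousOn (s := Icc 0 T) D.hk.continuousOn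
  have hV0 : 0 ≤ V := le_trans (norm_nonneg _) (hV 0 (left_mem_Icc.mpr D.hT.le))
  have hKb0 : 0 ≤ Kb := le_trans (norm_nonneg _) (hKb 0 (left_mem_Icc.mpr D.hT.le))
  have hvV : ∀ t ∈ Icc 0 T, |c * v t| ≤ c * V := by
    intro t ht
    rw [abs_mul, abs_of_nonneg hc]
    exact mul_le_mul_of_nonneg_left (hV t ht) hc
  have hlip : ∀ t ∈ Icc 0 T, ∀ x y, |(k t - c * v t * Real.sin x) - (k t - c * v t * Real.sin y)|
      ≤ c * V * |x - y| := by
    intro t ht x y
    have h2 : (k t - c * v t * Real.sin x) - (k t - c * v t * Real.sin y)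
        = -(c * v t) * (Real.sin x - Real.sin y) := by ring
    rw [h2, abs_mul, abs_neg]
    exact mul_le_mul (hvV t ht) (Real.abs_sin_sub_sin_le x y) (abs_nonneg _) (by positivity)
  have hcont : ∀ x, ContinuousOn (fun t => k t - c * v t * Real.sin x) (Icc 0 T) := by
    intro x
    exact (D.hk.sub ((continuous_const.mul D.hv).mul continuous_const)).continuousOn
  have hbd : ∀ t ∈ Icc 0 T, ∀ x, |k t - c * v t * Real.sin x| ≤ Kb + c * V := by
    intro t ht x
    have h3 : |c * v t * Real.sin x| ≤ c * V := by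
      rw [abs_mul]
      calc |c * v t| * |Real.sin x| ≤ (c * V) * 1 :=
            mul_le_mul (hvV t ht) (Real.abs_sin_le_one x) (abs_nonneg _) (by positivity)
        _ = c * V := mul_one _
    calc |k t - c * v t * Real.sin x| ≤ |k t| + |c * v t * Real.sin x| := abs_sub _ _
      _ ≤ Kb + c * V := add_le_add (hKb t ht) h3
  obtain ⟨α, h0, h1⟩ := exists_solution (T := T) D.hT.le
    (F := fun t x => k t - c * v t * Real.sin x) (K := c * V) (C := Kb + c * V)
    (mul_nonneg hc hV0) (add_nonneg hKb0 (mul_nonneg hc hV0)) hlip hcont hbd b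
  exact ⟨α, h1, h0⟩

/-- restriction of derivative to a subinterval -/
lemma IsSol.mono {c : ℝ} {β : ℝ → ℝ} (h : IsSol T v k c β) {a : ℝ} (ha : 0 ≤ a) :
    ∀ t ∈ Icc a T, HasDerivWithinAt β (k t - c * v t * Real.sin (β t)) (Icc a T) t :=
  fun t ht => (h t ⟨le_trans ha ht.1, ht.2⟩).mono (Icc_subset_Icc_left ha)

/-- The levels `nπ` are one-way barriers. -/
lemma IsSol.barrier (D : AngleData T v k φ) {c : ℝ} {β : ℝ → ℝ} (h : IsSol T v k c β) (n : ℤ)
    {a : ℝ} (ha : a ∈ Icc 0 T) (hb : n * π ≤ β a) : ∀ t ∈ Icc a T, n * π ≤ β t := by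
  have hβc : ContinuousOn β (Icc a T) := h.continuousOn.mono (Icc_subset_Icc_left ha.1)
  have key := lin_nonneg (a := a) (b := T) ha.2 (w := fun t => β t - n * π)
    (K := fun t => c * v t * (-1) ^ n * Real.sinc (β t - n * π)) (g := k) ?_
    (fun t _ => D.kpos t) ?_ (by simpa using hb)
  · intro t ht
    have := key.1 t ht
    linarith
  · apply ContinuousOn.mul
    · exact ((continuous_const.mul D.hv).mul continuous_const).continuousOn
    · exact Real.continuous_sinc.comp_continuousOn (hβc.sub continuousOn_const)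
  · intro t ht
    have h1 := (h.mono ha.1 t ht).sub_const ((n:ℝ) * π)
    refine h1.congr_deriv ?_
    have h2 : Real.sin (β t) = (-1) ^ n * Real.sin (β t - n * π) := by
      have h3 := Real.sin_add_int_mul_pi (β t - n * π) n
      rw [sub_add_cancel] at h3
      exact h3
    rw [h2, sin_eq_mul_sinc (β t - n * π)]
    ring

lemma AngleData.k_ne (D : AngleData T v k φ) : ∃ t ∈ Icc 0 T, k t ≠ 0 := by
  by_contra hcon
  push Not at hcon
  have h1 : ∀ x ∈ Icc 0 T, φ x = φ 0 := by
    apply constant_of_has_deriv_right_zero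
    · exact fun t _ => (D.hφ t).continuousAt.continuousWithinAt
    · intro x hx
      have := (D.hφ x).hasDerivWithinAt (s := Ici x)
      rwa [hcon x (Ico_subset_Icc_self hx)] at this
  have h2 := h1 T (right_mem_Icc.mpr D.hT.le)
  have h3 := D.hφT
  have := Real.pi_pos
  linarith

/-- A solution starting at `0` ends at a positive value. -/
lemma IsSol.pos_of_zero (D : AngleData T v k φ) {c : ℝ} {β : ℝ → ℝ} (h : IsSol T v k c β)
    (hb : 0 ≤ β 0) : 0 < β T := by
  apply lin_pos D.hT (w := β) (K := fun t => c * v t * Real.sinc (β t)) (g := k) ?_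
    (fun t _ => D.kpos t) ?_ hb (Or.inr D.k_ne)
  · exact ((continuous_const.mul D.hv).continuousOn).mul
      (Real.continuous_sinc.comp_continuousOn h.continuousOn)
  · intro t ht
    have h1 := h t ht
    refine h1.congr_deriv ?_
    rw [sin_eq_mul_sinc (β t)]
    ring

/-- comparison of two solutions with `c₁ ≤ c₂`, as long as `sin β₁ ≥ 0`. -/
lemma IsSol.compare (D : AngleData T v k φ) {c₁ c₂ : ℝ} (hc : c₁ ≤ c₂)
    {β₁ β₂ : ℝ → ℝ} (h₁ : IsSol T v k c₁ β₁) (h₂ : IsSol T v k c₂ β₂)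
    (hs : c₁ = c₂ ∨ ∀ t ∈ Icc 0 T, 0 ≤ Real.sin (β₁ t)) (h0 : β₂ 0 ≤ β₁ 0) :
    (∀ t ∈ Icc 0 T, β₂ t ≤ β₁ t) ∧ (c₁ < c₂ → Real.sin (β₁ 0) ≠ 0 → β₂ T < β₁ T) := by
  have hKc : ContinuousOn (fun t => c₂ * v t *
      (Real.sinc ((β₁ t - β₂ t) / 2) * Real.cos ((β₁ t + β₂ t) / 2))) (Icc 0 T) := by
    apply ContinuousOn.mul
    · exact (continuous_const.mul D.hv).continuousOn
    · apply ContinuousOn.mul
      · exact Real.continuous_sinc.comp_continuousOn
          ((h₁.continuousOn.sub h₂.continuousOn).div_const 2)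
      · exact Real.continuous_cos.comp_continuousOn
          ((h₁.continuousOn.add h₂.continuousOn).div_const 2)
  have hg : ∀ t ∈ Icc 0 T, 0 ≤ (c₂ - c₁) * v t * Real.sin (β₁ t) := by
    intro t ht
    rcases hs with hs | hs
    · simp [hs]
    · exact mul_nonneg (mul_nonneg (by linarith) (D.vpos t).le) (hs t ht)
  have hd : ∀ t ∈ Icc 0 T, HasDerivWithinAt (fun t => β₁ t - β₂ t)
      ((c₂ - c₁) * v t * Real.sin (β₁ t) - (c₂ * v t *
      (Real.sinc ((β₁ t - β₂ t) / 2) * Real.cos ((β₁ t + β₂ t) / 2))) * (β₁ t - β₂ t))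
      (Icc 0 T) t := by
    intro t ht
    have h3 := (h₁ t ht).sub (h₂ t ht)
    refine h3.congr_deriv ?_
    have h4 := sin_sub_sin_eq (β₁ t) (β₂ t)
    have h5 : c₂ * v t * (Real.sinc ((β₁ t - β₂ t) / 2) * Real.cos ((β₁ t + β₂ t) / 2))
        * (β₁ t - β₂ t) = c₂ * v t * (Real.sin (β₁ t) - Real.sin (β₂ t)) := by
      rw [h4]; ring
    rw [h5]; ring
  constructor
  · have key := lin_nonneg D.hT.le hKc hg hd (by simpa using h0)
    intro t ht
    have := key.1 t ht
    linarith
  · intro hlt hne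
    have key := lin_pos D.hT hKc hg hd (by simpa using h0)
      (Or.inr ⟨0, left_mem_Icc.mpr D.hT.le, by
        apply mul_ne_zero (mul_ne_zero (by linarith) (D.vpos 0).ne') hne⟩)
    linarith

/-- shifting a solution by a multiple of `2π`. -/
lemma IsSol.shift {c : ℝ} {β : ℝ → ℝ} (h : IsSol T v k c β) (n : ℤ) :
    IsSol T v k c (fun t => β t - n * (2 * π)) := by
  intro t ht
  have h1 := (h t ht).sub_const ((n : ℝ) * (2 * π))
  refine h1.congr_deriv ?_
  rw [Real.sin_sub_int_mul_two_pi]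

/-- Normal form of a solution with nonpositive displacement. -/
lemma IsSol.normalize (D : AngleData T v k φ) {c : ℝ} (hc : 0 < c) {β : ℝ → ℝ}
    (h : IsSol T v k c β) (hle : β T ≤ β 0) :
    ∃ β', IsSol T v k c β' ∧ β' T ≤ β' 0 ∧ 0 < β' 0 ∧ β' 0 < π ∧
      ∀ t ∈ Icc 0 T, 0 ≤ Real.sin (β' t) := by
  have hπ := Real.pi_pos
  set n : ℤ := ⌊β 0 / π⌋ with hn
  have hn1 : n * π ≤ β 0 := by
    have := Int.floor_le (β 0 / π)
    rwa [le_div_iff₀ hπ] at this
  have hn2 : β 0 < (n + 1) * π := by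
    have := Int.lt_floor_add_one (β 0 / π)
    rwa [div_lt_iff₀ hπ] at this
  have h0mem : (0:ℝ) ∈ Icc 0 T := left_mem_Icc.mpr D.hT.le
  have hTmem : T ∈ Icc 0 T := right_mem_Icc.mpr D.hT.le
  have hlow : ∀ t ∈ Icc 0 T, n * π ≤ β t := h.barrier D n h0mem hn1
  have hup : ∀ t ∈ Icc 0 T, β t < (n + 1) * π := by
    intro t ht
    by_contra hcon
    push Not at hcon
    have := h.barrier D (n + 1) ht (by push_cast; exact hcon) T ⟨ht.2, le_refl T⟩
    push_cast at this
    linarith
  rcases Int.even_or_odd n with ⟨m, hm⟩ | ⟨m, hm⟩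
  · -- even case
    have hnm : (n : ℝ) * π = m * (2 * π) := by rw [hm]; push_cast; ring
    refine ⟨fun t => β t - m * (2 * π), h.shift m, by simpa using hle, ?_, ?_, ?_⟩
    · have h1 : 0 ≤ β 0 - m * (2 * π) := by rw [← hnm]; linarith
      rcases h1.lt_or_eq with h2 | h2
      · exact h2
      · exfalso
        have h3 := (h.shift m).pos_of_zero D h1
        linarith
    · have : β 0 < m * (2 * π) + π := by rw [← hnm]; linarith
      simp only
      linarith
    · intro t ht
      apply Real.sin_nonneg_of_nonneg_of_le_pi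
      · have := hlow t ht
        simp only
        rw [hnm] at this
        linarith
      · have := hup t ht
        simp only
        have h4 : ((n:ℝ) + 1) * π = m * (2 * π) + π := by rw [add_mul, hnm]; ring
        rw [h4] at this
        linarith
  · exfalso
    -- odd case: β - φ is monotone
    have hsin : ∀ t ∈ Icc 0 T, Real.sin (β t) ≤ 0 := by
      intro t ht
      have h1 : Real.sin (β t) = - Real.sin (β t - n * π) := by
        have h3 := Real.sin_add_int_mul_pi (β t - n * π) n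
        rw [sub_add_cancel, hm] at h3
        rw [hm, h3]
        have : ((-1:ℝ)) ^ (2 * m + 1) = -1 := by
          rw [zpow_add₀ (by norm_num), zpow_mul]; simp
        rw [this]; ring
      rw [h1]
      have := Real.sin_nonneg_of_nonneg_of_le_pi (x := β t - n * π) (by linarith [hlow t ht])
        (by have := hup t ht; linarith)
      linarith
    have hmono : MonotoneOn (fun t => β t - φ t) (Icc 0 T) := by
      apply monotoneOn_of_deriv_nonneg (convex_Icc 0 T)
      · exact h.continuousOn.sub (fun t _ => (D.hφ t).continuousAt.continuousWithinAt)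
      · intro t ht
        rw [interior_Icc] at ht
        exact (((h t (Ioo_subset_Icc_self ht)).hasDerivAt
          (Icc_mem_nhds ht.1 ht.2)).sub (D.hφ t)).differentiableAt.differentiableWithinAt
      · intro t ht
        rw [interior_Icc] at ht
        have h5 := (((h t (Ioo_subset_Icc_self ht)).hasDerivAt
          (Icc_mem_nhds ht.1 ht.2)).sub (D.hφ t))
        rw [show (fun t => β t - φ t) = β - φ from rfl, h5.deriv]
        have h6 := mul_nonneg hc.le (D.vpos t).le
        have h7 := hsin t (Ioo_subset_Icc_self ht)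
        nlinarith
    have h8 := hmono h0mem hTmem D.hT.le
    simp only at h8
    have h9 := D.hφT
    linarith

/-- Displacement set. -/
def BadC (T : ℝ) (v k : ℝ → ℝ) : Set ℝ := {c | 0 < c ∧ ∃ β, IsSol T v k c β ∧ β T ≤ β 0}

lemma hyp_of_bad (D : AngleData T v k φ) {c₁ c₂ : ℝ} (h₁ : c₁ ∈ BadC T v k) (hc : c₁ < c₂) :
    (∃ β, IsSol T v k c₂ β ∧ -π < β T - β 0 ∧ β T - β 0 < 0) ∧
    (∃ β, IsSol T v k c₂ β ∧ 0 < β T - β 0 ∧ β T - β 0 < π) := by
  obtain ⟨hc1, β, hβ, hle⟩ := h₁
  obtain ⟨β₁, hs, hle1, hpos, hlt, hsin⟩ := hβ.normalize D hc1 hle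
  obtain ⟨β₂, hs2, h20⟩ := IsSol.exists D c₂ (by linarith) (β₁ 0)
  obtain ⟨β₃, hs3, h30⟩ := IsSol.exists D c₂ (by linarith) 0
  have h0mem : (0:ℝ) ∈ Icc 0 T := left_mem_Icc.mpr D.hT.le
  have hTmem : T ∈ Icc 0 T := right_mem_Icc.mpr D.hT.le
  have hcmp := IsSol.compare D hc.le hs hs2 (Or.inr hsin) h20.le
  have hne : Real.sin (β₁ 0) ≠ 0 := (Real.sin_pos_of_pos_of_lt_pi hpos hlt).ne'
  have hstrict := hcmp.2 hc hne
  have hlow2 := hs2.barrier D 0 h0mem (by simp; linarith) T hTmem
  have hcmp3 := (IsSol.compare D (le_refl c₂) hs2 hs3 (Or.inl rfl) (by linarith)).1 T hTmem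
  have hpos3 := hs3.pos_of_zero D (by linarith)
  simp only [Int.cast_zero, zero_mul] at hlow2
  refine ⟨⟨β₂, hs2, by linarith, by linarith⟩, ⟨β₃, hs3, by linarith, by linarith⟩⟩

lemma bad_nonempty (D : AngleData T v k φ) : (BadC T v k).Nonempty := by
  -- choose c with c v ≥ k on [0,T]
  obtain ⟨Kb, hKb⟩ := isCompact_Icc.exists_bound_of_continuousOn (s := Icc 0 T)
    (f := fun t => k t / v t) ((D.hk.div D.hv (fun t => (D.vpos t).ne')).continuousOn)
  set c : ℝ := max Kb 1 with hcdef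
  have hc : 0 < c := lt_of_lt_of_le one_pos (le_max_right _ _)
  have hcv : ∀ t ∈ Icc 0 T, k t ≤ c * v t := by
    intro t ht
    have h1 : k t / v t ≤ c := le_trans (le_trans (le_abs_self _) (hKb t ht)) (le_max_left _ _)
    rwa [div_le_iff₀ (D.vpos t)] at h1
  obtain ⟨β, hs, h0⟩ := IsSol.exists D c hc.le (π / 2)
  refine ⟨c, hc, β, hs, ?_⟩
  have hwc : ContinuousOn (fun t => π / 2 - β t) (Icc 0 T) := continuousOn_const.sub hs.continuousOn
  have key := lin_nonneg D.hT.le (w := fun t => π / 2 - β t)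
    (K := fun t => c * v t * (Real.sinc ((π/2 - β t) / 2) * Real.sin ((π/2 - β t) / 2)))
    (g := fun t => c * v t - k t) ?_ (fun t ht => by linarith [hcv t ht]) ?_ (by simp [h0])
  · have := key.1 T (right_mem_Icc.mpr D.hT.le)
    linarith
  · apply ContinuousOn.mul
    · exact (continuous_const.mul D.hv).continuousOn
    · apply ContinuousOn.mul
      · exact Real.continuous_sinc.comp_continuousOn (hwc.div_const 2)
      · exact Real.continuous_sin.comp_continuousOn (hwc.div_const 2)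
  · intro t ht
    have h1 := (hs t ht).const_sub (π / 2)
    refine h1.congr_deriv ?_
    have h2 := one_sub_cos_eq (π / 2 - β t)
    rw [Real.cos_pi_div_two_sub] at h2
    have h3 : c * v t * (Real.sinc ((π/2 - β t) / 2) * Real.sin ((π/2 - β t) / 2)) * (π/2 - β t)
        = c * v t * (1 - Real.sin (β t)) := by rw [h2]; ring
    rw [h3]; ring

lemma bad_bddBelow (D : AngleData T v k φ) : ∃ c₀ > 0, ∀ c ∈ BadC T v k, c₀ ≤ c := by
  obtain ⟨V, hV⟩ := isCompact_Icc.exists_bound_of_continuousOn (s := Icc 0 T) D.hv.continuousOn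
  have hV0 : 0 < V := lt_of_lt_of_le (by
    rw [Real.norm_eq_abs]; exact abs_pos.mpr (D.vpos 0).ne') (hV 0 (left_mem_Icc.mpr D.hT.le))
  refine ⟨2 * π / (V * T), by have := D.hT; positivity, ?_⟩
  rintro c ⟨hc, β, hs, hle⟩
  have h0mem : (0:ℝ) ∈ Icc 0 T := left_mem_Icc.mpr D.hT.le
  have hTmem : T ∈ Icc 0 T := right_mem_Icc.mpr D.hT.le
  have hmono : MonotoneOn (fun t => β t - φ t + c * V * t) (Icc 0 T) := by
    apply monotoneOn_of_deriv_nonneg (convex_Icc 0 T)
    · exact (hs.continuousOn.sub (fun t _ => (D.hφ t).continuousAt.continuousWithinAt)).add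
        (by fun_prop)
    · intro t ht
      rw [interior_Icc] at ht
      exact ((((hs t (Ioo_subset_Icc_self ht)).hasDerivAt
        (Icc_mem_nhds ht.1 ht.2)).sub (D.hφ t)).add
        ((hasDerivAt_id t).const_mul (c * V))).differentiableAt.differentiableWithinAt
    · intro t ht
      rw [interior_Icc] at ht
      have h5 := ((((hs t (Ioo_subset_Icc_self ht)).hasDerivAt
        (Icc_mem_nhds ht.1 ht.2)).sub (D.hφ t)).add
        ((hasDerivAt_id t).const_mul (c * V)))
      have h6 : deriv (fun t => β t - φ t + c * V * t) t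
          = k t - c * v t * Real.sin (β t) - k t + c * V * 1 := h5.deriv
      rw [h6]
      have h7 : |c * v t * Real.sin (β t)| ≤ c * V := by
        rw [abs_mul, abs_mul, abs_of_pos hc]
        have h8 := hV t (Ioo_subset_Icc_self ht)
        rw [Real.norm_eq_abs] at h8
        calc c * |v t| * |Real.sin (β t)| ≤ c * V * 1 := by
              apply mul_le_mul _ (Real.abs_sin_le_one _) (abs_nonneg _) (by positivity)
              exact mul_le_mul_of_nonneg_left h8 hc.le
          _ = c * V := mul_one _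
      have h9 := (abs_le.mp h7).2
      linarith
  have h8 := hmono h0mem hTmem D.hT.le
  simp only [mul_zero, add_zero] at h8
  have h9 := D.hφT
  rw [div_le_iff₀ (by have := D.hT; positivity)]
  have : c * (V * T) = c * V * T := by ring
  linarith

end Pool.Agent.H54.Bike
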