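import Mathlib

open Set Real

namespace Pool.Agent.H54.Bike

lemma gauge_identity (r q s A B Sh Ch c ρ : ℝ) (h1 : s ^ 2 + q ^ 2 = r ^ 2)
    (h2 : Ch ^ 2 - Sh ^ 2 = 1) (h3 : r * ρ = A * q + B * s) :
    r * ((-(c * B)) * ((s * Sh) ^ 2 + (r * Ch - q * Sh) ^ 2)
      + 2 * ((((-(c * B)) * q + B) * Sh + s * ((c * ρ / 2) * Ch)) * (r * Ch - q * Sh)
      - (s * Sh) * (ρ * Ch + r * ((c * ρ / 2) * Sh)
        - ((-(-(c * B)) * s + A) * Sh + q * ((c * ρ / 2) * Ch)))))
    = 2 * (A * s - B * q) * (r * Sh ^ 2 - q * (Sh * Ch - c * r / 2)) := by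
  grind

lemma sinh_mul_cosh_ge {x : ℝ} (hx : 0 ≤ x) : x ≤ Real.sinh x * Real.cosh x := by
  have h1 : x ≤ Real.sinh x := Real.self_le_sinh_iff.mpr hx
  have h2 : 1 ≤ Real.cosh x := Real.one_le_cosh x
  have h3 : 0 ≤ Real.sinh x := le_trans hx h1
  nlinarith

lemma sinh_mul_exp_lt {x : ℝ} (hx : 0 < x) :
    Real.sinh x * (Real.cosh x - Real.sinh x) < x := by
  rw [Real.cosh_sub_sinh, Real.sinh_eq]
  have h1 : (-(2*x)) + 1 < Real.exp (-(2*x)) := Real.add_one_lt_exp (by linarith)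
  have h2 : Real.exp x * Real.exp (-x) = 1 := by rw [← Real.exp_add]; simp
  have h3 : Real.exp (-x) * Real.exp (-x) = Real.exp (-(2*x)) := by
    rw [← Real.exp_add]; ring_nf
  have h4 : (Real.exp x - Real.exp (-x)) / 2 * Real.exp (-x)
      = (1 - Real.exp (-(2*x))) / 2 := by
    rw [← h3, ← h2]; ring
  rw [h4]
  linarith

/-- positivity of the angular part. -/
lemma angular_pos {r q c : ℝ} (hr : 0 < r) (hc : 0 < c) (hq : q ^ 2 ≤ r ^ 2) :
    0 < r * Real.sinh (c * r / 2) ^ 2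
      - q * (Real.sinh (c * r / 2) * Real.cosh (c * r / 2) - c * r / 2) := by
  set u : ℝ := c * r / 2 with hu
  have hupos : 0 < u := by positivity
  have hql : |q| ≤ r := abs_le_of_sq_le_sq hq hr.le
  have hq1 : q ≤ r := le_trans (le_abs_self q) hql
  have h1 := sinh_mul_cosh_ge hupos.le
  have h2 := sinh_mul_exp_lt hupos
  have h3 : q * (Real.sinh u * Real.cosh u - u) ≤ r * (Real.sinh u * Real.cosh u - u) :=
    mul_le_mul_of_nonneg_right hq1 (by linarith)
  have h4 : 0 < r * (Real.sinh u ^ 2 - (Real.sinh u * Real.cosh u - u)) := by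
    apply mul_pos hr
    nlinarith
  nlinarith

/-- The radial gauge: along every bicycle motion whose front wheel turns counterclockwise
around the origin the gauged angle is increasing. -/
lemma gauge_deriv {s : Set ℝ} {c t : ℝ} (hc : 0 < c) {x y x' y' θ : ℝ → ℝ}
    (hx : HasDerivWithinAt x (x' t) s t) (hy : HasDerivWithinAt y (y' t) s t)
    (hcross : 0 < x t * y' t - y t * x' t)
    (hθ : HasDerivWithinAt θ (c * (x' t * (-Real.sin (θ t)) + y' t * Real.cos (θ t))) s t) :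
    ∃ a' > 0, HasDerivWithinAt (fun t => θ t + 2 * Real.arctan
      (((Real.sin (θ t) * x t - Real.cos (θ t) * y t) *
          Real.sinh (c * Real.sqrt (x t ^ 2 + y t ^ 2) / 2)) /
        (Real.sqrt (x t ^ 2 + y t ^ 2) * Real.cosh (c * Real.sqrt (x t ^ 2 + y t ^ 2) / 2)
          - (Real.cos (θ t) * x t + Real.sin (θ t) * y t) *
            Real.sinh (c * Real.sqrt (x t ^ 2 + y t ^ 2) / 2)))) a' s t := by
  have hr2pos : 0 < x t ^ 2 + y t ^ 2 := by
    by_contra hcon
    push Not at hcon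
    have h1 : x t = 0 := by nlinarith [sq_nonneg (x t), sq_nonneg (y t)]
    have h2 : y t = 0 := by nlinarith [sq_nonneg (x t), sq_nonneg (y t)]
    rw [h1, h2] at hcross
    simp at hcross
  set R : ℝ → ℝ := fun t => Real.sqrt (x t ^ 2 + y t ^ 2) with hR
  have hRpos : 0 < R t := Real.sqrt_pos.mpr hr2pos
  have hRsq : R t ^ 2 = x t ^ 2 + y t ^ 2 := Real.sq_sqrt hr2pos.le
  set ρ : ℝ := (x t * x' t + y t * y' t) / R t with hρ
  have hRd : HasDerivWithinAt R ρ s t := by
    have h1 := (((hx.pow 2).add (hy.pow 2)).sqrt hr2pos.ne')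
    refine h1.congr_deriv ?_
    rw [hρ]
    simp only [Pi.add_apply, Pi.pow_apply]
    rw [show √(x t ^ 2 + y t ^ 2) = R t from rfl]
    field_simp
    ring
  have hsin := hθ.sin
  have hcos := hθ.cos
  set S : ℝ → ℝ := fun t => Real.sin (θ t) * x t - Real.cos (θ t) * y t with hS
  set Q : ℝ → ℝ := fun t => Real.cos (θ t) * x t + Real.sin (θ t) * y t with hQ
  set A : ℝ := Real.cos (θ t) * x' t + Real.sin (θ t) * y' t with hA
  set B : ℝ := Real.sin (θ t) * x' t - Real.cos (θ t) * y' t with hB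
  have hsc := Real.sin_sq_add_cos_sq (θ t)
  have hθ' : c * (x' t * (-Real.sin (θ t)) + y' t * Real.cos (θ t)) = -(c * B) := by
    rw [hB]; ring
  have hSd : HasDerivWithinAt S ((-(c * B)) * Q t + B) s t := by
    refine ((hsin.mul hx).sub (hcos.mul hy)).congr_deriv ?_
    rw [← hθ', hQ, hB]; ring
  have hQd : HasDerivWithinAt Q (-(-(c * B)) * S t + A) s t := by
    refine ((hcos.mul hx).add (hsin.mul hy)).congr_deriv ?_
    rw [← hθ', hS, hA]; ring
  have hcR : HasDerivWithinAt (fun t => c * R t / 2) (c * ρ / 2) s t :=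
    (hRd.const_mul c).div_const 2
  have hSh : HasDerivWithinAt (fun t => Real.sinh (c * R t / 2))
      ((c * ρ / 2) * Real.cosh (c * R t / 2)) s t := by
    refine hcR.sinh.congr_deriv ?_
    ring
  have hCh : HasDerivWithinAt (fun t => Real.cosh (c * R t / 2))
      ((c * ρ / 2) * Real.sinh (c * R t / 2)) s t := by
    refine hcR.cosh.congr_deriv ?_
    ring
  set Sh : ℝ := Real.sinh (c * R t / 2) with hShdef
  set Ch : ℝ := Real.cosh (c * R t / 2) with hChdef
  have hSQ : S t ^ 2 + Q t ^ 2 = R t ^ 2 := by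
    rw [hRsq, hS, hQ]
    simp only
    have : (Real.sin (θ t) * x t - Real.cos (θ t) * y t) ^ 2
        + (Real.cos (θ t) * x t + Real.sin (θ t) * y t) ^ 2
        = (Real.sin (θ t) ^ 2 + Real.cos (θ t) ^ 2) * (x t ^ 2 + y t ^ 2) := by ring
    rw [this, hsc, one_mul]
  have hcs : Ch ^ 2 - Sh ^ 2 = 1 := Real.cosh_sq_sub_sinh_sq _
  have hRρ : R t * ρ = A * Q t + B * S t := by
    rw [hρ, mul_div_cancel₀ _ hRpos.ne', hA, hB, hQ, hS]
    simp only
    have : (Real.cos (θ t) * x' t + Real.sin (θ t) * y' t)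
          * (Real.cos (θ t) * x t + Real.sin (θ t) * y t)
        + (Real.sin (θ t) * x' t - Real.cos (θ t) * y' t)
          * (Real.sin (θ t) * x t - Real.cos (θ t) * y t)
        = (Real.sin (θ t) ^ 2 + Real.cos (θ t) ^ 2) * (x t * x' t + y t * y' t) := by ring
    rw [this, hsc, one_mul]
  have hQle : Q t ^ 2 ≤ R t ^ 2 := by nlinarith [sq_nonneg (S t)]
  have hQabs : Q t ≤ R t := le_trans (le_abs_self _) (abs_le_of_sq_le_sq hQle hRpos.le)
  have hShpos : 0 < Sh := Real.sinh_pos_iff.mpr (by positivity)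
  have hChSh : Sh < Ch := Real.sinh_lt_cosh _
  have hdpos : 0 < R t * Ch - Q t * Sh := by
    have h1 : Q t * Sh ≤ R t * Sh := mul_le_mul_of_nonneg_right hQabs hShpos.le
    have h2 : R t * Sh < R t * Ch := mul_lt_mul_of_pos_left hChSh hRpos
    linarith
  have hnd : HasDerivWithinAt (fun t => S t * Real.sinh (c * R t / 2))
      (((-(c * B)) * Q t + B) * Sh + S t * ((c * ρ / 2) * Ch)) s t := hSd.mul hSh
  have hdd : HasDerivWithinAt (fun t => R t * Real.cosh (c * R t / 2)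
      - Q t * Real.sinh (c * R t / 2))
      ((ρ * Ch + R t * ((c * ρ / 2) * Sh)) - ((-(-(c * B)) * S t + A) * Sh
        + Q t * ((c * ρ / 2) * Ch))) s t := (hRd.mul hCh).sub (hQd.mul hSh)
  have hdiv := hnd.div hdd hdpos.ne'
  have hfin := hθ.add ((hdiv.arctan).const_mul 2)
  refine ⟨_, ?_, hfin⟩
  rw [hθ']
  simp only [← hShdef, ← hChdef]
  set n : ℝ := S t * Sh with hn
  set d : ℝ := R t * Ch - Q t * Sh with hd
  set n' : ℝ := ((-(c * B)) * Q t + B) * Sh + S t * ((c * ρ / 2) * Ch) with hn'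
  set d' : ℝ := (ρ * Ch + R t * ((c * ρ / 2) * Sh)) - ((-(-(c * B)) * S t + A) * Sh
        + Q t * ((c * ρ / 2) * Ch)) with hd'
  have hid := gauge_identity (R t) (Q t) (S t) A B Sh Ch c ρ hSQ hcs hRρ
  have hang := angular_pos hRpos hc hQle
  have hcr : A * S t - B * Q t = x t * y' t - y t * x' t := by
    rw [hA, hB, hQ, hS]
    simp only
    have : (Real.cos (θ t) * x' t + Real.sin (θ t) * y' t)
          * (Real.sin (θ t) * x t - Real.cos (θ t) * y t)
        - (Real.sin (θ t) * x' t - Real.cos (θ t) * y' t)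
          * (Real.cos (θ t) * x t + Real.sin (θ t) * y t)
        = (Real.sin (θ t) ^ 2 + Real.cos (θ t) ^ 2) * (x t * y' t - y t * x' t) := by ring
    rw [this, hsc, one_mul]
  have hsq : 0 < n ^ 2 + d ^ 2 := by positivity
  have hexpr : -(c * B) + 2 * (1 / (1 + (n / d) ^ 2) * ((n' * d - n * d') / d ^ 2))
      = (R t * (-(c * B) * (n ^ 2 + d ^ 2) + 2 * (n' * d - n * d'))) / (R t * (n ^ 2 + d ^ 2)) := by
    have hd0 : d ≠ 0 := hdpos.ne'
    have hR0 : R t ≠ 0 := hRpos.ne'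
    have h5 : 1 + (n / d) ^ 2 = (n ^ 2 + d ^ 2) / d ^ 2 := by field_simp; ring
    rw [h5]
    field_simp
  have hmain : R t * (-(c * B) * (n ^ 2 + d ^ 2) + 2 * (n' * d - n * d'))
      = 2 * (A * S t - B * Q t) * (R t * Sh ^ 2 - Q t * (Sh * Ch - c * R t / 2)) := by
    rw [← hid]
  change -(c * B) + 2 * (1 / (1 + (n / d) ^ 2) * ((n' * d - n * d') / d ^ 2)) > 0
  rw [hexpr, hmain, hcr]
  apply div_pos
  · exact mul_pos (mul_pos two_pos hcross) hang
  · exact mul_pos hRpos hsq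

end Pool.Agent.H54.Bike
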