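import Mathlib
import Pool.Agent.H54.BikeODE
import Pool.Agent.H54.BikeAngle
import Pool.Agent.H54.BikeGauge

open Set Real

namespace Pool.Agent.H54.Bike

/-- real form of the bicycle equation, `c = 1/ℓ`. -/
def Motion (T : ℝ) (x' y' : ℝ → ℝ) (c : ℝ) (θ : ℝ → ℝ) : Prop :=
  ∀ t ∈ Icc (0:ℝ) T, HasDerivWithinAt θ
    (c * (x' t * (-Real.sin (θ t)) + y' t * Real.cos (θ t))) (Icc 0 T) t

variable {T c : ℝ} {x y x' y' θ : ℝ → ℝ}

lemma Motion.continuousOn (h : Motion T x' y' c θ) : ContinuousOn θ (Icc 0 T) :=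
  fun t ht => (h t ht).continuousWithinAt

lemma Motion.exists (hT : 0 < T) (hx' : Continuous x') (hy' : Continuous y') (hc : 0 ≤ c)
    (a : ℝ) : ∃ θ, Motion T x' y' c θ ∧ θ 0 = a := by
  obtain ⟨X, hX⟩ := isCompact_Icc.exists_bound_of_continuousOn (s := Icc 0 T) hx'.continuousOn
  obtain ⟨Y, hY⟩ := isCompact_Icc.exists_bound_of_continuousOn (s := Icc 0 T) hy'.continuousOn
  have hX0 : 0 ≤ X := le_trans (norm_nonneg _) (hX 0 (left_mem_Icc.mpr hT.le))
  have hY0 : 0 ≤ Y := le_trans (norm_nonneg _) (hY 0 (left_mem_Icc.mpr hT.le))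
  have hlip : ∀ t ∈ Icc 0 T, ∀ p q,
      |c * (x' t * (-Real.sin p) + y' t * Real.cos p)
        - c * (x' t * (-Real.sin q) + y' t * Real.cos q)| ≤ c * (X + Y) * |p - q| := by
    intro t ht p q
    have h1 : c * (x' t * (-Real.sin p) + y' t * Real.cos p)
        - c * (x' t * (-Real.sin q) + y' t * Real.cos q)
        = c * (x' t * (-(Real.sin p - Real.sin q)) + y' t * (Real.cos p - Real.cos q)) := by ring
    rw [h1, abs_mul, abs_of_nonneg hc, mul_assoc]
    apply mul_le_mul_of_nonneg_left _ hc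
    calc |x' t * (-(Real.sin p - Real.sin q)) + y' t * (Real.cos p - Real.cos q)|
        ≤ |x' t * (-(Real.sin p - Real.sin q))| + |y' t * (Real.cos p - Real.cos q)| :=
          abs_add_le _ _
      _ = |x' t| * |Real.sin p - Real.sin q| + |y' t| * |Real.cos p - Real.cos q| := by
          rw [abs_mul, abs_mul, abs_neg]
      _ ≤ X * |p - q| + Y * |p - q| := by
          apply add_le_add
          · exact mul_le_mul (hX t ht) (Real.abs_sin_sub_sin_le p q) (abs_nonneg _) hX0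
          · exact mul_le_mul (hY t ht) (Real.abs_cos_sub_cos_le p q) (abs_nonneg _) hY0
      _ = (X + Y) * |p - q| := by ring
  have hcont : ∀ p, ContinuousOn (fun t => c * (x' t * (-Real.sin p) + y' t * Real.cos p))
      (Icc 0 T) := by
    intro p
    exact (continuous_const.mul ((hx'.mul continuous_const).add
      (hy'.mul continuous_const))).continuousOn
  have hbd : ∀ t ∈ Icc 0 T, ∀ p, |c * (x' t * (-Real.sin p) + y' t * Real.cos p)|
      ≤ c * (X + Y) := by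
    intro t ht p
    rw [abs_mul, abs_of_nonneg hc]
    apply mul_le_mul_of_nonneg_left _ hc
    calc |x' t * (-Real.sin p) + y' t * Real.cos p| ≤ |x' t * (-Real.sin p)|
          + |y' t * Real.cos p| := abs_add_le _ _
      _ = |x' t| * |Real.sin p| + |y' t| * |Real.cos p| := by rw [abs_mul, abs_mul, abs_neg]
      _ ≤ X * 1 + Y * 1 := by
          apply add_le_add
          · exact mul_le_mul (hX t ht) (Real.abs_sin_le_one p) (abs_nonneg _) hX0
          · exact mul_le_mul (hY t ht) (Real.abs_cos_le_one p) (abs_nonneg _) hY0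
      _ = X + Y := by ring
  obtain ⟨α, h0, h1⟩ := exists_solution (T := T) hT.le
    (F := fun t p => c * (x' t * (-Real.sin p) + y' t * Real.cos p)) (K := c * (X + Y))
    (C := c * (X + Y)) (by positivity) (by positivity) hlip hcont hbd a
  exact ⟨α, h1, h0⟩

/-- the linear lift of a motion. -/
lemma Motion.linear (hT : 0 < T) (hx' : Continuous x') (hy' : Continuous y')
    (h : Motion T x' y' c θ) :
    ∃ p q R : ℝ → ℝ, (∀ t, 0 < R t) ∧ R 0 = 1 ∧ (∀ t, p t = R t * Real.cos (θ t / 2)) ∧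
      (∀ t, q t = R t * Real.sin (θ t / 2)) ∧
      (∀ t ∈ Icc 0 T, HasDerivWithinAt p (c / 2 * (x' t * p t + y' t * q t)) (Icc 0 T) t) ∧
      (∀ t ∈ Icc 0 T, HasDerivWithinAt q (c / 2 * (y' t * p t - x' t * q t)) (Icc 0 T) t) := by
  set H : ℝ → ℝ := fun t => c / 2 * (x' t * Real.cos (θ t) + y' t * Real.sin (θ t)) with hH
  have hHc : ContinuousOn H (Icc 0 T) := by
    apply ContinuousOn.mul continuousOn_const
    exact (hx'.continuousOn.mul (Real.continuous_cos.comp_continuousOn h.continuousOn)).add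
      (hy'.continuousOn.mul (Real.continuous_sin.comp_continuousOn h.continuousOn))
  set Ht : ℝ → ℝ := IccExtend hT.le ((Icc 0 T).domRestrict H) with hHt
  have hHtc : Continuous Ht := by
    apply Continuous.Icc_extend'
    exact continuousOn_iff_continuous_domRestrict.mp hHc
  have hHeq : ∀ t ∈ Icc 0 T, Ht t = H t := by
    intro t ht
    rw [hHt, IccExtend_of_mem hT.le _ ht]; rfl
  set R : ℝ → ℝ := fun t => Real.exp (∫ s in (0:ℝ)..t, Ht s) with hR
  have hRd : ∀ t, HasDerivAt R (Ht t * R t) t := by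
    intro t
    have h1 : HasDerivAt (fun u => ∫ s in (0:ℝ)..u, Ht s) (Ht t) t :=
      intervalIntegral.integral_hasDerivAt_right (hHtc.intervalIntegrable _ _)
        (hHtc.stronglyMeasurableAtFilter _ _) hHtc.continuousAt
    have h2 := h1.exp
    simpa [hR, mul_comm] using h2
  refine ⟨fun t => R t * Real.cos (θ t / 2), fun t => R t * Real.sin (θ t / 2), R,
    fun t => Real.exp_pos _, by simp [hR], fun t => rfl, fun t => rfl, ?_, ?_⟩
  · intro t ht
    have h1 := (hRd t).hasDerivWithinAt (s := Icc 0 T)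
    have h2 := ((h t ht).div_const 2).cos
    refine (h1.mul h2).congr_deriv ?_
    rw [hHeq t ht, hH]
    have e1 : Real.cos (θ t) = Real.cos (θ t / 2) ^ 2 - Real.sin (θ t / 2) ^ 2 := by
      have := Real.cos_two_mul' (θ t / 2)
      rwa [show 2 * (θ t / 2) = θ t by ring] at this
    have e2 : Real.sin (θ t) = 2 * Real.sin (θ t / 2) * Real.cos (θ t / 2) := by
      have := Real.sin_two_mul (θ t / 2)
      rwa [show 2 * (θ t / 2) = θ t by ring] at this
    have e3 := Real.sin_sq_add_cos_sq (θ t / 2)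
    simp only
    rw [e1, e2]
    linear_combination (c / 2 * R t * (x' t * Real.cos (θ t / 2) + y' t * Real.sin (θ t / 2)))
      * e3
  · intro t ht
    have h1 := (hRd t).hasDerivWithinAt (s := Icc 0 T)
    have h2 := ((h t ht).div_const 2).sin
    refine (h1.mul h2).congr_deriv ?_
    rw [hHeq t ht, hH]
    have e1 : Real.cos (θ t) = Real.cos (θ t / 2) ^ 2 - Real.sin (θ t / 2) ^ 2 := by
      have := Real.cos_two_mul' (θ t / 2)
      rwa [show 2 * (θ t / 2) = θ t by ring] at this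
    have e2 : Real.sin (θ t) = 2 * Real.sin (θ t / 2) * Real.cos (θ t / 2) := by
      have := Real.sin_two_mul (θ t / 2)
      rwa [show 2 * (θ t / 2) = θ t by ring] at this
    have e3 := Real.sin_sq_add_cos_sq (θ t / 2)
    simp only
    rw [e1, e2]
    linear_combination (c / 2 * R t * (y' t * Real.cos (θ t / 2) - x' t * Real.sin (θ t / 2)))
      * e3

/-- The Wronskian of two solutions of the linear system is constant. -/
lemma wronskian (hT : 0 < T) {p q p₁ q₁ : ℝ → ℝ}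
    (hp : ∀ t ∈ Icc 0 T, HasDerivWithinAt p (c / 2 * (x' t * p t + y' t * q t)) (Icc 0 T) t)
    (hq : ∀ t ∈ Icc 0 T, HasDerivWithinAt q (c / 2 * (y' t * p t - x' t * q t)) (Icc 0 T) t)
    (hp₁ : ∀ t ∈ Icc 0 T, HasDerivWithinAt p₁ (c / 2 * (x' t * p₁ t + y' t * q₁ t)) (Icc 0 T) t)
    (hq₁ : ∀ t ∈ Icc 0 T, HasDerivWithinAt q₁ (c / 2 * (y' t * p₁ t - x' t * q₁ t)) (Icc 0 T) t) :
    p T * q₁ T - q T * p₁ T = p 0 * q₁ 0 - q 0 * p₁ 0 := by
  have hd : ∀ t ∈ Icc 0 T, HasDerivWithinAt (fun t => p t * q₁ t - q t * p₁ t) 0 (Icc 0 T) t := by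
    intro t ht
    refine (((hp t ht).mul (hq₁ t ht)).sub ((hq t ht).mul (hp₁ t ht))).congr_deriv ?_
    ring
  have h1 := constant_of_derivWithin_zero (f := fun t => p t * q₁ t - q t * p₁ t) (a := 0) (b := T)
    (fun t ht => (hd t ht).differentiableWithinAt)
    (fun t ht => (hd t (Ico_subset_Icc_self ht)).derivWithin
      (uniqueDiffOn_Icc hT t (Ico_subset_Icc_self ht)))
  exact h1 T (right_mem_Icc.mpr hT.le)

/-- Existence of the monodromy matrix. -/
lemma exists_matrix (hT : 0 < T) (hx' : Continuous x') (hy' : Continuous y') (hc : 0 ≤ c) :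
    ∃ m₁ m₂ m₃ m₄ : ℝ, m₁ * m₄ - m₂ * m₃ = 1 ∧ ∀ θ, Motion T x' y' c θ → ∃ r > 0,
      m₁ * Real.cos (θ 0 / 2) + m₂ * Real.sin (θ 0 / 2) = r * Real.cos (θ T / 2) ∧
      m₃ * Real.cos (θ 0 / 2) + m₄ * Real.sin (θ 0 / 2) = r * Real.sin (θ T / 2) := by
  obtain ⟨θ₁, hθ₁, h10⟩ := Motion.exists hT hx' hy' hc 0
  obtain ⟨θ₂, hθ₂, h20⟩ := Motion.exists hT hx' hy' hc π
  obtain ⟨p₁, q₁, R₁, hR₁, hR₁0, hp₁, hq₁, hdp₁, hdq₁⟩ := hθ₁.linear hT hx' hy'
  obtain ⟨p₂, q₂, R₂, hR₂, hR₂0, hp₂, hq₂, hdp₂, hdq₂⟩ := hθ₂.linear hT hx' hy'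
  have e1 : p₁ 0 = 1 := by rw [hp₁, hR₁0, h10]; simp
  have e2 : q₁ 0 = 0 := by rw [hq₁, hR₁0, h10]; simp
  have e3 : p₂ 0 = 0 := by rw [hp₂, hR₂0, h20]; simp
  have e4 : q₂ 0 = 1 := by rw [hq₂, hR₂0, h20]; simp
  have hw12 := wronskian hT hdp₁ hdq₁ hdp₂ hdq₂
  rw [e1, e2, e3, e4] at hw12
  refine ⟨p₁ T, p₂ T, q₁ T, q₂ T, by linarith, ?_⟩
  intro θ hθ
  obtain ⟨p, q, R, hR, hR0, hp, hq, hdp, hdq⟩ := hθ.linear hT hx' hy'
  have e5 : p 0 = Real.cos (θ 0 / 2) := by rw [hp, hR0, one_mul]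
  have e6 : q 0 = Real.sin (θ 0 / 2) := by rw [hq, hR0, one_mul]
  have hw1 := wronskian hT hdp hdq hdp₁ hdq₁
  have hw2 := wronskian hT hdp hdq hdp₂ hdq₂
  rw [e1, e2, e5, e6] at hw1
  rw [e3, e4, e5, e6] at hw2
  refine ⟨R T, hR T, ?_, ?_⟩
  · rw [← hp T]
    linear_combination (-(p₁ T)) * hw2 + p₂ T * hw1 + p T * hw12
  · rw [← hq T]
    linear_combination (-(q₁ T)) * hw2 + q₂ T * hw1 + q T * hw12

lemma cross_dir (m₁ m₂ m₃ m₄ r a b : ℝ)
    (h1 : m₁ * Real.cos (a / 2) + m₂ * Real.sin (a / 2) = r * Real.cos (b / 2))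
    (h2 : m₃ * Real.cos (a / 2) + m₄ * Real.sin (a / 2) = r * Real.sin (b / 2)) :
    m₃ * Real.cos (a / 2) ^ 2 + (m₄ - m₁) * Real.cos (a / 2) * Real.sin (a / 2)
      - m₂ * Real.sin (a / 2) ^ 2 = r * Real.sin ((b - a) / 2) := by
  have : Real.sin ((b - a) / 2) = Real.sin (b / 2) * Real.cos (a / 2)
      - Real.cos (b / 2) * Real.sin (a / 2) := by
    rw [← Real.sin_sub]; ring_nf
  rw [this]
  linear_combination Real.cos (a / 2) * h2 - Real.sin (a / 2) * h1

/-- A real quadratic form taking both signs has positive discriminant. -/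
lemma disc_pos {A B C x₁ y₁ x₂ y₂ : ℝ} (h1 : 0 < A * x₁ ^ 2 + B * x₁ * y₁ + C * y₁ ^ 2)
    (h2 : A * x₂ ^ 2 + B * x₂ * y₂ + C * y₂ ^ 2 < 0) : 0 < B ^ 2 - 4 * A * C := by
  by_contra hcon
  push Not at hcon
  have e1 : 0 ≤ A * (A * x₁ ^ 2 + B * x₁ * y₁ + C * y₁ ^ 2) := by
    nlinarith [sq_nonneg (2 * A * x₁ + B * y₁), mul_nonneg (neg_nonneg.mpr hcon) (sq_nonneg y₁)]
  have e2 : 0 ≤ A * (A * x₂ ^ 2 + B * x₂ * y₂ + C * y₂ ^ 2) := by
    nlinarith [sq_nonneg (2 * A * x₂ + B * y₂), mul_nonneg (neg_nonneg.mpr hcon) (sq_nonneg y₂)]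
  have hA1 : 0 ≤ A := by
    by_contra h
    push Not at h
    nlinarith
  have hA2 : A ≤ 0 := by
    by_contra h
    push Not at h
    nlinarith
  have hA : A = 0 := le_antisymm hA2 hA1
  subst hA
  have hB : B = 0 := by nlinarith [sq_nonneg B]
  subst hB
  simp only [zero_mul, zero_add] at h1 h2
  have hC1 : 0 < C := by
    by_contra h
    push Not at h
    nlinarith [sq_nonneg y₁]
  nlinarith [sq_nonneg y₂]

/-- A real quadratic form with nonnegative discriminant vanishes in some direction. -/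
lemma exists_dir_zero {A B C : ℝ} (h : 0 ≤ B ^ 2 - 4 * A * C) :
    ∃ a : ℝ, A * Real.cos (a / 2) ^ 2 + B * Real.cos (a / 2) * Real.sin (a / 2)
      + C * Real.sin (a / 2) ^ 2 = 0 := by
  rcases eq_or_ne A 0 with hA | hA
  · exact ⟨0, by simp [hA]⟩
  · set D := Real.sqrt (B ^ 2 - 4 * A * C) with hD
    have hD2 : D ^ 2 = B ^ 2 - 4 * A * C := Real.sq_sqrt h
    set X : ℝ := (-B + D) / (2 * A) with hX
    have hroot : A * X ^ 2 + B * X + C = 0 := by
      rw [hX]; field_simp; nlinarith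
    set w : ℂ := ⟨X, 1⟩ with hw
    have hw0 : w ≠ 0 := by
      intro h0
      have := congrArg Complex.im h0
      simp [hw] at this
    refine ⟨2 * Complex.arg w, ?_⟩
    rw [show 2 * Complex.arg w / 2 = Complex.arg w by ring, Complex.cos_arg hw0,
      Complex.sin_arg]
    have hn : ‖w‖ ≠ 0 := by simpa using hw0
    have hre : w.re = X := rfl
    have him : w.im = 1 := rfl
    rw [hre, him]
    have e : A * (X / ‖w‖) ^ 2 + B * (X / ‖w‖) * (1 / ‖w‖) + C * (1 / ‖w‖) ^ 2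
        = (A * X ^ 2 + B * X + C) / ‖w‖ ^ 2 := by field_simp
    rw [e, hroot, zero_div]

end Pool.Agent.H54.Bike
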