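import Mathlib
import Pool.Agent.H54.BikeMatrix

open Set Real Filter Topology

namespace Pool.Agent.H54.Bike

/-- cross product of plane vectors. -/
def cross (u w : ℂ) : ℝ := u.re * w.im - u.im * w.re

lemma cross_sub_right (u w z : ℂ) : cross u (w - z) = cross u w - cross u z := by
  simp [cross]; ring

lemma cross_self (u : ℂ) : cross u u = 0 := by simp [cross]; ring

/-- supporting line at a boundary point of a convex body whose boundary is a regular curve. -/
lemma support_sign {K : Set ℂ} (hK : Convex ℝ K) (hKc : IsClosed K) {Γ : ℝ → ℂ}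
    (hΓ : Differentiable ℝ Γ) (hreg : ∀ t, deriv Γ t ≠ 0) (hfr : frontier K = range Γ)
    {p : ℂ} (hp : p ∈ interior K) (t : ℝ) :
    cross (deriv Γ t) (p - Γ t) ≠ 0 ∧
      ∀ q ∈ K, 0 ≤ cross (deriv Γ t) (q - Γ t) * cross (deriv Γ t) (p - Γ t) := by
  have hmem : Γ t ∈ frontier K := by rw [hfr]; exact mem_range_self t
  have hnot : Γ t ∉ interior K := hmem.2
  obtain ⟨f, hf⟩ := geometric_hahn_banach_open_point hK.interior isOpen_interior hnot
  have hle : ∀ q ∈ K, f q ≤ f (Γ t) := by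
    intro q hq
    have h1 : q ∈ closure (interior K) := by
      rw [hK.closure_interior_eq_closure_of_nonempty_interior ⟨p, hp⟩]
      exact subset_closure hq
    have h2 : closure (interior K) ⊆ {z | f z ≤ f (Γ t)} := by
      apply closure_minimal
      · intro z hz
        exact (hf z hz).le
      · exact isClosed_le f.continuous continuous_const
    exact h2 h1
  have hΓK : ∀ s, Γ s ∈ K := by
    intro s
    have : Γ s ∈ frontier K := by rw [hfr]; exact mem_range_self s
    exact hKc.frontier_subset this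
  have hderiv : HasDerivAt (fun s => f (Γ s)) (f (deriv Γ t)) t :=
    f.hasFDerivAt.comp_hasDerivAt t (hΓ t).hasDerivAt
  have hmax : IsLocalMax (fun s => f (Γ s)) t :=
    Filter.Eventually.of_forall (fun s => hle (Γ s) (hΓK s))
  have hzero : f (deriv Γ t) = 0 := hmax.hasDerivAt_eq_zero hderiv
  have hfw : ∀ w : ℂ, f w = w.re * f 1 + w.im * f Complex.I := by
    intro w
    have h1 : w = w.re • (1 : ℂ) + w.im • Complex.I := by
      apply Complex.ext <;> simp
    conv_lhs => rw [h1]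
    rw [map_add, map_smul, map_smul, smul_eq_mul, smul_eq_mul]
  set g := deriv Γ t with hg
  have hg0 : g ≠ 0 := hreg t
  have hn : 0 < g.re ^ 2 + g.im ^ 2 := by
    have := Complex.normSq_pos.mpr hg0
    rw [Complex.normSq_apply] at this
    nlinarith
  set κ : ℝ := f Complex.I * g.re - f 1 * g.im with hκ
  have hrel : ∀ w : ℂ, (g.re ^ 2 + g.im ^ 2) * f w = κ * cross g w := by
    intro w
    have h0 := hzero
    rw [hfw g] at h0
    rw [hfw w, hκ, cross]
    linear_combination (g.re * w.re + g.im * w.im) * h0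
  have hp1 : f (p - Γ t) < 0 := by
    rw [map_sub]; linarith [hf p hp]
  have hp2 : κ * cross g (p - Γ t) < 0 := by
    rw [← hrel]
    exact mul_neg_of_pos_of_neg hn hp1
  refine ⟨fun h => by rw [h, mul_zero] at hp2; exact lt_irrefl _ hp2, ?_⟩
  intro q hq
  have hq1 : f (q - Γ t) ≤ 0 := by
    rw [map_sub]; linarith [hle q hq]
  have hq2 : κ * cross g (q - Γ t) ≤ 0 := by
    rw [← hrel]
    exact mul_nonpos_of_nonneg_of_nonpos hn.le hq1
  have hκ0 : κ ≠ 0 := fun h => by rw [h, zero_mul] at hp2; exact lt_irrefl _ hp2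
  have h3 : 0 ≤ (κ * cross g (q - Γ t)) * (κ * cross g (p - Γ t)) :=
    mul_nonneg_of_nonpos_of_nonpos hq2 hp2.le
  have h4 : (κ * cross g (q - Γ t)) * (κ * cross g (p - Γ t))
      = κ ^ 2 * (cross g (q - Γ t) * cross g (p - Γ t)) := by ring
  rw [h4] at h3
  exact nonneg_of_mul_nonneg_right h3 (by positivity)

/-- positively oriented regular closed curve bounding a strictly convex body. -/
structure PosCurve (Γ : ℝ → ℂ) (T : ℝ) (K : Set ℂ) (p : ℂ) : Prop where
  hT : 0 < T
  smooth : ContDiff ℝ 2 Γ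
  periodic : Function.Periodic Γ T
  regular : ∀ t, deriv Γ t ≠ 0
  simple : InjOn Γ (Ico 0 T)
  conv : StrictConvex ℝ K
  closed : IsClosed K
  front : frontier K = range Γ
  hp : p ∈ interior K
  orient : ∀ t, 0 < cross (deriv Γ t) (p - Γ t)

variable {Γ : ℝ → ℂ} {T : ℝ} {K : Set ℂ} {p : ℂ}

namespace PosCurve

lemma diff (h : PosCurve Γ T K p) : Differentiable ℝ Γ := h.smooth.differentiable (by norm_num)

lemma memK (h : PosCurve Γ T K p) (s : ℝ) : Γ s ∈ K := by
  have : Γ s ∈ frontier K := by rw [h.front]; exact mem_range_self s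
  exact h.closed.frontier_subset this

lemma cross_nonneg (h : PosCurve Γ T K p) (t : ℝ) {q : ℂ} (hq : q ∈ K) :
    0 ≤ cross (deriv Γ t) (q - Γ t) := by
  have h1 := (support_sign h.conv.convex h.closed h.diff h.regular h.front h.hp t).2 q hq
  exact nonneg_of_mul_nonneg_left h1 (h.orient t)

lemma cross_pos (h : PosCurve Γ T K p) (t : ℝ) {q : ℂ} (hq : q ∈ interior K) :
    0 < cross (deriv Γ t) (q - Γ t) := by
  have h1 := (support_sign h.conv.convex h.closed h.diff h.regular h.front hq t).1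
  exact lt_of_le_of_ne (h.cross_nonneg t (interior_subset hq)) h1.symm

lemma cdg (h : PosCurve Γ T K p) : ContDiff ℝ 1 (deriv Γ) := by
  have h1 : ContDiff ℝ (1 + 1) Γ := h.smooth
  exact (contDiff_succ_iff_deriv.mp h1).2.2

lemma diffg (h : PosCurve Γ T K p) : Differentiable ℝ (deriv Γ) :=
  h.cdg.differentiable (by norm_num)

lemma contg (h : PosCurve Γ T K p) : Continuous (deriv Γ) := h.cdg.continuous

lemma contg' (h : PosCurve Γ T K p) : Continuous (deriv (deriv Γ)) :=
  h.cdg.continuous_deriv (le_refl _)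

lemma gper (h : PosCurve Γ T K p) : deriv Γ T = deriv Γ 0 := by
  have h1 : (fun t => Γ (t + T)) = Γ := funext h.periodic
  have h2 : deriv (fun t => Γ (t + T)) 0 = deriv Γ (0 + T) := deriv_comp_add_const Γ T 0
  rw [h1, zero_add] at h2
  exact h2.symm

/-- curvature is nonnegative. -/
lemma curv_nonneg (h : PosCurve Γ T K p) (t : ℝ) : 0 ≤ cross (deriv Γ t) (deriv (deriv Γ) t) := by
  have h1 := hasDerivAt_iff_tendsto_slope.mp (h.diff t).hasDerivAt
  have h2 := hasDerivAt_iff_tendsto_slope.mp (h.diffg t).hasDerivAt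
  have hcont : Continuous (fun w : ℂ × ℂ => cross w.1 w.2) := by
    unfold cross; fun_prop
  have h3 : Tendsto (fun s => cross (slope Γ t s) (slope (deriv Γ) t s)) (𝓝[≠] t)
      (𝓝 (cross (deriv Γ t) (deriv (deriv Γ) t))) :=
    (hcont.tendsto (deriv Γ t, deriv (deriv Γ) t)).comp (h1.prodMk_nhds h2)
  apply ge_of_tendsto h3
  filter_upwards [self_mem_nhdsWithin] with s hs
  have hs' : s - t ≠ 0 := sub_ne_zero.mpr hs
  have e1 := h.cross_nonneg t (h.memK s)
  have e2 := h.cross_nonneg s (h.memK t)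
  have e3 : cross (slope Γ t s) (slope (deriv Γ) t s)
      = ((s - t)⁻¹) ^ 2 * (cross (deriv Γ t) (Γ s - Γ t) + cross (deriv Γ s) (Γ t - Γ s)) := by
    simp only [slope, cross, vsub_eq_sub, Complex.smul_re, Complex.smul_im, smul_eq_mul,
      Complex.sub_re, Complex.sub_im]
    ring
  rw [e3]
  positivity

/-- logarithm of the velocity. -/
noncomputable def logv (Γ : ℝ → ℂ) (t : ℝ) : ℂ := ∫ s in (0:ℝ)..t, deriv (deriv Γ) s / deriv Γ s

noncomputable def phi (Γ : ℝ → ℂ) (t : ℝ) : ℝ := Complex.arg (deriv Γ 0) + (logv Γ t).im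

lemma hasDeriv_logv (h : PosCurve Γ T K p) (t : ℝ) :
    HasDerivAt (logv Γ) (deriv (deriv Γ) t / deriv Γ t) t := by
  have hc : Continuous (fun s => deriv (deriv Γ) s / deriv Γ s) :=
    h.contg'.div h.contg h.regular
  exact intervalIntegral.integral_hasDerivAt_right (hc.intervalIntegrable _ _)
    (hc.stronglyMeasurableAtFilter _ _) hc.continuousAt

lemma vel_eq (h : PosCurve Γ T K p) (t : ℝ) : deriv Γ t = deriv Γ 0 * Complex.exp (logv Γ t) := by
  have hd : ∀ s, HasDerivAt (fun s => deriv Γ s * Complex.exp (-(logv Γ s))) 0 s := by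
    intro s
    have h1 := (h.diffg s).hasDerivAt
    have h2 := (h.hasDeriv_logv s).neg.cexp
    refine (h1.mul h2).congr_deriv ?_
    have := h.regular s
    simp only [Pi.neg_apply]
    field_simp
    ring
  have hconst := is_const_of_deriv_eq_zero (fun s => (hd s).differentiableAt)
    (fun s => (hd s).deriv) t 0
  have h0 : logv Γ 0 = 0 := by simp [logv]
  simp only [h0, neg_zero, Complex.exp_zero, mul_one] at hconst
  rw [← hconst, mul_assoc, ← Complex.exp_add]
  simp

lemma vel_polar (h : PosCurve Γ T K p) (t : ℝ) :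
    (deriv Γ t).re = ‖deriv Γ t‖ * Real.cos (phi Γ t) ∧
    (deriv Γ t).im = ‖deriv Γ t‖ * Real.sin (phi Γ t) := by
  have h1 := h.vel_eq t
  have h2 : deriv Γ 0 = ‖deriv Γ 0‖ * Complex.exp (Complex.arg (deriv Γ 0) * Complex.I) :=
    (Complex.norm_mul_exp_arg_mul_I _).symm
  have h3 : Complex.exp (logv Γ t) = (Real.exp (logv Γ t).re : ℂ)
      * Complex.exp ((logv Γ t).im * Complex.I) := by
    rw [Complex.ofReal_exp, ← Complex.exp_add, Complex.re_add_im]
  set ρ : ℝ := ‖deriv Γ 0‖ * Real.exp (logv Γ t).re with hρ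
  have h4 : deriv Γ t = (ρ : ℂ) * Complex.exp ((phi Γ t : ℝ) * Complex.I) := by
    rw [h1]
    nth_rewrite 1 [h2]
    rw [h3, hρ, phi]
    push_cast
    rw [add_mul, Complex.exp_add]
    ring
  have hρ0 : 0 ≤ ρ := by positivity
  have h5 : ‖deriv Γ t‖ = ρ := by
    rw [h4, norm_mul, Complex.norm_exp_ofReal_mul_I, mul_one, Complex.norm_real,
      Real.norm_eq_abs, abs_of_nonneg hρ0]
  rw [h5]
  constructor
  · rw [h4, Complex.re_ofReal_mul, Complex.exp_ofReal_mul_I_re]
  · rw [h4, Complex.im_ofReal_mul, Complex.exp_ofReal_mul_I_im]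

noncomputable def kk (Γ : ℝ → ℂ) (t : ℝ) : ℝ := (deriv (deriv Γ) t / deriv Γ t).im

lemma hasDeriv_phi (h : PosCurve Γ T K p) (t : ℝ) : HasDerivAt (phi Γ) (kk Γ t) t := by
  have h1 := Complex.imCLM.hasFDerivAt.comp_hasDerivAt t (h.hasDeriv_logv t)
  exact h1.const_add _

lemma kk_nonneg (h : PosCurve Γ T K p) (t : ℝ) : 0 ≤ kk Γ t := by
  have h1 := h.curv_nonneg t
  have h2 : kk Γ t = cross (deriv Γ t) (deriv (deriv Γ) t) / Complex.normSq (deriv Γ t) := by
    rw [kk, Complex.div_im, cross]; ring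
  rw [h2]
  exact div_nonneg h1 (Complex.normSq_nonneg _)

lemma kk_cont (h : PosCurve Γ T K p) : Continuous (kk Γ) :=
  Complex.continuous_im.comp (h.contg'.div h.contg h.regular)

lemma phi_mono (h : PosCurve Γ T K p) : Monotone (phi Γ) :=
  monotone_of_deriv_nonneg (fun t => (h.hasDeriv_phi t).differentiableAt)
    (fun t => by rw [(h.hasDeriv_phi t).deriv]; exact h.kk_nonneg t)

lemma phi_cont (h : PosCurve Γ T K p) : Continuous (phi Γ) :=
  continuous_iff_continuousAt.mpr (fun t => (h.hasDeriv_phi t).continuousAt)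

lemma phi_T (h : PosCurve Γ T K p) : phi Γ T = phi Γ 0 + 2 * π := by
  have hπ := Real.pi_pos
  have hn0 : ‖deriv Γ 0‖ ≠ 0 := by simpa using h.regular 0
  have hT := h.vel_polar T
  have h0 := h.vel_polar 0
  rw [h.gper] at hT
  have hcos : Real.cos (phi Γ T) = Real.cos (phi Γ 0) :=
    mul_left_cancel₀ hn0 (hT.1.symm.trans h0.1)
  have hsin : Real.sin (phi Γ T) = Real.sin (phi Γ 0) :=
    mul_left_cancel₀ hn0 (hT.2.symm.trans h0.2)
  have hang := Real.Angle.cos_sin_inj hcos hsin
  obtain ⟨m, hm⟩ := Real.Angle.angle_eq_iff_two_pi_dvd_sub.mp hang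
  -- hm : phi T - phi 0 = 2π m
  have hge : phi Γ 0 ≤ phi Γ T := h.phi_mono h.hT.le
  have hm0 : 0 ≤ m := by
    by_contra hcon
    push Not at hcon
    have : (m : ℝ) ≤ -1 := by exact_mod_cast Int.le_sub_one_of_lt hcon
    nlinarith
  have hm1 : m ≠ 0 := by
    intro h00
    rw [h00] at hm
    have hconst : ∀ t ∈ Icc 0 T, phi Γ t = phi Γ 0 := by
      intro t ht
      have h1 := h.phi_mono ht.1
      have h2 := h.phi_mono ht.2
      simp at hm
      linarith
    -- the coordinate in direction phi 0 is strictly increasing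
    set F : ℝ → ℝ := fun t => (Γ t).re * Real.cos (phi Γ 0) + (Γ t).im * Real.sin (phi Γ 0)
      with hF
    have hFd : ∀ t, HasDerivAt F ((deriv Γ t).re * Real.cos (phi Γ 0)
        + (deriv Γ t).im * Real.sin (phi Γ 0)) t := by
      intro t
      have e1 := Complex.reCLM.hasFDerivAt.comp_hasDerivAt t (h.diff t).hasDerivAt
      have e2 := Complex.imCLM.hasFDerivAt.comp_hasDerivAt t (h.diff t).hasDerivAt
      exact (e1.mul_const _).add (e2.mul_const _)
    have hstrict : StrictMonoOn F (Icc 0 T) := by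
      apply strictMonoOn_of_deriv_pos (convex_Icc 0 T)
      · exact fun t _ => (hFd t).continuousAt.continuousWithinAt
      · intro t ht
        rw [interior_Icc] at ht
        rw [(hFd t).deriv]
        have e3 := h.vel_polar t
        rw [hconst t (Ioo_subset_Icc_self ht)] at e3
        rw [e3.1, e3.2]
        have e4 := Real.sin_sq_add_cos_sq (phi Γ 0)
        have e5 : 0 < ‖deriv Γ t‖ := norm_pos_iff.mpr (h.regular t)
        have e6 : ‖deriv Γ t‖ * Real.cos (phi Γ 0) * Real.cos (phi Γ 0)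
            + ‖deriv Γ t‖ * Real.sin (phi Γ 0) * Real.sin (phi Γ 0)
            = ‖deriv Γ t‖ * (Real.sin (phi Γ 0) ^ 2 + Real.cos (phi Γ 0) ^ 2) := by ring
        rw [e6, e4, mul_one]
        exact e5
    have h7 := hstrict (left_mem_Icc.mpr h.hT.le) (right_mem_Icc.mpr h.hT.le) h.hT
    have h8 : Γ T = Γ 0 := by
      have := h.periodic 0
      rwa [zero_add] at this
    rw [hF] at h7
    simp only [h8] at h7
    exact lt_irrefl _ h7
  have hm2 : m < 2 := by
    by_contra hcon
    push Not at hcon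
    have hm' : (2:ℝ) ≤ m := by exact_mod_cast hcon
    have hgt : phi Γ 0 + 2 * π < phi Γ T := by nlinarith
    have hivt : phi Γ 0 + 2 * π ∈ Icc (phi Γ 0) (phi Γ T) := ⟨by linarith, hgt.le⟩
    obtain ⟨τ, hτ, hτv⟩ := intermediate_value_Icc h.hT.le h.phi_cont.continuousOn hivt
    have hτT : τ ≠ T := by
      rintro rfl
      linarith
    have hτ0 : τ ≠ 0 := by
      rintro rfl
      linarith
    have hτI : τ ∈ Ico 0 T := ⟨hτ.1, lt_of_le_of_ne hτ.2 hτT⟩
    have h0I : (0:ℝ) ∈ Ico 0 T := ⟨le_refl _, h.hT⟩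
    have hne : Γ 0 ≠ Γ τ := by
      intro heq
      exact hτ0 (h.simple h0I hτI heq).symm
    -- midpoint is interior
    have hmid : (1/2 : ℝ) • Γ 0 + (1/2 : ℝ) • Γ τ ∈ interior K :=
      h.conv (h.memK 0) (h.memK τ) hne (by norm_num) (by norm_num) (by norm_num)
    have c1 := h.cross_pos 0 hmid
    have c2 := h.cross_nonneg τ (h.memK 0)
    have e3 := h.vel_polar τ
    rw [hτv, Real.cos_add_two_pi, Real.sin_add_two_pi] at e3
    have e5 : 0 < ‖deriv Γ τ‖ := norm_pos_iff.mpr (h.regular τ)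
    have e50 : 0 < ‖deriv Γ 0‖ := norm_pos_iff.mpr (h.regular 0)
    rw [cross, e3.1, e3.2] at c2
    rw [cross, h0.1, h0.2] at c1
    simp only [Complex.sub_re, Complex.sub_im, Complex.add_re, Complex.add_im,
      Complex.smul_re, Complex.smul_im, smul_eq_mul] at c1 c2
    set X := Real.cos (phi Γ 0) * ((Γ τ).im - (Γ 0).im)
      - Real.sin (phi Γ 0) * ((Γ τ).re - (Γ 0).re) with hX
    have d1 : 0 < ‖deriv Γ 0‖ * (1/2 * X) := by
      rw [hX]; linarith
    have d2 : 0 ≤ ‖deriv Γ τ‖ * (-X) := by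
      rw [hX]; linarith
    have d3 : 0 < 1/2 * X := (mul_pos_iff_of_pos_left e50).mp d1
    have d4 : 0 ≤ -X := nonneg_of_mul_nonneg_right d2 e5
    linarith
  have hm3 : m = 1 := by omega
  rw [hm3] at hm
  push_cast at hm
  linarith

/-- the data. -/
lemma angleData (h : PosCurve Γ T K p) :
    AngleData T (fun t => ‖deriv Γ t‖) (kk Γ) (phi Γ) where
  hT := h.hT
  hv := h.contg.norm
  vpos := fun t => norm_pos_iff.mpr (h.regular t)
  hk := h.kk_cont
  kpos := h.kk_nonneg
  hφ := h.hasDeriv_phi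
  hφT := h.phi_T

end PosCurve

end Pool.Agent.H54.Bike
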