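import Mathlib

open MvPolynomial

namespace Pool.Agent.H54.GenericDensity

attribute [local instance] MvPolynomial.algebraMvPolynomial in
/-- Noether normalization with parameters. -/
theorem exists_param {S B : Type} [CommRing S] [IsDomain S] [CommRing B] [IsDomain B]
    [Algebra S B] [FaithfulSMul S B] [Algebra.FiniteType S B] :
    ∃ (d : ℕ) (β : Fin d → B) (a : S), a ≠ 0 ∧
      Function.Injective (aeval (R := S) β : MvPolynomial (Fin d) S →ₐ[S] B) ∧
      ∀ x : B, ∃ N : ℕ,
        (aeval (R := S) β : MvPolynomial (Fin d) S →ₐ[S] B).toRingHom.IsIntegralElem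
          (algebraMap S B a ^ N * x) := by
  classical
  let K := FractionRing S
  let L := FractionRing B
  have : FaithfulSMul S L := FaithfulSMul.trans S B L
  let : Algebra K L := FractionRing.liftAlgebra S L
  have : IsScalarTower S K L := FractionRing.isScalarTower_liftAlgebra S L
  have : IsScalarTower S B L := inferInstance
  obtain ⟨s, hs⟩ := (inferInstance : Algebra.FiniteType S B).out
  let T : Subalgebra K L := Algebra.adjoin K ((algebraMap B L) '' (s : Set B))
  have : Algebra.FiniteType K T := by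
    apply Subalgebra.fg_iff_finiteType _ |>.mp
    exact ⟨s.image (algebraMap B L), by simp [T]⟩
  obtain ⟨d, g, hg, hfin⟩ := exists_finite_inj_algHom_of_fg K T
  -- elements of T are fractions
  have hT : ∀ x ∈ T, ∃ c : S, c ≠ 0 ∧ ∃ b : B, algebraMap S L c * x = algebraMap B L b := by
    intro x hx
    induction hx using Algebra.adjoin_induction with
    | mem x hx =>
      obtain ⟨b, _, rfl⟩ := hx
      exact ⟨1, one_ne_zero, b, by simp⟩
    | algebraMap r =>
      obtain ⟨u, v, hv, rfl⟩ := IsFractionRing.div_surjective (A := S) r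
      refine ⟨v, nonZeroDivisors.ne_zero hv, algebraMap S B u, ?_⟩
      have hv0 : algebraMap S L v ≠ 0 := by
        rw [Ne, FaithfulSMul.algebraMap_eq_zero_iff]
        exact nonZeroDivisors.ne_zero hv
      rw [map_div₀, ← IsScalarTower.algebraMap_apply, ← IsScalarTower.algebraMap_apply,
        ← IsScalarTower.algebraMap_apply, mul_div_cancel₀ _ hv0]
    | add x y _ _ hx hy =>
      obtain ⟨c, hc, b, hb⟩ := hx
      obtain ⟨c', hc', b', hb'⟩ := hy
      refine ⟨c * c', mul_ne_zero hc hc', algebraMap S B c' * b + algebraMap S B c * b', ?_⟩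
      simp only [map_add, map_mul, ← hb, ← hb', ← IsScalarTower.algebraMap_apply]
      ring
    | mul x y _ _ hx hy =>
      obtain ⟨c, hc, b, hb⟩ := hx
      obtain ⟨c', hc', b', hb'⟩ := hy
      refine ⟨c * c', mul_ne_zero hc hc', b * b', ?_⟩
      simp only [map_mul, ← hb, ← hb']
      ring
  choose c hc β hβ using fun i : Fin d => hT (g (X i)) (g (X i)).2
  -- scaling automorphism
  let cK : Fin d → K := fun i => algebraMap S K (c i)
  have hcK : ∀ i, cK i ≠ 0 := fun i => by
    simp only [cK]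
    rw [Ne, FaithfulSMul.algebraMap_eq_zero_iff]
    exact hc i
  let σ : MvPolynomial (Fin d) K →ₐ[K] MvPolynomial (Fin d) K := aeval fun i => C (cK i) * X i
  let σ' : MvPolynomial (Fin d) K →ₐ[K] MvPolynomial (Fin d) K := aeval fun i => C (cK i)⁻¹ * X i
  have h1 : σ'.comp σ = AlgHom.id _ _ := by
    ext i
    simp only [σ, σ', AlgHom.comp_apply, aeval_X, map_mul, AlgHom.id_apply, algHom_C]
    rw [algebraMap_eq, ← mul_assoc, ← C_mul, mul_inv_cancel₀ (hcK i), C_1, one_mul]
  have h2 : σ.comp σ' = AlgHom.id _ _ := by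
    ext i
    simp only [σ, σ', AlgHom.comp_apply, aeval_X, map_mul, AlgHom.id_apply, algHom_C]
    rw [algebraMap_eq, ← mul_assoc, ← C_mul, inv_mul_cancel₀ (hcK i), C_1, one_mul]
  let G : MvPolynomial (Fin d) K →ₐ[K] L := T.val.comp (g.comp σ)
  have hσinj : Function.Injective σ := by
    intro x y hxy
    have := congrArg σ' hxy
    rwa [← AlgHom.comp_apply, ← AlgHom.comp_apply, h1] at this
  have hGinj : Function.Injective G :=
    Subtype.val_injective.comp (hg.comp hσinj)
  have hGX : ∀ i, G (X i) = algebraMap B L (β i) := by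
    intro i
    rw [← hβ i]
    simp only [G, σ, AlgHom.comp_apply, aeval_X, map_mul, algHom_C]
    congr 1
    rw [AlgHom.commutes, IsScalarTower.algebraMap_apply S K L]
  have hGint : ∀ x ∈ T, G.toRingHom.IsIntegralElem x := by
    intro x hx
    obtain ⟨p, hp, hp0⟩ := (RingHom.IsIntegral.of_finite hfin) ⟨x, hx⟩
    refine ⟨p.map σ'.toRingHom, hp.map _, ?_⟩
    have h3 : G.toRingHom.comp σ'.toRingHom = T.val.toRingHom.comp g.toRingHom := by
      have : (G.comp σ') = T.val.comp g := by
        rw [show G = (T.val.comp g).comp σ from rfl, AlgHom.comp_assoc, h2, AlgHom.comp_id]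
      exact congrArg AlgHom.toRingHom this
    rw [Polynomial.eval₂_map, h3]
    have := congrArg T.val hp0
    rw [map_zero] at this
    rw [← this]
    exact (Polynomial.hom_eval₂ p g.toRingHom T.val.toRingHom ⟨x, hx⟩).symm
  let i1 : Algebra (MvPolynomial (Fin d) K) L := G.toRingHom.toAlgebra
  let i2 : Algebra (MvPolynomial (Fin d) S) B :=
    (aeval (R := S) β : MvPolynomial (Fin d) S →ₐ[S] B).toRingHom.toAlgebra
  have hcomp : ((algebraMap B L).comp
      (aeval (R := S) β : MvPolynomial (Fin d) S →ₐ[S] B).toRingHom) =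
      G.toRingHom.comp (algebraMap (MvPolynomial (Fin d) S) (MvPolynomial (Fin d) K)) := by
    apply MvPolynomial.ringHom_ext
    · intro r
      simp only [RingHom.comp_apply, algebraMap_def, AlgHom.toRingHom_eq_coe, RingHom.coe_coe, map_C,
        algHom_C]
      rw [← IsScalarTower.algebraMap_apply, ← IsScalarTower.algebraMap_apply]
    · intro i
      simp only [RingHom.comp_apply, algebraMap_def, AlgHom.toRingHom_eq_coe, RingHom.coe_coe, map_X,
        aeval_X, hGX]
  have i5 : IsScalarTower (MvPolynomial (Fin d) S) (MvPolynomial (Fin d) K) L :=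
    IsScalarTower.of_algebraMap_eq' ((IsScalarTower.algebraMap_eq _ B L).trans hcomp)
  have hinj : Function.Injective (aeval (R := S) β : MvPolynomial (Fin d) S →ₐ[S] B) := by
    have : Function.Injective ((algebraMap B L).comp
      (aeval (R := S) β : MvPolynomial (Fin d) S →ₐ[S] B).toRingHom) := by
      rw [hcomp]
      refine hGinj.comp ?_
      rw [algebraMap_def]
      exact map_injective _ (FaithfulSMul.algebraMap_injective S K)
    rw [RingHom.coe_comp] at this
    exact Function.Injective.of_comp this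
  -- clearing denominators in the integral equations
  have hx : ∀ x : B, algebraMap B L x ∈ T → ∃ c : S, c ≠ 0 ∧
      (aeval (R := S) β : MvPolynomial (Fin d) S →ₐ[S] B).toRingHom.IsIntegralElem
          (algebraMap S B c * x) := by
    intro x hx
    have h4 : IsIntegral (MvPolynomial (Fin d) K) (algebraMap B L x) := hGint _ hx
    obtain ⟨⟨m, hm⟩, h5⟩ := IsIntegral.exists_multiple_integral_of_isLocalization
      (R := MvPolynomial (Fin d) S) ((nonZeroDivisors S).map (C (σ := Fin d))) _ h4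
    obtain ⟨c, hc, rfl⟩ := hm
    refine ⟨c, nonZeroDivisors.ne_zero hc, ?_⟩
    have h6 : (⟨C c, Submonoid.mem_map_of_mem _ hc⟩ : ((nonZeroDivisors S).map (C (σ := Fin d)))) •
        algebraMap B L x = algebraMap B L (algebraMap S B c * x) := by
      rw [Submonoid.mk_smul, Algebra.smul_def, IsScalarTower.algebraMap_apply _ B L, ← map_mul]
      congr 2
      exact (aeval (R := S) β : MvPolynomial (Fin d) S →ₐ[S] B).commutes c
    rw [h6] at h5
    exact (isIntegral_algebraMap_iff (IsFractionRing.injective B L)).mp h5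
  have hx' : ∀ x ∈ s, ∃ c : S, c ≠ 0 ∧
      (aeval (R := S) β : MvPolynomial (Fin d) S →ₐ[S] B).toRingHom.IsIntegralElem
          (algebraMap S B c * x) := fun x hxs =>
    hx x (Algebra.subset_adjoin ⟨x, hxs, rfl⟩)
  choose! e he0 he using hx'
  refine ⟨d, β, ∏ x ∈ s, e x, Finset.prod_ne_zero_iff.mpr fun x hx => he0 x hx, hinj, ?_⟩
  set φ := (aeval (R := S) β : MvPolynomial (Fin d) S →ₐ[S] B).toRingHom with hφ
  set a := ∏ x ∈ s, e x with ha
  have hSint : ∀ c : S, φ.IsIntegralElem (algebraMap S B c) := by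
    intro c
    have : algebraMap S B c = φ (C c) := by
      rw [hφ]
      exact ((aeval (R := S) β : MvPolynomial (Fin d) S →ₐ[S] B).commutes c).symm
    rw [this]
    exact RingHom.isIntegralElem_map φ
  intro x
  have hx1 : x ∈ Algebra.adjoin S (s : Set B) := by rw [hs]; trivial
  induction hx1 using Algebra.adjoin_induction with
  | mem x hx =>
    refine ⟨1, ?_⟩
    rw [pow_one, ha, ← Finset.mul_prod_erase s e hx, map_mul, mul_assoc, mul_comm, mul_assoc,
      mul_comm x]
    exact RingHom.IsIntegralElem.mul _ (hSint _) (he x hx)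
  | algebraMap r => exact ⟨0, by rw [pow_zero, one_mul]; exact hSint r⟩
  | add x y _ _ hx hy =>
    obtain ⟨N, hN⟩ := hx
    obtain ⟨M, hM⟩ := hy
    refine ⟨N + M, ?_⟩
    have : algebraMap S B a ^ (N + M) * (x + y) =
        algebraMap S B (a ^ M) * (algebraMap S B a ^ N * x) +
        algebraMap S B (a ^ N) * (algebraMap S B a ^ M * y) := by
      rw [map_pow, map_pow]; ring
    rw [this]
    exact ((hSint _).mul φ hN).add φ ((hSint _).mul φ hM)
  | mul x y _ _ hx hy =>
    obtain ⟨N, hN⟩ := hx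
    obtain ⟨M, hM⟩ := hy
    refine ⟨N + M, ?_⟩
    have : algebraMap S B a ^ (N + M) * (x * y) =
        (algebraMap S B a ^ N * x) * (algebraMap S B a ^ M * y) := by ring
    rw [this]
    exact hN.mul φ hM

theorem key {S B : Type} [CommRing S] [IsDomain S] [UniqueFactorizationMonoid S] [CommRing B]
    [IsDomain B] [Algebra S B] [FaithfulSMul S B] [Algebra.FiniteType S B] (b : B) (hb : b ≠ 0) :
    ∃ a : S, a ≠ 0 ∧ ∀ (n : Ideal B), n.IsPrime → algebraMap S B a ∉ n →
      ∀ p : Ideal S, p.IsPrime → p ≤ n.comap (algebraMap S B) →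
        ∃ Q : Ideal B, Q.IsPrime ∧ Q ≤ n ∧ p ≤ Q.comap (algebraMap S B) ∧ b ∉ Q := by
  classical
  obtain ⟨d, β, a1, ha1, hinj, hint⟩ := exists_param (S := S) (B := B)
  let _ : Algebra (MvPolynomial (Fin d) S) B :=
    (aeval (R := S) β : MvPolynomial (Fin d) S →ₐ[S] B).toRingHom.toAlgebra
  have hCB : ∀ c : S, algebraMap (MvPolynomial (Fin d) S) B (C c) = algebraMap S B c :=
    fun c => (aeval (R := S) β : MvPolynomial (Fin d) S →ₐ[S] B).commutes c
  have hint' : ∀ x : B, ∃ N : ℕ, IsIntegral (MvPolynomial (Fin d) S)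
      (algebraMap S B a1 ^ N * x) := hint
  have _ : FaithfulSMul (MvPolynomial (Fin d) S) B :=
    (faithfulSMul_iff_algebraMap_injective _ _).mpr hinj
  let B' := integralClosure (MvPolynomial (Fin d) S) B
  have _ : FaithfulSMul (MvPolynomial (Fin d) S) B' := inferInstance
  have _ : Algebra.HasGoingDown (MvPolynomial (Fin d) S) B' := inferInstance
  obtain ⟨N, hN⟩ := hint' b
  have ha1B : algebraMap S B a1 ≠ 0 := by
    rw [Ne, FaithfulSMul.algebraMap_eq_zero_iff]; exact ha1
  let b1 : B' := ⟨algebraMap S B a1 ^ N * b, hN⟩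
  have hb1 : b1 ≠ 0 := by
    intro h
    have := congrArg Subtype.val h
    exact mul_ne_zero (pow_ne_zero N ha1B) hb this
  have hb1alg : IsAlgebraic (MvPolynomial (Fin d) S) b1 :=
    (Algebra.IsIntegral.isIntegral b1).isAlgebraic
  obtain ⟨c, hc, hdvd⟩ := hb1alg.exists_nonzero_dvd (mem_nonZeroDivisors_of_ne_zero hb1)
  obtain ⟨m, hm⟩ := MvPolynomial.ne_zero_iff.mp hc
  refine ⟨a1 * coeff m c, mul_ne_zero ha1 hm, ?_⟩
  intro n hn han p hp hpn
  have ha1n : algebraMap S B a1 ∉ n := fun h => han (by rw [map_mul]; exact n.mul_mem_right _ h)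
  have hcn : algebraMap S B (coeff m c) ∉ n := fun h =>
    han (by rw [map_mul]; exact n.mul_mem_left _ h)
  let n' : Ideal B' := n.comap (algebraMap B' B)
  have hn' : n'.IsPrime := Ideal.comap_isPrime _ _
  let p0 : Ideal (MvPolynomial (Fin d) S) := p.map C
  have hp0 : p0.IsPrime := by
    rw [← Ideal.Quotient.isDomain_iff_prime]
    have : IsDomain (MvPolynomial (Fin d) (S ⧸ p)) := inferInstance
    exact (quotientEquivQuotientMvPolynomial p).symm.toRingEquiv.toMulEquiv.isDomain _
  let a' : B' := algebraMap (MvPolynomial (Fin d) S) B' (C a1)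
  have ha'B : algebraMap B' B a' = algebraMap S B a1 := by
    rw [← hCB a1, IsScalarTower.algebraMap_apply (MvPolynomial (Fin d) S) B' B]
  have hp0n : p0 ≤ n'.under (MvPolynomial (Fin d) S) := by
    rw [Ideal.map_le_iff_le_comap]
    intro x hx
    show algebraMap B' B (algebraMap (MvPolynomial (Fin d) S) B' (C x)) ∈ n
    rw [← IsScalarTower.algebraMap_apply, hCB]
    exact hpn hx
  obtain ⟨Q', hQ'n, hQ', hlies⟩ := Ideal.exists_ideal_le_liesOver_of_le
    (q := n'.under (MvPolynomial (Fin d) S)) n' hp0n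
  have ha'Q : a' ∉ Q' := fun h => ha1n (by rw [← ha'B]; exact hQ'n h)
  have hb1Q : b1 ∉ Q' := by
    intro h
    obtain ⟨r, hr⟩ := hdvd
    have h1 : algebraMap (MvPolynomial (Fin d) S) B' c ∈ Q' := by
      rw [hr]; exact Q'.mul_mem_right _ h
    have h2 : c ∈ p0 := by
      rw [hlies.over]; exact h1
    exact hcn (hpn (mem_map_C_iff.mp h2 m))
  -- extend Q' to B
  have hex : ∀ x ∈ Q'.map (algebraMap B' B), ∃ N : ℕ, ∃ w ∈ Q', algebraMap B' B w =
      algebraMap S B a1 ^ N * x := by
    intro x hx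
    induction hx using Submodule.span_induction with
    | mem x hx =>
      obtain ⟨w, hw, rfl⟩ := hx
      exact ⟨0, w, hw, by rw [pow_zero, one_mul]⟩
    | zero => exact ⟨0, 0, Q'.zero_mem, by simp⟩
    | add x y _ _ hx hy =>
      obtain ⟨N, w, hw, hwx⟩ := hx
      obtain ⟨M, v, hv, hvy⟩ := hy
      refine ⟨N + M, a' ^ M * w + a' ^ N * v, Q'.add_mem (Q'.mul_mem_left _ hw)
        (Q'.mul_mem_left _ hv), ?_⟩
      rw [map_add, map_mul, map_mul, map_pow, map_pow, ha'B, hwx, hvy]
      ring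
    | smul r x _ hx =>
      obtain ⟨N, w, hw, hwx⟩ := hx
      obtain ⟨M, hM⟩ := hint' r
      refine ⟨M + N, (⟨_, hM⟩ : B') * w, Q'.mul_mem_left _ hw, ?_⟩
      rw [map_mul, hwx, smul_eq_mul]
      show (algebraMap S B a1 ^ M * r) * (algebraMap S B a1 ^ N * x) = _
      ring
  obtain ⟨Q, hQ, hQc⟩ := (Ideal.comap_map_eq_self_iff_of_isPrime (f := algebraMap B' B) Q').mp (by
    apply le_antisymm _ Ideal.le_comap_map
    intro w hw
    obtain ⟨N, v, hv, hvw⟩ := hex _ hw
    have h1 : v = a' ^ N * w := by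
      apply FaithfulSMul.algebraMap_injective B' B
      rw [hvw, map_mul, map_pow, ha'B]
    rw [h1] at hv
    exact (hQ'.mem_or_mem hv).resolve_left fun h => ha'Q (hQ'.mem_of_pow_mem _ h))
  refine ⟨Q, hQ, ?_, ?_, ?_⟩
  · intro x hx
    obtain ⟨N, hN⟩ := hint' x
    have h1 : (⟨_, hN⟩ : B') ∈ Q' := by
      rw [← hQc]
      exact Q.mul_mem_left _ hx
    have h2 := hQ'n h1
    exact (hn.mem_or_mem (show algebraMap S B a1 ^ N * x ∈ n from h2)).resolve_left
      fun h => ha1n (hn.mem_of_pow_mem _ h)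
  · intro x hx
    show algebraMap S B x ∈ Q
    have h1 : C x ∈ p0 := Ideal.mem_map_of_mem _ hx
    rw [hlies.over] at h1
    have h2 : algebraMap (MvPolynomial (Fin d) S) B' (C x) ∈ Q.comap (algebraMap B' B) := by
      rw [hQc]; exact h1
    have h3 : algebraMap B' B (algebraMap (MvPolynomial (Fin d) S) B' (C x)) ∈ Q := h2
    rwa [← IsScalarTower.algebraMap_apply, hCB] at h3
  · intro h
    apply hb1Q
    rw [← hQc]
    exact Q.mul_mem_left _ h

theorem aev {σ : Type} (y : σ → ℂ) (x : MvPolynomial σ ℂ) : aeval y x = eval y x := by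
  rw [← coe_aeval_eq_eval]; rfl

theorem generic_density {σ τ : Type} [Finite σ] [Finite τ] (I : Ideal (MvPolynomial σ ℂ))
    [I.IsPrime] (ψ : τ → MvPolynomial σ ℂ) (b : MvPolynomial σ ℂ) (hb : b ∉ I) :
    ∃ a : MvPolynomial τ ℂ, aeval ψ a ∉ I ∧ ∀ y ∈ zeroLocus ℂ I,
      eval (fun t => eval y (ψ t)) a ≠ 0 → ∀ q : MvPolynomial σ ℂ, eval y q ≠ 0 →
        ∃ y' ∈ zeroLocus ℂ I, (∀ t, eval y' (ψ t) = eval y (ψ t)) ∧ eval y' q ≠ 0 ∧
          eval y' b ≠ 0 := by
  classical
  let B := MvPolynomial σ ℂ ⧸ I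
  have hdomB : IsDomain B := inferInstance
  have hftB : Algebra.FiniteType ℂ B := inferInstance
  let π : MvPolynomial σ ℂ →ₐ[ℂ] B := Ideal.Quotient.mkₐ ℂ I
  have hπ0 : ∀ x, π x = 0 ↔ x ∈ I := fun x => Ideal.Quotient.eq_zero_iff_mem
  let φ : MvPolynomial τ ℂ →ₐ[ℂ] B := π.comp (aeval ψ)
  let A : Subalgebra ℂ B := φ.range
  have hftA : Algebra.FiniteType ℂ A :=
    Algebra.FiniteType.of_surjective φ.rangeRestrict φ.rangeRestrict_surjective
  obtain ⟨k, g, hg, hgfin⟩ := exists_finite_inj_algHom_of_fg ℂ A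
  let _ : Algebra (MvPolynomial (Fin k) ℂ) A := g.toRingHom.toAlgebra
  let _ : Algebra (MvPolynomial (Fin k) ℂ) B := (A.val.comp g).toRingHom.toAlgebra
  have t1 : IsScalarTower ℂ (MvPolynomial (Fin k) ℂ) B :=
    IsScalarTower.of_algebraMap_eq fun x => ((A.val.comp g).commutes x).symm
  have hft : Algebra.FiniteType (MvPolynomial (Fin k) ℂ) B :=
    Algebra.FiniteType.of_restrictScalars_finiteType ℂ _ B
  have hfaith : FaithfulSMul (MvPolynomial (Fin k) ℂ) B :=
    (faithfulSMul_iff_algebraMap_injective _ _).mpr (Subtype.val_injective.comp hg)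
  have hintA : Algebra.IsIntegral (MvPolynomial (Fin k) ℂ) A :=
    ⟨fun x => RingHom.IsIntegral.of_finite hgfin x⟩
  obtain ⟨a0, ha0, hkey⟩ := key (S := MvPolynomial (Fin k) ℂ) (π b) (fun h => hb ((hπ0 b).mp h))
  obtain ⟨a, ha⟩ := (g a0).2
  have ha' : φ a = algebraMap (MvPolynomial (Fin k) ℂ) B a0 := ha
  refine ⟨a, ?_, ?_⟩
  · intro h
    have h1 : φ a = 0 := (hπ0 _).mpr h
    rw [ha', FaithfulSMul.algebraMap_eq_zero_iff] at h1
    exact ha0 h1
  intro y hy hay q hq
  let ev : B →ₐ[ℂ] ℂ := Ideal.Quotient.liftₐ I (aeval y) (fun x hx => by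
    have := hy x hx
    simpa using this)
  have hev : ∀ x, ev (π x) = eval y x := fun x => by
    exact aev y x
  have hevφ : ∀ x, ev (φ x) = eval (fun t => eval y (ψ t)) x := fun x => by
    show ev (π (aeval ψ x)) = _
    rw [hev, ← aev, ← aev, ← AlgHom.comp_apply]
    congr 1
    ext t
    simp
  let n : Ideal B := RingHom.ker ev.toRingHom
  have hn : n.IsPrime := RingHom.ker_isPrime _
  have hmn : ∀ x, x ∈ n ↔ ev x = 0 := fun x => Iff.rfl
  have hSev : ∀ s : MvPolynomial (Fin k) ℂ, ∀ c : ℂ, (algebraMap (MvPolynomial (Fin k) ℂ) B (C c))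
      = algebraMap ℂ B c := fun s c => (A.val.comp g).commutes c
  have han : algebraMap (MvPolynomial (Fin k) ℂ) B a0 ∉ n := by
    rw [← ha', hmn, hevφ]
    exact hay
  let p : Ideal (MvPolynomial (Fin k) ℂ) := n.comap (algebraMap _ B)
  have hpmax : p.IsMaximal := by
    have : p = RingHom.ker (ev.comp (A.val.comp g)).toRingHom := rfl
    rw [this]
    exact RingHom.ker_isMaximal_of_surjective _ (fun c => ⟨C c, (ev.comp (A.val.comp g)).commutes c⟩)
  obtain ⟨Q, hQ, hQn, hpQ, hbQ⟩ := hkey n hn han p hpmax.isPrime le_rfl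
  have hqQ : π q ∉ Q := fun h => hq (by
    have := hQn h
    rwa [hmn, hev] at this)
  -- Q ∩ A = n ∩ A
  have hQA : Q.comap (algebraMap A B) = n.comap (algebraMap A B) := by
    have h1 : (Q.comap (algebraMap A B)).IsPrime := Ideal.comap_isPrime _ _
    have h2 : (Q.comap (algebraMap A B)).comap (algebraMap (MvPolynomial (Fin k) ℂ) A) = p := by
      symm
      apply hpmax.eq_of_le
      · exact (Ideal.comap_isPrime _ _).ne_top
      · exact hpQ
    have h3 : (Q.comap (algebraMap A B)).IsMaximal :=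
      Ideal.isMaximal_of_isIntegral_of_isMaximal_comap (R := MvPolynomial (Fin k) ℂ) _
        (by rw [h2]; exact hpmax)
    apply h3.eq_of_le
    · exact (Ideal.comap_isPrime _ _).ne_top
    · exact Ideal.comap_mono hQn
  -- a maximal ideal above Q
  have hJ : IsJacobsonRing B := inferInstance
  have hbq : π b * π q ∉ Q := fun h => (hQ.mem_or_mem h).elim hbQ hqQ
  have hjac : Q.jacobson = Q := (isJacobsonRing_iff.mp hJ) Q hQ.isRadical
  have : ∃ M : Ideal B, M.IsMaximal ∧ Q ≤ M ∧ π b * π q ∉ M := by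
    by_contra hcon
    push Not at hcon
    apply (fun h : π b * π q ∉ Q => h)
    · exact fun h => (hQ.mem_or_mem h).elim hbQ hqQ
    · rw [← hjac, Ideal.jacobson, Ideal.mem_sInf]
      rintro M ⟨hM1, hM2⟩
      exact hcon M hM2 hM1
  obtain ⟨M, hM, hQM, hbqM⟩ := this
  have hM' : (M.comap π.toRingHom).IsMaximal :=
    Ideal.comap_isMaximal_of_surjective π.toRingHom (Ideal.Quotient.mkₐ_surjective ℂ I)
  obtain ⟨y', hy'⟩ := (isMaximal_iff_eq_vanishingIdeal_singleton).mp hM'
  have hmem : ∀ x, π x ∈ M ↔ eval y' x = 0 := by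
    intro x
    have : π x ∈ M ↔ x ∈ M.comap π.toRingHom := Iff.rfl
    rw [this, hy', mem_vanishingIdeal_singleton_iff, aev]
  refine ⟨y', ?_, ?_, ?_, ?_⟩
  · intro x hx
    rw [aev]
    exact (hmem x).mp (by rw [(hπ0 x).mpr hx]; exact M.zero_mem)
  · intro t
    have h1 : (φ (X t - C (eval y (ψ t)))) ∈ n := by
      rw [hmn, hevφ]; simp
    have h2 : (⟨φ (X t - C (eval y (ψ t))), ⟨_, rfl⟩⟩ : A) ∈ n.comap (algebraMap A B) := h1
    rw [← hQA] at h2
    have h3 : π (aeval ψ (X t - C (eval y (ψ t)))) ∈ M := hQM h2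
    rw [hmem] at h3
    simpa [sub_eq_zero] using h3
  · intro h
    exact hbqM (M.mul_mem_left _ ((hmem q).mpr h))
  · intro h
    exact hbqM (M.mul_mem_right _ ((hmem b).mpr h))

end Pool.Agent.H54.GenericDensity
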