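import Pool.Agent.H54.NFMain

/-!
# Extension of derivations to fraction fields, and the two derivations of `k(u)(v)`
-/

open Polynomial

namespace Pool.Agent.H48.SymDP

section extend

variable {k A L : Type*} [Field k] [CommRing A] [IsDomain A] [Field L] [Algebra A L]
  [IsFractionRing A L] [Algebra k A] [Algebra k L] [IsScalarTower k A L]

/-- `a ↦ a + ε d a` as a ring homomorphism to the dual numbers. -/
noncomputable def dualHom (d : Derivation k A L) : A →+* TrivSqZeroExt L L where
  toFun a := TrivSqZeroExt.inl (algebraMap A L a) + TrivSqZeroExt.inr (d a)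
  map_one' := by
    ext <;> simp
  map_mul' a b := by
    ext
    · simp
    · simp only [map_mul, Derivation.leibniz, TrivSqZeroExt.snd_add, TrivSqZeroExt.snd_inl,
        TrivSqZeroExt.snd_inr, TrivSqZeroExt.snd_mul, TrivSqZeroExt.fst_add,
        TrivSqZeroExt.fst_inl, TrivSqZeroExt.fst_inr, Algebra.smul_def, zero_add, add_zero,
        MulOpposite.smul_eq_mul_unop, MulOpposite.unop_op, Algebra.algebraMap_self, RingHom.id_apply]
      ring
  map_zero' := by
    ext <;> simp
  map_add' a b := by
    ext <;> simp

lemma dualHom_isUnit (d : Derivation k A L) (y : nonZeroDivisors A) :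
    IsUnit (dualHom d y) := by
  rw [TrivSqZeroExt.isUnit_iff_isUnit_fst]
  have : (dualHom d y).fst = algebraMap A L y := by simp [dualHom]
  rw [this, isUnit_iff_ne_zero]
  exact IsFractionRing.to_map_ne_zero_of_mem_nonZeroDivisors y.2

/-- The extension to the fraction field. -/
noncomputable def liftHom (d : Derivation k A L) : L →+* TrivSqZeroExt L L :=
  IsLocalization.lift (M := nonZeroDivisors A) (dualHom_isUnit d)

lemma liftHom_algebraMap (d : Derivation k A L) (a : A) :
    liftHom d (algebraMap A L a) = TrivSqZeroExt.inl (algebraMap A L a) +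
      TrivSqZeroExt.inr (d a) := by
  unfold liftHom
  rw [IsLocalization.lift_eq]
  rfl

lemma fst_liftHom (d : Derivation k A L) (f : L) : (liftHom d f).fst = f := by
  have h : (TrivSqZeroExt.fstHom L L L).toRingHom.comp (liftHom d) = RingHom.id L := by
    refine IsLocalization.ringHom_ext (nonZeroDivisors A) ?_
    ext a
    simp [liftHom_algebraMap]
  exact RingHom.congr_fun h f

/-- Extension of a derivation to the fraction field. -/
noncomputable def extendDer (d : Derivation k A L) : Derivation k L L :=
  Derivation.mk'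
    { toFun := fun f => (liftHom d f).snd
      map_add' := by intro f g; simp
      map_smul' := by
        intro c f
        have h1 : liftHom d (algebraMap k L c) = TrivSqZeroExt.inl (algebraMap k L c) := by
          rw [IsScalarTower.algebraMap_apply k A L, liftHom_algebraMap, d.map_algebraMap]
          simp
        simp only [Algebra.smul_def, map_mul, h1, TrivSqZeroExt.snd_mul, TrivSqZeroExt.fst_inl,
          TrivSqZeroExt.snd_inl, smul_zero, add_zero, Algebra.algebraMap_self, RingHom.id_apply] }
    (by
      intro f g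
      simp only [LinearMap.coe_mk, AddHom.coe_mk, map_mul, TrivSqZeroExt.snd_mul, fst_liftHom,
        smul_eq_mul, MulOpposite.smul_eq_mul_unop, MulOpposite.unop_op]
      ring)

lemma extendDer_algebraMap (d : Derivation k A L) (a : A) :
    extendDer d (algebraMap A L a) = d a := by
  change (liftHom d (algebraMap A L a)).snd = d a
  rw [liftHom_algebraMap]
  simp

end extend

section ratfunc

variable (k : Type) [Field k]

/-- `d/du` on `k(u)`. -/
noncomputable def dF : Derivation k (RatFunc k) (RatFunc k) :=
  extendDer (A := k[X]) ((Algebra.linearMap k[X] (RatFunc k)).compDer derivative')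

lemma dF_X : dF k RatFunc.X = 1 := by
  have h : (RatFunc.X : RatFunc k) = algebraMap k[X] (RatFunc k) X := by simp
  rw [h]
  unfold dF
  rw [extendDer_algebraMap]
  simp

/-- coefficientwise `d/du` on `k(u)[v]`. -/
noncomputable def dFX : Derivation k (RatFunc k)[X] (RatFunc k)[X] :=
  PolynomialModule.equivPolynomialSelf.compDer (dF k).mapCoeffs

lemma coeff_dFX (p : (RatFunc k)[X]) (n : ℕ) : (dFX k p).coeff n = dF k (p.coeff n) := rfl

lemma natDegree_dFX_le (p : (RatFunc k)[X]) : (dFX k p).natDegree ≤ p.natDegree := by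
  rw [natDegree_le_iff_coeff_eq_zero]
  intro n hn
  rw [coeff_dFX, coeff_eq_zero_of_natDegree_lt hn, map_zero]

/-- `∂/∂u` on `k(u)(v)`. -/
noncomputable def Du : Derivation k (RatFunc (RatFunc k)) (RatFunc (RatFunc k)) :=
  extendDer (A := (RatFunc k)[X])
    ((Algebra.linearMap (RatFunc k)[X] (RatFunc (RatFunc k))).compDer (dFX k))

/-- `∂/∂v` on `k(u)(v)`. -/
noncomputable def Dv : Derivation k (RatFunc (RatFunc k)) (RatFunc (RatFunc k)) :=
  extendDer (A := (RatFunc k)[X])
    ((Algebra.linearMap (RatFunc k)[X] (RatFunc (RatFunc k))).compDer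
      (derivative'.restrictScalars k))

lemma Du_algebraMap (p : (RatFunc k)[X]) :
    Du k (algebraMap _ _ p) = algebraMap _ _ (dFX k p) := by
  unfold Du
  rw [extendDer_algebraMap]
  rfl

lemma Dv_algebraMap (p : (RatFunc k)[X]) :
    Dv k (algebraMap _ _ p) = algebraMap _ _ (derivative p) := by
  unfold Dv
  rw [extendDer_algebraMap]
  rfl

lemma Du_u : Du k (RatFunc.C RatFunc.X) = 1 := by
  have h : (RatFunc.C (RatFunc.X : RatFunc k)) =
      algebraMap (RatFunc k)[X] (RatFunc (RatFunc k)) (C RatFunc.X) := by simp
  rw [h, Du_algebraMap]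
  have : dFX k (C RatFunc.X) = 1 := by
    ext n
    rw [coeff_dFX, coeff_C, coeff_one]
    split_ifs
    · exact dF_X k
    · exact map_zero _
  rw [this, map_one]

lemma Du_v : Du k RatFunc.X = 0 := by
  have h : (RatFunc.X : RatFunc (RatFunc k)) = algebraMap (RatFunc k)[X] _ X := by simp
  rw [h, Du_algebraMap]
  have : dFX k X = 0 := by
    ext n
    rw [coeff_dFX, coeff_X]
    split_ifs <;> simp
  rw [this, map_zero]

lemma Dv_u : Dv k (RatFunc.C RatFunc.X) = 0 := by
  have h : (RatFunc.C (RatFunc.X : RatFunc k)) =
      algebraMap (RatFunc k)[X] (RatFunc (RatFunc k)) (C RatFunc.X) := by simp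
  rw [h, Dv_algebraMap]
  simp

lemma Dv_v : Dv k RatFunc.X = 1 := by
  have h : (RatFunc.X : RatFunc (RatFunc k)) = algebraMap (RatFunc k)[X] _ X := by simp
  rw [h, Dv_algebraMap]
  simp

end ratfunc

end Pool.Agent.H48.SymDP
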