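import Pool.Agent.H54.NFOrd

/-!
# Local analysis for the Noether-Fano inequality
-/

open Polynomial

namespace Pool.Agent.H48.SymDP

section chain

variable {k : Type*} [Field k] {L : Type*} [Field L] [Algebra k L]

/-- The Jacobian determinant of `f, g` with respect to two derivations. -/
noncomputable def Jac (D₁ D₂ : Derivation k L L) (f g : L) : L := D₁ f * D₂ g - D₂ f * D₁ g

variable (D₁ D₂ : Derivation k L L)

lemma Jac_self (f : L) : Jac D₁ D₂ f f = 0 := by
  unfold Jac; ring

lemma Jac_swap (f g : L) : Jac D₁ D₂ f g = - Jac D₁ D₂ g f := by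
  unfold Jac; ring

lemma Jac_sub_const (f g : L) (c : k) : Jac D₁ D₂ (f - algebraMap k L c) g = Jac D₁ D₂ f g := by
  simp [Jac]

lemma Jac_sub_const' (f g : L) (c : k) : Jac D₁ D₂ f (g - algebraMap k L c) = Jac D₁ D₂ f g := by
  simp [Jac]

/-- `J(x, ·)` as a derivation. -/
noncomputable def JD (x : L) : Derivation k L L := D₁ x • D₂ - D₂ x • D₁

lemma JD_apply (x f : L) : JD D₁ D₂ x f = Jac D₁ D₂ x f := by
  simp [JD, Jac]

/-- Coefficientwise derivative. -/
noncomputable def dX (q : k[X][X]) : k[X][X] := q.sum fun i a => monomial i (derivative a)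

lemma dX_add (p q : k[X][X]) : dX (p + q) = dX p + dX q := by
  unfold dX
  exact Polynomial.sum_add_index p q _ (by simp) (by intro i a b; simp)

lemma dX_monomial (n : ℕ) (a : k[X]) : dX (monomial n a) = monomial n (derivative a) := by
  unfold dX
  exact Polynomial.sum_monomial_index a _ (by simp)

lemma coeff_dX (q : k[X][X]) (n : ℕ) : (dX q).coeff n = derivative (q.coeff n) := by
  induction q using Polynomial.induction_on' with
  | add p q hp hq => rw [dX_add, coeff_add, coeff_add, derivative_add, hp, hq]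
  | monomial i a =>
    rw [dX_monomial, coeff_monomial, coeff_monomial]
    split_ifs <;> simp

lemma der_aeval (D : Derivation k L L) (x : L) (h : k[X]) :
    D (aeval x h) = aeval x (derivative h) * D x := by
  rw [D.map_aeval]
  rfl

lemma der_ev (D : Derivation k L L) (x w : L) (q : k[X][X]) :
    D (ev x w q) = ev x w (dX q) * D x + ev x w (derivative q) * D w := by
  induction q using Polynomial.induction_on' with
  | add p q hp hq =>
    rw [map_add, map_add, hp, hq, dX_add, derivative_add, map_add, map_add]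
    ring
  | monomial n a =>
    rw [dX_monomial, derivative_monomial]
    simp only [← C_mul_X_pow_eq_monomial, map_mul, map_pow, ev_C, ev_X]
    rw [D.leibniz, D.leibniz_pow, der_aeval]
    simp only [smul_eq_mul, nsmul_eq_mul, map_natCast]
    ring

lemma Jac_ev_right (x w : L) (q : k[X][X]) :
    Jac D₁ D₂ x (ev x w q) = ev x w (derivative q) * Jac D₁ D₂ x w := by
  unfold Jac
  rw [der_ev D₁, der_ev D₂]
  ring

lemma Jac_ev_left (x w : L) (q : k[X][X]) :
    Jac D₁ D₂ (ev x w q) w = ev x w (dX q) * Jac D₁ D₂ x w := by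
  unfold Jac
  rw [der_ev D₁, der_ev D₂]
  ring

lemma Jac_inv_right (x : L) {w : L} (hw : w ≠ 0) :
    Jac D₁ D₂ x w⁻¹ = - (Jac D₁ D₂ x w / w ^ 2) := by
  unfold Jac
  rw [D₁.leibniz_inv, D₂.leibniz_inv]
  simp only [smul_eq_mul]
  field_simp
  ring

lemma ev_sh (p q : L) (x₀ c : k) (B : k[X][X]) :
    ev p q (sh x₀ c B) = ev (p + algebraMap k L x₀) (q + algebraMap k L c) B := by
  induction B using Polynomial.induction_on' with
  | add A B hA hB =>
    have : sh x₀ c (A + B) = sh x₀ c A + sh x₀ c B := by simp [sh]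
    rw [this, map_add, map_add, hA, hB]
  | monomial n a =>
    have : sh x₀ c (monomial n a) = C (a.comp (X + C x₀)) * (X + C (C c)) ^ n := by
      simp [sh]
    rw [this, ← C_mul_X_pow_eq_monomial]
    simp [aeval_comp]

lemma ev_divX (x w : L) (q : k[X][X]) :
    ev x w q = aeval x (q.coeff 0) + w * ev x w q.divX := by
  conv_lhs => rw [← divX_mul_X_add q]
  rw [map_add, map_mul, ev_X, ev_C]
  ring

lemma aeval_divX (x : L) (h : k[X]) :
    aeval x h = algebraMap k L (h.coeff 0) + x * aeval x h.divX := by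
  conv_lhs => rw [← divX_mul_X_add h]
  rw [map_add, map_mul, aeval_X, aeval_C]
  ring

lemma ev_reflect (x : L) {w : L} (hw : w ≠ 0) (N : ℕ) (q : k[X][X]) (hq : q.natDegree ≤ N) :
    ev x w q = w ^ N * ev x w⁻¹ (q.reflect N) := by
  let _ : Invertible w := invertibleOfNonzero hw
  have h := eval₂_reflect_mul_pow ((aeval x : k[X] →ₐ[k] L) : k[X] →+* L) w N q hq
  rw [invOf_eq_inv] at h
  rw [mul_comm]
  exact h.symm

end chain

section place

variable {k : Type*} [Field k] {F L : Type*} [Field F] [Field L] [Algebra F L]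
  [Algebra k F] [Algebra k L] [IsScalarTower k F L]

/-- A place at which the Jacobian determinant is controlled. -/
structure JPlace (D₁ D₂ : Derivation k L L) (E : PL F L) (cst : ℤ) : Prop where
  nontriv : ∃ π : L, π ≠ 0 ∧ 1 ≤ E.ord π
  jac : ∀ (a b : ℤ) (f g : L), E.ge a f → E.ge b g → E.ge (a + b - 1 + cst) (Jac D₁ D₂ f g)

variable {D₁ D₂ : Derivation k L L} {E : PL F L} {cst : ℤ} (hE : JPlace D₁ D₂ E cst)

include hE

lemma JPlace.div_ge {n : ℤ} {a b : L} (hb : b ≠ 0) (h : E.ge n (a * b)) :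
    E.ge (n - E.ord b) a := by
  by_cases ha : a = 0
  · exact Or.inl ha
  have := E.le_of_ge h (mul_ne_zero ha hb)
  rw [E.ord_mul ha hb] at this
  exact Or.inr (by omega)

lemma JPlace.T2 [CharZero k] {p q : L} (hp : E.ge 1 p) (hq : E.ge 1 q)
    (hJ0 : Jac D₁ D₂ p q ≠ 0) :
    ∀ (m : ℕ) (C : k[X][X]), E.ge (m * (E.ord (Jac D₁ D₂ p q) - cst) + 1) (ev p q C) →
      ∀ a b, a + b ≤ m → (C.coeff b).coeff a = 0 := by
  have hp0 : E.ge 0 p := E.ge_mono (by norm_num) hp
  have hq0 : E.ge 0 q := E.ge_mono (by norm_num) hq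
  set a₀ := E.ord (Jac D₁ D₂ p q) - cst with ha₀
  have ha₁ : 1 ≤ a₀ := by
    have := E.le_of_ge (hE.jac 1 1 p q hp hq) hJ0
    omega
  have hc00 : ∀ C : k[X][X], E.ge 1 (ev p q C) → (C.coeff 0).coeff 0 = 0 := by
    intro C hC
    refine E.const_eq_zero ?_
    have h1 := ev_divX p q C
    rw [aeval_divX p (C.coeff 0)] at h1
    have h2 : algebraMap k L ((C.coeff 0).coeff 0) =
        ev p q C - (p * aeval p (C.coeff 0).divX) - q * ev p q C.divX := by
      rw [h1]; ring
    rw [h2]
    refine E.ge_sub (E.ge_sub hC ?_) ?_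
    · simpa using E.ge_mul hp (E.ge_aeval hp0 (C.coeff 0).divX)
    · simpa using E.ge_mul hq (E.ge_ev hp0 hq0 C.divX)
  intro m
  induction m with
  | zero =>
    intro C hC a b hab
    obtain ⟨rfl, rfl⟩ : a = 0 ∧ b = 0 := by omega
    exact hc00 C (by simpa using hC)
  | succ m ih =>
    intro C hC a b hab
    have hpos : (0 : ℤ) ≤ (m + 1 : ℕ) * a₀ := by positivity
    -- derivative with respect to the first variable
    have h1 : E.ge (m * a₀ + 1) (ev p q (dX C)) := by
      have := hE.jac _ 1 _ _ hC hq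
      rw [Jac_ev_left] at this
      refine E.ge_mono ?_ (hE.div_ge hJ0 this)
      have : ((m + 1 : ℕ) : ℤ) * a₀ = m * a₀ + a₀ := by push_cast; ring
      rw [this]
      omega
    have h2 : E.ge (m * a₀ + 1) (ev p q (derivative C)) := by
      have := hE.jac 1 _ _ _ hp hC
      rw [Jac_ev_right] at this
      refine E.ge_mono ?_ (hE.div_ge hJ0 this)
      have : ((m + 1 : ℕ) : ℤ) * a₀ = m * a₀ + a₀ := by push_cast; ring
      rw [this]
      omega
    rcases Nat.eq_zero_or_pos a with ha | ha
    · rcases Nat.eq_zero_or_pos b with hb | hb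
      · subst ha hb
        exact hc00 C (E.ge_mono (by omega) hC)
      · obtain ⟨b, rfl⟩ : ∃ b', b = b' + 1 := ⟨b - 1, by omega⟩
        have := ih (derivative C) h2 a b (by omega)
        rw [coeff_derivative] at this
        have h3 : ((b : k[X]) + 1) = Polynomial.C ((b : k) + 1) := by simp
        rw [h3, coeff_mul_C] at this
        rcases mul_eq_zero.mp this with h | h
        · exact h
        · exact absurd h (Nat.cast_add_one_ne_zero b)
    · obtain ⟨a, rfl⟩ : ∃ a', a = a' + 1 := ⟨a - 1, by omega⟩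
      have := ih (dX C) h1 a b (by omega)
      rw [coeff_dX, coeff_derivative] at this
      rcases mul_eq_zero.mp this with h | h
      · exact h
      · exact absurd h (Nat.cast_add_one_ne_zero a)

/-- The local inequality at a place over `x = x₀`. -/
lemma JPlace.core [CharZero k] [IsAlgClosed k] {x w : L} {x₀ : k} {B : Fin 2 → k[X][X]} {m : ℕ}
    (hB : GoodFibre B m x₀) (hx : E.ge 1 (x - algebraMap k L x₀)) (hJ : Jac D₁ D₂ x w ≠ 0)
    {α : ℤ} (hB0 : ∀ i, ev x w (B i) ≠ 0) (hα : ∀ i, E.ord (ev x w (B i)) = α) :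
    α ≤ m * (E.ord (Jac D₁ D₂ x w) - cst) := by
  have hx0 : E.ge 0 x := by
    have := E.ge_add (E.ge_mono (by norm_num : (0:ℤ) ≤ 1) hx) (E.ge_const x₀)
    simpa using this
  have hw0 : w ≠ 0 := by
    rintro rfl
    exact hJ (by simp [Jac])
  -- the key consequence of T2
  have key : ∀ (q : L) (c : k), E.ge 1 (q - algebraMap k L c) → Jac D₁ D₂ x q ≠ 0 →
      ∀ A : k[X][X], ∀ a b, a + b ≤ m → ((sh x₀ c A).coeff b).coeff a ≠ 0 → ev x q A ≠ 0 →
      E.ord (ev x q A) ≤ m * (E.ord (Jac D₁ D₂ x q) - cst) := by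
    intro q c hq hJq A a b hab hA hA0
    have h1 := hE.T2 (p := x - algebraMap k L x₀) (q := q - algebraMap k L c) hx hq
      (by rw [Jac_sub_const, Jac_sub_const']; exact hJq) m (sh x₀ c A)
    rw [ev_sh, sub_add_cancel, sub_add_cancel, Jac_sub_const, Jac_sub_const'] at h1
    by_contra h2
    exact hA (h1 (E.ge_of_le (by omega)) a b hab)
  by_cases hw : 0 ≤ E.ord w
  · have hw' : E.ge 0 w := E.ge_of_le hw
    by_cases hc : ∃ c : k, E.ge 1 (w - algebraMap k L c)
    · obtain ⟨c, hc⟩ := hc
      obtain ⟨i, a, b, hab, hcoef⟩ := hB.point c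
      have := key w c hc hJ (B i) a b hab hcoef (hB0 i)
      rwa [hα i] at this
    · have hne : ∀ c : k, w - algebraMap k L c ≠ 0 := by
        intro c h
        exact hc ⟨c, Or.inl h⟩
      have hord : ∀ c : k, E.ord (w - algebraMap k L c) = 0 := by
        intro c
        have h1 := E.le_of_ge (E.ge_sub hw' (E.ge_const c)) (hne c)
        by_contra h2
        exact hc ⟨c, E.ge_of_le (by omega)⟩
      obtain ⟨i, hi⟩ := hB.content
      obtain ⟨h1, h2⟩ := E.ord_aeval_of_forall hne hord hi
      have h3 : ∀ A : k[X][X], E.ge 1 (ev x w A - aeval w (A.map (evalRingHom x₀))) := by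
        intro A
        induction A using Polynomial.induction_on' with
        | add P Q hP hQ =>
          rw [map_add, Polynomial.map_add, map_add]
          have : ev x w P + ev x w Q - (aeval w (P.map (evalRingHom x₀)) +
              aeval w (Q.map (evalRingHom x₀))) = (ev x w P - aeval w (P.map (evalRingHom x₀))) +
              (ev x w Q - aeval w (Q.map (evalRingHom x₀))) := by ring
          rw [this]
          exact E.ge_add hP hQ
        | monomial n a =>
          rw [← C_mul_X_pow_eq_monomial]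
          simp only [map_mul, map_pow, ev_C, ev_X, Polynomial.map_mul, Polynomial.map_pow, map_C,
            map_X, aeval_C, aeval_X, coe_evalRingHom]
          rw [← sub_mul]
          have h4 : E.ge 1 (aeval x a - algebraMap k L (a.eval x₀)) := by
            obtain ⟨g, hg⟩ : X - Polynomial.C x₀ ∣ a - Polynomial.C (a.eval x₀) := by
              rw [dvd_iff_isRoot]
              simp
            have h5 : aeval x a - algebraMap k L (a.eval x₀) =
                (x - algebraMap k L x₀) * aeval x g := by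
              have := congrArg (aeval x) hg
              simpa using this
            rw [h5]
            simpa using E.ge_mul hx (E.ge_aeval hx0 g)
          simpa using E.ge_mul h4 (E.ge_pow hw' n)
      obtain ⟨-, h4⟩ := E.ord_add_eq (n := 0) h1 h2 (by simpa using h3 (B i))
      have h5 : α = 0 := by
        rw [← hα i, ← h4]
        congr 1
        ring
      have h6 : cst ≤ E.ord (Jac D₁ D₂ x w) := by
        have := hE.jac 1 0 _ _ hx hw'
        rw [Jac_sub_const] at this
        have := E.le_of_ge this hJ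
        omega
      rw [h5]
      have : (0:ℤ) ≤ E.ord (Jac D₁ D₂ x w) - cst := by omega
      positivity
  · have hw1 : E.ord w⁻¹ = - E.ord w := E.ord_inv hw0
    have hws : E.ge 1 (w⁻¹ - algebraMap k L 0) := by
      rw [map_zero, sub_zero]
      exact E.ge_of_le (by omega)
    have hJs : Jac D₁ D₂ x w⁻¹ ≠ 0 := by
      rw [Jac_inv_right _ _ _ hw0]
      exact neg_ne_zero.mpr (div_ne_zero hJ (pow_ne_zero 2 hw0))
    have hJord : E.ord (Jac D₁ D₂ x w⁻¹) = E.ord (Jac D₁ D₂ x w) - 2 * E.ord w := by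
      rw [Jac_inv_right _ _ _ hw0, E.ord_neg, E.ord_div hJ (pow_ne_zero 2 hw0), E.ord_pow hw0]
      push_cast
      ring
    obtain ⟨i, a, b, hab, hcoef⟩ := hB.point_inf
    have h1 := ev_reflect x hw0 (2 * m) (B i) (hB.natDegree_le i)
    have h2 : ev x w⁻¹ ((B i).reflect (2 * m)) ≠ 0 := by
      intro h
      rw [h, mul_zero] at h1
      exact hB0 i h1
    have h3 := key w⁻¹ 0 hws hJs _ a b hab hcoef h2
    have h4 := congrArg E.ord h1
    rw [E.ord_mul (pow_ne_zero _ hw0) h2, hα i, E.ord_pow hw0] at h4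
    rw [hJord] at h3
    have h5 : (m : ℤ) * (E.ord (Jac D₁ D₂ x w) - 2 * E.ord w - cst) =
      m * (E.ord (Jac D₁ D₂ x w) - cst) - (2 * m : ℕ) * E.ord w := by push_cast; ring
    rw [h5] at h3
    omega

/-- The local inequality at a place which is trivial on `k(x)`. -/
lemma JPlace.horizontal [CharZero k] [IsAlgClosed k] {x w : L}
    (hgen : IntermediateField.adjoin k {x, w} = ⊤) {A : Fin 2 → k[X][X]} {m : ℕ}
    (hdeg : ∀ i, (A i).natDegree ≤ 2 * m) (htop : ∃ i, (A i).coeff (2 * m) ≠ 0)
    (hbez : ∃ (C₀ C₁ : k[X][X]) (R : k[X]), R ≠ 0 ∧ C₀ * A 0 + C₁ * A 1 = C R)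
    (hxne : ∀ c : k, x - algebraMap k L c ≠ 0)
    (hxord : ∀ c : k, E.ord (x - algebraMap k L c) = 0) (hJ : Jac D₁ D₂ x w ≠ 0)
    {α : ℤ} (hA0 : ∀ i, ev x w (A i) ≠ 0) (hα : ∀ i, E.ord (ev x w (A i)) = α) :
    α ≤ m * (E.ord (Jac D₁ D₂ x w) - cst) := by
  have hunit : ∀ h : k[X], h ≠ 0 → aeval x h ≠ 0 ∧ E.ord (aeval x h) = 0 :=
    fun h hh => E.ord_aeval_of_forall hxne hxord hh
  have hx0 : E.ge 0 x := by
    have h1 := hxord 0
    rw [map_zero, sub_zero] at h1
    exact E.ge_of_le h1.ge
  have hw0 : w ≠ 0 := by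
    rintro rfl
    exact hJ (by simp [Jac])
  by_cases hw : 0 ≤ E.ord w
  · have hw' : E.ge 0 w := E.ge_of_le hw
    have h1 : α ≤ 0 := by
      by_contra hlt
      obtain ⟨C₀, C₁, R, hR, hC⟩ := hbez
      have h2 := congrArg (ev x w) hC
      rw [map_add, map_mul, map_mul, ev_C] at h2
      obtain ⟨h3, h4⟩ := hunit R hR
      have h5 : E.ge 1 (aeval x R) := by
        rw [← h2]
        have h6 : ∀ i, E.ge 1 (ev x w (A i)) := fun i => E.ge_of_le (by rw [hα i]; omega)
        refine E.ge_add ?_ ?_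
        · simpa using E.ge_mul (E.ge_ev hx0 hw' C₀) (h6 0)
        · simpa using E.ge_mul (E.ge_ev hx0 hw' C₁) (h6 1)
      have := E.le_of_ge h5 h3
      omega
    have h2 : cst ≤ E.ord (Jac D₁ D₂ x w) := by
      -- some polynomial in `x, w` lies in the maximal ideal
      have hex : ∃ n : ℕ, ∃ q : k[X][X], q ≠ 0 ∧ q.natDegree = n ∧ E.ge 1 (ev x w q) := by
        obtain ⟨π, hπ0, hπ⟩ := hE.nontriv
        have hmem : π ∈ IntermediateField.adjoin k {x, w} := by rw [hgen]; trivial
        rw [IntermediateField.mem_adjoin_iff_div] at hmem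
        have hsub : ∀ y ∈ Algebra.adjoin k {x, w}, ∃ q : k[X][X], ev x w q = y := by
          intro y hy
          induction hy using Algebra.adjoin_induction with
          | mem y hy =>
            rcases hy with rfl | hy
            · exact ⟨Polynomial.C X, by simp⟩
            · rw [Set.mem_singleton_iff] at hy
              subst hy
              exact ⟨X, by simp⟩
          | algebraMap c => exact ⟨Polynomial.C (Polynomial.C c), by simp⟩
          | add y z _ _ hy hz =>
            obtain ⟨q, rfl⟩ := hy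
            obtain ⟨q', rfl⟩ := hz
            exact ⟨q + q', map_add _ _ _⟩
          | mul y z _ _ hy hz =>
            obtain ⟨q, rfl⟩ := hy
            obtain ⟨q', rfl⟩ := hz
            exact ⟨q * q', map_mul _ _ _⟩
        obtain ⟨r, hr, s, hs, hrs⟩ := hmem
        obtain ⟨q, rfl⟩ := hsub r hr
        obtain ⟨q', rfl⟩ := hsub s hs
        have hs0 : ev x w q' ≠ 0 := by
          intro h
          rw [h, div_zero] at hrs
          exact hπ0 hrs
        have h1 : ev x w q = π * ev x w q' := by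
          rw [hrs, div_mul_cancel₀ _ hs0]
        refine ⟨q.natDegree, q, ?_, rfl, ?_⟩
        · rintro rfl
          rw [map_zero] at h1
          exact mul_ne_zero hπ0 hs0 h1.symm
        · rw [h1]
          simpa using E.ge_mul (E.ge_of_le hπ) (E.ge_ev hx0 hw' q')
      classical
      obtain ⟨q, hq0, hqn, hq1⟩ := Nat.find_spec hex
      have hmin := fun n => Nat.find_min hex (m := n)
      have hn0 : Nat.find hex ≠ 0 := by
        intro h0
        rw [h0, natDegree_eq_zero] at hqn
        obtain ⟨h, rfl⟩ := hqn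
        rw [ev_C] at hq1
        have hh : h ≠ 0 := by rintro rfl; simp at hq0
        obtain ⟨h3, h4⟩ := hunit h hh
        have := E.le_of_ge hq1 h3
        omega
      have hq' : ¬ E.ge 1 (ev x w (derivative q)) := by
        intro h
        refine hmin (derivative q).natDegree ?_ ⟨derivative q, ?_, rfl, h⟩
        · rw [← hqn]
          exact natDegree_derivative_lt (by omega)
        · intro h0
          exact hn0 (by rw [← hqn]; exact derivative_eq_zero.mp h0)
      have hq'' : ev x w (derivative q) ≠ 0 := fun h => hq' (Or.inl h)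
      have hqo : E.ord (ev x w (derivative q)) = 0 := by
        have h3 := E.le_of_ge (E.ge_ev hx0 hw' (derivative q)) hq''
        by_contra h4
        exact hq' (E.ge_of_le (by omega))
      have h5 := hE.jac 0 1 _ _ hx0 hq1
      rw [Jac_ev_right] at h5
      have h6 := E.le_of_ge h5 (mul_ne_zero hq'' hJ)
      rw [E.ord_mul hq'' hJ, hqo] at h6
      omega
    have h3 : (0:ℤ) ≤ E.ord (Jac D₁ D₂ x w) - cst := by omega
    have : (0:ℤ) ≤ m * (E.ord (Jac D₁ D₂ x w) - cst) := by positivity
    omega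
  · have hw1 : E.ord w⁻¹ = - E.ord w := E.ord_inv hw0
    have hws : E.ge 1 w⁻¹ := E.ge_of_le (by omega)
    have hJs : Jac D₁ D₂ x w⁻¹ ≠ 0 := by
      rw [Jac_inv_right _ _ _ hw0]
      exact neg_ne_zero.mpr (div_ne_zero hJ (pow_ne_zero 2 hw0))
    have hJord : E.ord (Jac D₁ D₂ x w⁻¹) = E.ord (Jac D₁ D₂ x w) - 2 * E.ord w := by
      rw [Jac_inv_right _ _ _ hw0, E.ord_neg, E.ord_div hJ (pow_ne_zero 2 hw0), E.ord_pow hw0]
      push_cast
      ring
    have h1 : cst ≤ E.ord (Jac D₁ D₂ x w⁻¹) := by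
      have := E.le_of_ge (hE.jac 0 1 _ _ hx0 hws) hJs
      omega
    obtain ⟨i, hi⟩ := htop
    have h2 : α = (2 * m : ℕ) * E.ord w := by
      rw [← hα i, ev_reflect x hw0 (2 * m) (A i) (hdeg i), ev_divX]
      have h3 : ((A i).reflect (2 * m)).coeff 0 = (A i).coeff (2 * m) := by
        rw [coeff_reflect]
        simp [revAt_le]
      rw [h3]
      obtain ⟨h4, h5⟩ := hunit _ hi
      obtain ⟨h6, h7⟩ := E.ord_add_eq (n := 0) h4 h5
        (b := w⁻¹ * ev x w⁻¹ ((A i).reflect (2 * m)).divX) (by
          simpa using E.ge_mul hws (E.ge_ev hx0 (E.ge_mono (by norm_num) hws) _))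
      rw [E.ord_mul (pow_ne_zero _ hw0) h6, h7, E.ord_pow hw0, add_zero]
    rw [h2]
    have h3 : (0:ℤ) ≤ m * (E.ord (Jac D₁ D₂ x w⁻¹) - cst) := by
      have : (0:ℤ) ≤ E.ord (Jac D₁ D₂ x w⁻¹) - cst := by omega
      positivity
    rw [hJord] at h3
    have h5 : (m : ℤ) * (E.ord (Jac D₁ D₂ x w) - 2 * E.ord w - cst) =
      m * (E.ord (Jac D₁ D₂ x w) - cst) - (2 * m : ℕ) * E.ord w := by push_cast; ring
    omega

end place

end Pool.Agent.H48.SymDP
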