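import Pool.Agent.H54.NFLocal

/-!
# The inequality at every place
-/

open Polynomial

namespace Pool.Agent.H48.SymDP

lemma aeval_ne_zero_of_forall {k L : Type*} [Field k] [Field L] [Algebra k L] [IsAlgClosed k]
    {x : L} (hx0 : ∀ c : k, x - algebraMap k L c ≠ 0) {h : k[X]} (hh : h ≠ 0) :
    aeval x h ≠ 0 := by
  have key : ∀ n : ℕ, ∀ h : k[X], h ≠ 0 → h.natDegree = n → aeval x h ≠ 0 := by
    intro n
    induction n with
    | zero =>
      intro h hh hn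
      rw [natDegree_eq_zero] at hn
      obtain ⟨c, rfl⟩ := hn
      have hc : c ≠ 0 := by simpa using hh
      rw [aeval_C]
      simpa using hc
    | succ n ih =>
      intro h hh hn
      have hd : h.degree ≠ 0 := by
        rw [degree_eq_natDegree hh, hn]
        exact_mod_cast (Nat.succ_ne_zero n)
      obtain ⟨c, hc⟩ := IsAlgClosed.exists_root h hd
      obtain ⟨g, rfl⟩ := dvd_iff_isRoot.mpr hc
      have hg : g ≠ 0 := right_ne_zero_of_mul hh
      have hgn : g.natDegree = n := by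
        rw [natDegree_mul (left_ne_zero_of_mul hh) hg, natDegree_X_sub_C] at hn
        omega
      have h3 : aeval x ((X - C c) * g) = (x - algebraMap k L c) * aeval x g := by simp
      rw [h3]
      exact mul_ne_zero (hx0 c) (ih g hg hgn)
  exact key _ h hh rfl

section place

variable {k : Type*} [Field k] {F L : Type*} [Field F] [Field L] [Algebra F L]
  [Algebra k F] [Algebra k L] [IsScalarTower k F L]

variable {D₁ D₂ : Derivation k L L} {E : PL F L} {cst : ℤ} (hE : JPlace D₁ D₂ E cst)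

include hE in
lemma JPlace.main [CharZero k] [IsAlgClosed k] {x w : L}
    (hgen : IntermediateField.adjoin k {x, w} = ⊤)
    (m : ℕ) (A : Fin 2 → k[X][X]) (hA0 : ev x w (A 0) ≠ 0)
    {u : L} (hu0 : u ≠ 0) (hue : E.ord u = 0)
    (hu : ev x w (A 1) = u * ev x w (A 0))
    (hdeg : ∀ i, (A i).natDegree ≤ 2 * m) (htop : ∃ i, (A i).coeff (2 * m) ≠ 0)
    (hbez : ∃ (C₀ C₁ : k[X][X]) (R : k[X]), R ≠ 0 ∧ C₀ * A 0 + C₁ * A 1 = C R)
    (θ₁ θ₂ : k[X]) (hθ₁ : θ₁ ≠ 0) (hθ₂ : θ₂ ≠ 0)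
    (chart : ∀ x₀ : k, ∃ (B : Fin 2 → k[X][X]) (w' : L) (f₁ f₂ : k[X]),
      f₁.eval x₀ ≠ 0 ∧ f₂.eval x₀ ≠ 0 ∧ GoodFibre B m x₀ ∧
      ∀ D : Derivation k L L, D x = 0 →
        (D w ≠ 0 → D w' ≠ 0) ∧
        ∀ i, ev x w (A i) * (D w') ^ m * aeval x (θ₁ * f₁) =
          ev x w' (B i) * (D w) ^ m * aeval x (θ₂ * f₂))
    (δ : ℕ) (A' : Fin 2 → k[X][X]) (hgood : GoodFibre A' m 0)
    (hinf : ∀ i, ev x w (A i) = x ^ δ * ev x⁻¹ (w / x ^ 2) (A' i))
    (hb : 4 * m + θ₂.natDegree ≤ δ + θ₁.natDegree)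
    (hJ : Jac D₁ D₂ x w ≠ 0) :
    aeval x θ₁ ≠ 0 ∧ aeval x θ₂ ≠ 0 ∧
    E.ord (ev x w (A 0)) + E.ord (aeval x θ₁) - E.ord (aeval x θ₂) - m * E.ord (Jac D₁ D₂ x w) ≤
      - (m * cst) := by
  have hxne : ∀ c : k, x - algebraMap k L c ≠ 0 := by
    intro c h
    apply hJ
    rw [← Jac_sub_const D₁ D₂ x w c, h]
    simp [Jac]
  have hx0 : x ≠ 0 := by simpa using hxne 0
  have hAne : ∀ i, ev x w (A i) ≠ 0 := by
    intro i
    fin_cases i
    · exact hA0
    · change ev x w (A 1) ≠ 0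
      rw [hu]
      exact mul_ne_zero hu0 hA0
  have hAord : ∀ i, E.ord (ev x w (A i)) = E.ord (ev x w (A 0)) := by
    intro i
    fin_cases i
    · rfl
    · change E.ord (ev x w (A 1)) = _
      rw [hu, E.ord_mul hu0 hA0, hue, zero_add]
  by_cases hx : 0 ≤ E.ord x
  · by_cases hc : ∃ x₀ : k, E.ge 1 (x - algebraMap k L x₀)
    · -- a place over `x = x₀`
      obtain ⟨x₀, hx₀⟩ := hc
      obtain ⟨B, w', f₁, f₂, hf₁, hf₂, hB, hD⟩ := chart x₀
      obtain ⟨h1, h2⟩ := hD (JD D₁ D₂ x) (by rw [JD_apply, Jac_self])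
      rw [JD_apply, JD_apply] at h1
      simp only [JD_apply] at h2
      have hJ' := h1 hJ
      have hne : ∀ h : k[X], h ≠ 0 → aeval x h ≠ 0 := by
        intro h hh h0
        exact aeval_ne_zero_of_forall hxne hh h0
      obtain ⟨hf₁ne, hf₁o⟩ := E.ord_aeval_of_eval_ne hx₀ hf₁
      obtain ⟨hf₂ne, hf₂o⟩ := E.ord_aeval_of_eval_ne hx₀ hf₂
      have hθ₁' := hne θ₁ hθ₁
      have hθ₂' := hne θ₂ hθ₂
      have hBne : ∀ i, ev x w' (B i) ≠ 0 := by
        intro i h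
        have := h2 i
        rw [h, zero_mul, zero_mul, map_mul] at this
        exact mul_ne_zero (mul_ne_zero (hAne i) (pow_ne_zero m hJ')) (mul_ne_zero hθ₁' hf₁ne) this
      have hBord : ∀ i, E.ord (ev x w' (B i)) = E.ord (ev x w (A 0)) +
          m * E.ord (Jac D₁ D₂ x w') + E.ord (aeval x θ₁) - m * E.ord (Jac D₁ D₂ x w)
            - E.ord (aeval x θ₂) := by
        intro i
        have h3 := congrArg E.ord (h2 i)
        rw [map_mul, map_mul, E.ord_mul (mul_ne_zero (hAne i) (pow_ne_zero m hJ'))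
          (mul_ne_zero hθ₁' hf₁ne), E.ord_mul (hAne i) (pow_ne_zero m hJ'), E.ord_mul hθ₁' hf₁ne,
          E.ord_mul (mul_ne_zero (hBne i) (pow_ne_zero m hJ)) (mul_ne_zero hθ₂' hf₂ne),
          E.ord_mul (hBne i) (pow_ne_zero m hJ), E.ord_mul hθ₂' hf₂ne, hf₁o, hf₂o, hAord i,
          E.ord_pow hJ, E.ord_pow hJ'] at h3
        linarith
      have h4 := hE.core hB hx₀ hJ' hBne hBord
      refine ⟨hθ₁', hθ₂', ?_⟩
      have h5 : (m : ℤ) * (E.ord (Jac D₁ D₂ x w') - cst) =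
        m * E.ord (Jac D₁ D₂ x w') - m * cst := by ring
      linarith
    · -- a place which is trivial on `k(x)`
      have hxord : ∀ c : k, E.ord (x - algebraMap k L c) = 0 := by
        intro c
        have h1 := E.le_of_ge (E.ge_sub (E.ge_of_le hx) (E.ge_const c)) (hxne c)
        by_contra h2
        exact hc ⟨c, E.ge_of_le (by omega)⟩
      obtain ⟨h1, h2⟩ := E.ord_aeval_of_forall hxne hxord hθ₁
      obtain ⟨h3, h4⟩ := E.ord_aeval_of_forall hxne hxord hθ₂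
      have h5 := hE.horizontal hgen hdeg htop hbez hxne hxord hJ hAne hAord
      refine ⟨h1, h3, ?_⟩
      rw [h2, h4]
      have h6 : (m : ℤ) * (E.ord (Jac D₁ D₂ x w) - cst) =
        m * E.ord (Jac D₁ D₂ x w) - m * cst := by ring
      linarith
  · -- a pole of `x`
    rw [not_le] at hx
    obtain ⟨h1, h2⟩ := E.ord_aeval_of_neg hx hx0 hθ₁
    obtain ⟨h3, h4⟩ := E.ord_aeval_of_neg hx hx0 hθ₂
    refine ⟨h1, h3, ?_⟩
    have hxi : E.ge 1 (x⁻¹ - algebraMap k L 0) := by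
      rw [map_zero, sub_zero]
      exact E.ge_of_le (by rw [E.ord_inv hx0]; omega)
    have hJeq : Jac D₁ D₂ x⁻¹ (w / x ^ 2) = - (Jac D₁ D₂ x w / x ^ 4) := by
      unfold Jac
      rw [D₁.leibniz_inv, D₂.leibniz_inv, D₁.leibniz_div, D₂.leibniz_div, D₁.leibniz_pow,
        D₂.leibniz_pow]
      simp only [smul_eq_mul, nsmul_eq_mul]
      field_simp
      ring
    have hx4 : x ^ 4 ≠ 0 := pow_ne_zero 4 hx0
    have hJ' : Jac D₁ D₂ x⁻¹ (w / x ^ 2) ≠ 0 := by
      rw [hJeq]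
      exact neg_ne_zero.mpr (div_ne_zero hJ hx4)
    have hJord : E.ord (Jac D₁ D₂ x⁻¹ (w / x ^ 2)) = E.ord (Jac D₁ D₂ x w) - 4 * E.ord x := by
      rw [hJeq, E.ord_neg, E.ord_div hJ hx4, E.ord_pow hx0]
      push_cast
      ring
    have hne' : ∀ i, ev x⁻¹ (w / x ^ 2) (A' i) ≠ 0 := by
      intro i h
      have := hinf i
      rw [h, mul_zero] at this
      exact hAne i this
    have hord' : ∀ i, E.ord (ev x⁻¹ (w / x ^ 2) (A' i)) = E.ord (ev x w (A 0)) - δ * E.ord x := by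
      intro i
      have h5 := congrArg E.ord (hinf i)
      rw [E.ord_mul (pow_ne_zero δ hx0) (hne' i), E.ord_pow hx0, hAord i] at h5
      linarith
    have h6 := hE.core hgood hxi hJ' hne' hord'
    rw [hJord] at h6
    rw [h2, h4]
    have h7 : (m : ℤ) * (E.ord (Jac D₁ D₂ x w) - 4 * E.ord x - cst) =
        m * E.ord (Jac D₁ D₂ x w) - 4 * m * E.ord x - m * cst := by ring
    rw [h7] at h6
    have h8 : ((4 * m + θ₂.natDegree : ℕ) : ℤ) ≤ ((δ + θ₁.natDegree : ℕ) : ℤ) := by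
      exact_mod_cast hb
    push_cast at h8
    have h9 : ((δ : ℤ) + θ₁.natDegree - 4 * m - θ₂.natDegree) * E.ord x ≤ 0 :=
      mul_nonpos_of_nonneg_of_nonpos (by linarith) hx.le
    have h10 : ((δ : ℤ) + θ₁.natDegree - 4 * m - θ₂.natDegree) * E.ord x =
      δ * E.ord x + θ₁.natDegree * E.ord x - 4 * m * E.ord x - θ₂.natDegree * E.ord x := by ring
    rw [h10] at h9
    linarith

end place

end Pool.Agent.H48.SymDP
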