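import Pool.Agent.H48.SymDP.Irr.Basic

/-!
# Orders at a place: elementary calculus of `PL`
-/

open Polynomial

namespace Pool.Agent.H48.SymDP

namespace PL

variable {F L : Type*} [Field F] [Field L] [Algebra F L] (E : PL F L)

lemma ord_one : E.ord 1 = 0 := by
  have h := E.ord_base 1 one_ne_zero
  rwa [map_one] at h

lemma ord_neg_one : E.ord (-1) = 0 := by
  have h := E.ord_base (-1) (neg_ne_zero.mpr one_ne_zero)
  rwa [map_neg, map_one] at h

lemma ord_neg (a : L) : E.ord (-a) = E.ord a := by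
  by_cases ha : a = 0
  · simp [ha]
  · have h := E.ord_mul (neg_ne_zero.mpr (one_ne_zero (α := L))) ha
    rw [neg_one_mul, ord_neg_one] at h
    omega

lemma ord_inv {a : L} (ha : a ≠ 0) : E.ord a⁻¹ = - E.ord a := by
  have h := E.ord_mul ha (inv_ne_zero ha)
  rw [mul_inv_cancel₀ ha, ord_one] at h
  omega

lemma ord_div {a b : L} (ha : a ≠ 0) (hb : b ≠ 0) : E.ord (a / b) = E.ord a - E.ord b := by
  rw [div_eq_mul_inv, E.ord_mul ha (inv_ne_zero hb), E.ord_inv hb]
  ring

lemma ord_pow {a : L} (ha : a ≠ 0) (n : ℕ) : E.ord (a ^ n) = n * E.ord a := by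
  induction n with
  | zero => simp [ord_one]
  | succ n ih =>
    rw [pow_succ, E.ord_mul (pow_ne_zero n ha) ha, ih]
    push_cast
    ring

lemma ge_zero (n : ℤ) : E.ge n 0 := Or.inl rfl

lemma ge_of_le {n : ℤ} {a : L} (h : n ≤ E.ord a) : E.ge n a := Or.inr h

lemma le_of_ge {n : ℤ} {a : L} (h : E.ge n a) (ha : a ≠ 0) : n ≤ E.ord a := by
  rcases h with h | h
  · exact absurd h ha
  · exact h

lemma ge_ord (a : L) : E.ge (E.ord a) a := Or.inr le_rfl

lemma ge_mono {n n' : ℤ} {a : L} (h : n ≤ n') (ha : E.ge n' a) : E.ge n a := by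
  rcases ha with h' | h'
  · exact Or.inl h'
  · exact Or.inr (h.trans h')

lemma ge_neg {n : ℤ} {a : L} (ha : E.ge n a) : E.ge n (-a) := by
  rcases ha with h' | h'
  · exact Or.inl (by simp [h'])
  · exact Or.inr (by rwa [ord_neg])

lemma ge_add {n : ℤ} {a b : L} (ha : E.ge n a) (hb : E.ge n b) : E.ge n (a + b) := by
  by_cases h0 : a + b = 0
  · exact Or.inl h0
  rcases ha with ha | ha
  · subst ha
    rwa [zero_add]
  rcases hb with hb | hb
  · subst hb
    rw [add_zero]
    exact Or.inr ha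
  by_cases ha0 : a = 0
  · subst ha0
    rw [zero_add]
    exact Or.inr hb
  by_cases hb0 : b = 0
  · subst hb0
    rw [add_zero]
    exact Or.inr ha
  exact Or.inr ((le_min ha hb).trans (E.ord_add ha0 hb0 h0))

lemma ge_sub {n : ℤ} {a b : L} (ha : E.ge n a) (hb : E.ge n b) : E.ge n (a - b) := by
  rw [sub_eq_add_neg]
  exact E.ge_add ha (E.ge_neg hb)

lemma ge_mul {n m : ℤ} {a b : L} (ha : E.ge n a) (hb : E.ge m b) : E.ge (n + m) (a * b) := by
  by_cases ha0 : a = 0
  · exact Or.inl (by simp [ha0])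
  by_cases hb0 : b = 0
  · exact Or.inl (by simp [hb0])
  have h1 := E.le_of_ge ha ha0
  have h2 := E.le_of_ge hb hb0
  refine Or.inr ?_
  rw [E.ord_mul ha0 hb0]
  omega

lemma ge_sum {ι : Type*} (s : Finset ι) (f : ι → L) {n : ℤ} (h : ∀ i ∈ s, E.ge n (f i)) :
    E.ge n (∑ i ∈ s, f i) := by
  classical
  induction s using Finset.induction_on with
  | empty => simpa using E.ge_zero n
  | insert a s ha ih =>
    rw [Finset.sum_insert ha]
    exact E.ge_add (h a (Finset.mem_insert_self a s))
      (ih fun i hi => h i (Finset.mem_insert_of_mem hi))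

lemma ge_pow {n : ℤ} {a : L} (ha : E.ge n a) (j : ℕ) : E.ge (j * n) (a ^ j) := by
  induction j with
  | zero => simpa using E.ge_of_le (n := 0) (a := 1) (by rw [ord_one])
  | succ j ih =>
    rw [pow_succ]
    refine E.ge_mono ?_ (E.ge_mul ih ha)
    push_cast
    linarith [add_mul (j : ℤ) 1 n]

lemma ge_base (c : F) : E.ge 0 (algebraMap F L c) := by
  by_cases hc : c = 0
  · exact Or.inl (by simp [hc])
  · exact Or.inr (by rw [E.ord_base c hc])

/-- If `a` has order exactly `n` and `b` has order greater than `n` then `a + b` has order `n`. -/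
lemma ord_add_eq {n : ℤ} {a b : L} (ha0 : a ≠ 0) (ha : E.ord a = n) (hb : E.ge (n + 1) b) :
    a + b ≠ 0 ∧ E.ord (a + b) = n := by
  have hne : a + b ≠ 0 := by
    intro h
    have h1 : a = -b := eq_neg_of_add_eq_zero_left h
    have h2 : E.ge (n + 1) a := h1 ▸ E.ge_neg hb
    have := E.le_of_ge h2 ha0
    omega
  refine ⟨hne, ?_⟩
  have h1 : E.ge n (a + b) := E.ge_add (E.ge_of_le ha.ge) (E.ge_mono (by omega) hb)
  have h2 := E.le_of_ge h1 hne
  by_contra h3
  have h4 : E.ge (n + 1) (a + b) := E.ge_of_le (by omega)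
  have h5 : E.ge (n + 1) a := by
    have := E.ge_sub h4 hb
    simpa using this
  have := E.le_of_ge h5 ha0
  omega

section base

variable {k : Type*} [Field k] [Algebra k F] [Algebra k L] [IsScalarTower k F L]

lemma ord_const {c : k} (hc : c ≠ 0) : E.ord (algebraMap k L c) = 0 := by
  rw [IsScalarTower.algebraMap_apply k F L]
  exact E.ord_base _ (by simpa using hc)

lemma ge_const (c : k) : E.ge 0 (algebraMap k L c) := by
  rw [IsScalarTower.algebraMap_apply k F L]
  exact E.ge_base _

lemma const_eq_zero {c : k} (h : E.ge 1 (algebraMap k L c)) : c = 0 := by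
  by_contra hc
  have h1 := E.ord_const hc
  have h2 : algebraMap k L c ≠ 0 := by simpa using hc
  have := E.le_of_ge h h2
  omega

lemma ge_aeval {x : L} (hx : E.ge 0 x) (h : k[X]) : E.ge 0 (aeval x h) := by
  induction h using Polynomial.induction_on' with
  | add p q hp hq => rw [map_add]; exact E.ge_add hp hq
  | monomial n a =>
    rw [aeval_monomial]
    have h1 := E.ge_mul (E.ge_const a) (E.ge_pow hx n)
    simpa using h1

lemma ge_ev {x w : L} (hx : E.ge 0 x) (hw : E.ge 0 w) (q : k[X][X]) : E.ge 0 (ev x w q) := by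
  induction q using Polynomial.induction_on' with
  | add p q hp hq => rw [map_add]; exact E.ge_add hp hq
  | monomial n a =>
    rw [← C_mul_X_pow_eq_monomial, map_mul, map_pow, ev_C, ev_X]
    have h1 := E.ge_mul (E.ge_aeval hx a) (E.ge_pow hw n)
    simpa using h1

/-- If `x - x₀` is in the maximal ideal and `h x₀ ≠ 0` then `h x` is a unit. -/
lemma ord_aeval_of_eval_ne {x : L} {x₀ : k} (hx : E.ge 1 (x - algebraMap k L x₀)) {h : k[X]}
    (hh : h.eval x₀ ≠ 0) : aeval x h ≠ 0 ∧ E.ord (aeval x h) = 0 := by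
  obtain ⟨g, hg⟩ : X - C x₀ ∣ h - C (h.eval x₀) := by
    rw [dvd_iff_isRoot]
    simp
  have h1 : h = C (h.eval x₀) + (X - C x₀) * g := by rw [← hg]; ring
  have h2 : aeval x h = algebraMap k L (h.eval x₀) + (x - algebraMap k L x₀) * aeval x g := by
    conv_lhs => rw [h1]
    simp
  have hx0 : E.ge 0 x := by
    have := E.ge_add (E.ge_mono (by norm_num : (0:ℤ) ≤ 1) hx) (E.ge_const x₀)
    simpa using this
  rw [h2]
  refine E.ord_add_eq (by simpa using hh) (E.ord_const hh) ?_
  have := E.ge_mul hx (E.ge_aeval hx0 g)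
  simpa using this

variable [IsAlgClosed k]

/-- If no `x - c` has a zero or pole then `h x` is a unit for every nonzero `h`. -/
lemma ord_aeval_of_forall {x : L} (hx0 : ∀ c : k, x - algebraMap k L c ≠ 0)
    (hx : ∀ c : k, E.ord (x - algebraMap k L c) = 0) {h : k[X]} (hh : h ≠ 0) :
    aeval x h ≠ 0 ∧ E.ord (aeval x h) = 0 := by
  have key : ∀ n : ℕ, ∀ h : k[X], h ≠ 0 → h.natDegree = n →
      aeval x h ≠ 0 ∧ E.ord (aeval x h) = 0 := by
    intro n
    induction n with
    | zero =>
      intro h hh hn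
      rw [natDegree_eq_zero] at hn
      obtain ⟨c, rfl⟩ := hn
      have hc : c ≠ 0 := by simpa using hh
      rw [aeval_C]
      exact ⟨by simpa using hc, E.ord_const hc⟩
    | succ n ih =>
      intro h hh hn
      have hd : h.degree ≠ 0 := by
        rw [degree_eq_natDegree hh, hn]
        exact_mod_cast (Nat.succ_ne_zero n)
      obtain ⟨c, hc⟩ := IsAlgClosed.exists_root h hd
      obtain ⟨g, rfl⟩ := dvd_iff_isRoot.mpr hc
      have hg : g ≠ 0 := right_ne_zero_of_mul hh
      have hgn : g.natDegree = n := by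
        rw [natDegree_mul (left_ne_zero_of_mul hh) hg, natDegree_X_sub_C] at hn
        omega
      obtain ⟨h1, h2⟩ := ih g hg hgn
      have h3 : aeval x ((X - C c) * g) = (x - algebraMap k L c) * aeval x g := by simp
      rw [h3]
      exact ⟨mul_ne_zero (hx0 c) h1, by rw [E.ord_mul (hx0 c) h1, hx c, h2, add_zero]⟩
  exact key _ h hh rfl

/-- If `x` has a pole then the order of `h x` is `deg h * ord x`. -/
lemma ord_aeval_of_neg {x : L} (hx : E.ord x < 0) (hx0 : x ≠ 0) {h : k[X]} (hh : h ≠ 0) :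
    aeval x h ≠ 0 ∧ E.ord (aeval x h) = h.natDegree * E.ord x := by
  have key : ∀ n : ℕ, ∀ h : k[X], h ≠ 0 → h.natDegree = n →
      aeval x h ≠ 0 ∧ E.ord (aeval x h) = n * E.ord x := by
    intro n
    induction n with
    | zero =>
      intro h hh hn
      rw [natDegree_eq_zero] at hn
      obtain ⟨c, rfl⟩ := hn
      have hc : c ≠ 0 := by simpa using hh
      rw [aeval_C]
      exact ⟨by simpa using hc, by rw [E.ord_const hc]; simp⟩
    | succ n ih =>
      intro h hh hn
      have hd : h.degree ≠ 0 := by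
        rw [degree_eq_natDegree hh, hn]
        exact_mod_cast (Nat.succ_ne_zero n)
      obtain ⟨c, hc⟩ := IsAlgClosed.exists_root h hd
      obtain ⟨g, rfl⟩ := dvd_iff_isRoot.mpr hc
      have hg : g ≠ 0 := right_ne_zero_of_mul hh
      have hgn : g.natDegree = n := by
        rw [natDegree_mul (left_ne_zero_of_mul hh) hg, natDegree_X_sub_C] at hn
        omega
      obtain ⟨h1, h2⟩ := ih g hg hgn
      have h3 : aeval x ((X - C c) * g) = (x - algebraMap k L c) * aeval x g := by simp
      obtain ⟨h4, h5⟩ := E.ord_add_eq (n := E.ord x) hx0 rfl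
        (E.ge_mono (by omega) (E.ge_neg (E.ge_const c)))
      rw [← sub_eq_add_neg] at h4 h5
      rw [h3]
      refine ⟨mul_ne_zero h4 h1, ?_⟩
      rw [E.ord_mul h4 h1, h5, h2]
      push_cast
      ring
  exact key _ h hh rfl

end base

end PL

end Pool.Agent.H48.SymDP
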