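import Pool.Agent.H54.NFDer

/-!
# The places of `F(v)` over `F`
-/

open Polynomial IsDedekindDomain

namespace Pool.Agent.H48.SymDP

section places

variable (F : Type*) [Field F]

/-- The place at infinity. -/
noncomputable def plInf : PL F (RatFunc F) where
  ord a := - a.intDegree
  ord_mul ha hb := by rw [RatFunc.intDegree_mul ha hb]; ring
  ord_add ha hb hab := by
    have := RatFunc.intDegree_add_le hb hab
    omega
  ord_base c hc := by
    rw [RatFunc.algebraMap_eq_C, RatFunc.intDegree_C]
    simp

variable {F}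

/-- The finite places. -/
noncomputable def plFin (P : HeightOneSpectrum F[X]) : PL F (RatFunc F) where
  ord a := - WithZero.log (P.valuation (RatFunc F) a)
  ord_mul {a b} ha hb := by
    rw [map_mul, WithZero.log_mul ((Valuation.ne_zero_iff _).2 ha) ((Valuation.ne_zero_iff _).2 hb)]
    ring
  ord_add {a b} ha hb hab := by
    have h1 := (P.valuation (RatFunc F)).map_add a b
    have ha' := ((P.valuation (RatFunc F)).ne_zero_iff).2 ha
    have hb' := ((P.valuation (RatFunc F)).ne_zero_iff).2 hb
    have hab' := ((P.valuation (RatFunc F)).ne_zero_iff).2 hab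
    rcases le_max_iff.mp h1 with h | h
    · have := (WithZero.log_le_log hab' ha').2 h
      omega
    · have := (WithZero.log_le_log hab' hb').2 h
      omega
  ord_base c hc := by
    have h1 : algebraMap F (RatFunc F) c = algebraMap F[X] (RatFunc F) (C c) := by
      rw [RatFunc.algebraMap_eq_C, RatFunc.algebraMap_C]
    have h2 : P.valuation (RatFunc F) (algebraMap F[X] (RatFunc F) (C c)) = 1 := by
      rw [HeightOneSpectrum.valuation_eq_one_iff_notMem]
      intro h
      exact P.isPrime.ne_top (Ideal.eq_top_of_isUnit_mem _ h (isUnit_C.mpr hc.isUnit))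
    rw [h1, h2]
    simp

lemma plFin_ge_iff (P : HeightOneSpectrum F[X]) (n : ℤ) (a : RatFunc F) :
    (plFin P).ge n a ↔ P.valuation (RatFunc F) a ≤ WithZero.exp (-n) := by
  by_cases ha : a = 0
  · subst ha
    simp [PL.ge]
  · have ha' := ((P.valuation (RatFunc F)).ne_zero_iff).2 ha
    rw [← WithZero.log_le_iff_le_exp ha']
    unfold PL.ge
    simp only [ha, false_or]
    change n ≤ - WithZero.log (P.valuation (RatFunc F) a) ↔ _
    omega

lemma plFin_ge_poly (P : HeightOneSpectrum F[X]) (p : F[X]) :
    (plFin P).ge 0 (algebraMap F[X] (RatFunc F) p) := by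
  rw [plFin_ge_iff]
  simpa using P.valuation_le_one p

/-- An element which is integral at all finite places is a polynomial. -/
lemma exists_poly_of_integral {a : RatFunc F} (h : ∀ P : HeightOneSpectrum F[X], (plFin P).ge 0 a) :
    ∃ p : F[X], algebraMap F[X] (RatFunc F) p = a := by
  have := HeightOneSpectrum.mem_integers_of_valuation_le_one (R := F[X]) (RatFunc F) a
    (fun P => by simpa using (plFin_ge_iff P 0 a).1 (h P))
  exact this

/-- If no finite place is a zero of `φ` then infinity is not a pole. -/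
lemma sum_formula {φ : RatFunc F} (hφ : φ ≠ 0)
    (h : ∀ P : HeightOneSpectrum F[X], (plFin P).ord φ ≤ 0) : 0 ≤ (plInf F).ord φ := by
  obtain ⟨p, hp⟩ := exists_poly_of_integral (a := φ⁻¹) (fun P =>
    (plFin P).ge_of_le (by rw [(plFin P).ord_inv hφ]; have := h P; omega))
  have h1 : (plInf F).ord φ⁻¹ = - (plInf F).ord φ := (plInf F).ord_inv hφ
  have h2 : (plInf F).ord φ⁻¹ = - (p.natDegree : ℤ) := by
    rw [← hp]
    change - RatFunc.intDegree _ = _
    rw [RatFunc.intDegree_polynomial]
  omega

end places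

section jac

lemma JPlace_of_uniformizer {k : Type*} [Field k] {F L : Type*} [Field F] [Field L] [Algebra F L]
    [Algebra k F] [Algebra k L] [IsScalarTower k F L] {D₁ D₂ : Derivation k L L} {E : PL F L}
    {π : L} (hπ0 : π ≠ 0) (hπ : E.ord π = 1) (h₁ : ∀ f, E.ge 0 f → E.ge 0 (D₁ f))
    (h₂ : ∀ f, E.ge 0 f → E.ge 0 (D₂ f)) : JPlace D₁ D₂ E 0 := by
  refine ⟨⟨π, hπ0, hπ.ge⟩, ?_⟩
  have hzp : ∀ n : ℤ, E.ord (π ^ n) = n := by
    intro n
    rcases Int.eq_nat_or_neg n with ⟨m, rfl | rfl⟩
    · rw [zpow_natCast, E.ord_pow hπ0, hπ, mul_one]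
    · rw [zpow_neg, zpow_natCast, E.ord_inv (pow_ne_zero _ hπ0), E.ord_pow hπ0, hπ, mul_one]
  have hJ0 : ∀ f g, E.ge 0 f → E.ge 0 g → E.ge 0 (Jac D₁ D₂ f g) := by
    intro f g hf hg
    unfold Jac
    refine E.ge_sub ?_ ?_
    · simpa using E.ge_mul (h₁ f hf) (h₂ g hg)
    · simpa using E.ge_mul (h₂ f hf) (h₁ g hg)
  have hint : ∀ n : ℤ, E.ge 0 (n : L) := by
    intro n
    have : (n : L) = algebraMap F L (n : F) := by simp
    rw [this]
    exact E.ge_base _
  intro a b f g hf hg
  obtain ⟨f', hf', hff⟩ : ∃ f', E.ge 0 f' ∧ f = π ^ (a - 1) * π * f' := by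
    refine ⟨f * π ^ (-a), ?_, ?_⟩
    · have := E.ge_mul hf (E.ge_of_le (n := -a) (a := π ^ (-a)) (hzp _).ge)
      simpa using this
    · rw [← zpow_add_one₀ hπ0, sub_add_cancel, mul_comm f, ← mul_assoc, ← zpow_add₀ hπ0]
      simp
  obtain ⟨g', hg', hgg⟩ : ∃ g', E.ge 0 g' ∧ g = π ^ (b - 1) * π * g' := by
    refine ⟨g * π ^ (-b), ?_, ?_⟩
    · have := E.ge_mul hg (E.ge_of_le (n := -b) (a := π ^ (-b)) (hzp _).ge)
      simpa using this
    · rw [← zpow_add_one₀ hπ0, sub_add_cancel, mul_comm g, ← mul_assoc, ← zpow_add₀ hπ0]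
      simp
  have hD : ∀ (D : Derivation k L L) (c : ℤ) (f : L),
      D (π ^ (c - 1) * π * f) = π ^ (c - 1) * π * D f + c * π ^ (c - 1) * f * D π := by
    intro D c f
    rw [← zpow_add_one₀ hπ0, sub_add_cancel, D.leibniz, D.leibniz_zpow]
    simp only [smul_eq_mul, zsmul_eq_mul]
    ring
  have key : Jac D₁ D₂ f g = π ^ (a - 1) * π ^ (b - 1) * π *
      (π * Jac D₁ D₂ f' g' + b * g' * Jac D₁ D₂ f' π + a * f' * Jac D₁ D₂ π g') := by
    rw [hff, hgg]
    unfold Jac
    rw [hD, hD, hD, hD]
    ring
  rw [key]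
  have hπg : E.ge 0 π := E.ge_of_le (by omega)
  have h3 : E.ge 0 (π * Jac D₁ D₂ f' g' + b * g' * Jac D₁ D₂ f' π + a * f' * Jac D₁ D₂ π g') := by
    refine E.ge_add (E.ge_add ?_ ?_) ?_
    · simpa using E.ge_mul hπg (hJ0 f' g' hf' hg')
    · simpa using E.ge_mul (E.ge_mul (hint b) hg') (hJ0 f' π hf' hπg)
    · simpa using E.ge_mul (E.ge_mul (hint a) hf') (hJ0 π g' hπg hg')
  have h4 : E.ge (a + b - 1) (π ^ (a - 1) * π ^ (b - 1) * π) := by
    refine E.ge_of_le ?_
    rw [E.ord_mul (mul_ne_zero (zpow_ne_zero _ hπ0) (zpow_ne_zero _ hπ0)) hπ0,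
      E.ord_mul (zpow_ne_zero _ hπ0) (zpow_ne_zero _ hπ0), hzp, hzp, hπ]
    omega
  simpa using E.ge_mul h4 h3

lemma der_ge_zero {k F : Type*} [Field k] [Field F] [Algebra k F[X]] [Algebra k (RatFunc F)]
    (P : HeightOneSpectrum F[X])
    (D : Derivation k (RatFunc F) (RatFunc F))
    (hD : ∀ p : F[X], ∃ q : F[X], D (algebraMap F[X] (RatFunc F) p) = algebraMap F[X] (RatFunc F) q)
    {f : RatFunc F} (hf : (plFin P).ge 0 f) : (plFin P).ge 0 (D f) := by
  obtain ⟨n, d, hnd⟩ := P.exists_primeCompl_mul_eq_of_integer f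
    (by simpa using (plFin_ge_iff P 0 f).1 hf)
  have hd1 : P.valuation (RatFunc F) (algebraMap F[X] (RatFunc F) d) = 1 := by
    rw [HeightOneSpectrum.valuation_eq_one_iff_notMem]
    exact d.2
  have hd0 : algebraMap F[X] (RatFunc F) d ≠ 0 := by
    intro h
    rw [h, map_zero] at hd1
    exact zero_ne_one hd1
  have hfe : f = algebraMap F[X] (RatFunc F) n / algebraMap F[X] (RatFunc F) d := by
    rw [eq_div_iff hd0, hnd]
  have hdinv : (plFin P).ge 0 (algebraMap F[X] (RatFunc F) d)⁻¹ := by
    rw [plFin_ge_iff, map_inv₀, hd1]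
    simp
  obtain ⟨qn, hqn⟩ := hD n
  obtain ⟨qd, hqd⟩ := hD d
  rw [hfe, D.leibniz_div, hqn, hqd]
  simp only [smul_eq_mul]
  have h1 := (plFin P).ge_sub
    (by simpa using (plFin P).ge_mul (plFin_ge_poly P (d : F[X])) (plFin_ge_poly P qn) :
      (plFin P).ge 0 (algebraMap F[X] (RatFunc F) d * algebraMap F[X] (RatFunc F) qn))
    (by simpa using (plFin P).ge_mul (plFin_ge_poly P n) (plFin_ge_poly P qd) :
      (plFin P).ge 0 (algebraMap F[X] (RatFunc F) n * algebraMap F[X] (RatFunc F) qd))
  have h2 := (plFin P).ge_pow hdinv 2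
  simpa using (plFin P).ge_mul h2 h1

variable (k : Type) [Field k]

lemma jplace_fin (P : HeightOneSpectrum (RatFunc k)[X]) :
    JPlace (Du k) (Dv k) (plFin P) 0 := by
  obtain ⟨π, hπ⟩ := P.valuation_exists_uniformizer (RatFunc (RatFunc k))
  have hπ0 : π ≠ 0 := by
    rintro rfl
    rw [map_zero] at hπ
    exact WithZero.exp_ne_zero hπ.symm
  refine JPlace_of_uniformizer (π := π) hπ0 ?_ ?_ ?_
  · change - WithZero.log (P.valuation (RatFunc (RatFunc k)) π) = 1
    rw [hπ, WithZero.log_exp]
    norm_num
  · intro f hf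
    exact der_ge_zero P (Du k) (fun p => ⟨_, Du_algebraMap k p⟩) hf
  · intro f hf
    exact der_ge_zero P (Dv k) (fun p => ⟨_, Dv_algebraMap k p⟩) hf

/-- degree bound for the derivative of a fraction -/
lemma intDegree_der_le {k F : Type*} [Field k] [Field F] [Algebra k F[X]] [Algebra k (RatFunc F)]
    (D : Derivation k (RatFunc F) (RatFunc F)) (d : F[X] → F[X]) (s : ℕ)
    (hD : ∀ p : F[X], D (algebraMap F[X] (RatFunc F) p) = algebraMap F[X] (RatFunc F) (d p))
    (hd : ∀ p q : F[X], p * d q - q * d p ≠ 0 →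
      (p * d q - q * d p).natDegree + s ≤ p.natDegree + q.natDegree)
    {f : RatFunc F} (hf : D f ≠ 0) : (D f).intDegree + s ≤ f.intDegree := by
  have hf0 : f ≠ 0 := by
    rintro rfl
    exact hf (map_zero _)
  have hden : algebraMap F[X] (RatFunc F) f.denom ≠ 0 := by
    simpa using f.denom_ne_zero
  have h1 : f = algebraMap F[X] (RatFunc F) f.num / algebraMap F[X] (RatFunc F) f.denom :=
    (RatFunc.num_div_denom f).symm
  have h2 : D f = algebraMap F[X] (RatFunc F) (f.denom * d f.num - f.num * d f.denom) /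
      (algebraMap F[X] (RatFunc F) f.denom) ^ 2 := by
    conv_lhs => rw [h1]
    rw [D.leibniz_div, hD, hD]
    simp only [smul_eq_mul, map_sub, map_mul]
    field_simp
  have h3 : f.denom * d f.num - f.num * d f.denom ≠ 0 := by
    intro h
    rw [h, map_zero, zero_div] at h2
    exact hf h2
  have h4 : algebraMap F[X] (RatFunc F) (f.denom * d f.num - f.num * d f.denom) ≠ 0 := by
    exact RatFunc.algebraMap_ne_zero h3
  have h5 := hd _ _ h3
  have h6 : (D f).intDegree = (f.denom * d f.num - f.num * d f.denom).natDegree -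
      2 * (f.denom.natDegree : ℤ) := by
    rw [h2, RatFunc.intDegree_div h4 (pow_ne_zero 2 hden), RatFunc.intDegree_polynomial, sq,
      RatFunc.intDegree_mul hden hden, RatFunc.intDegree_polynomial]
    ring
  have h7 : f.intDegree = (f.num.natDegree : ℤ) - f.denom.natDegree := rfl
  rw [h6, h7]
  omega

lemma jplace_inf : JPlace (Du k) (Dv k) (plInf (RatFunc k)) 2 := by
  refine ⟨⟨RatFunc.X⁻¹, inv_ne_zero RatFunc.X_ne_zero, ?_⟩, ?_⟩
  · change 1 ≤ - RatFunc.intDegree _
    rw [RatFunc.intDegree_inv, RatFunc.intDegree_X]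
    norm_num
  · have hu : ∀ (a : ℤ) f, (plInf (RatFunc k)).ge a f → (plInf (RatFunc k)).ge a (Du k f) := by
      intro a f hf
      by_cases h0 : Du k f = 0
      · exact Or.inl h0
      have hf0 : f ≠ 0 := by
        rintro rfl
        exact h0 (map_zero _)
      have h1 := intDegree_der_le (Du k) (dFX k) 0 (Du_algebraMap k) (by
        intro p q _
        rw [add_zero]
        refine (natDegree_sub_le_of_le (natDegree_mul_le_of_le le_rfl (natDegree_dFX_le k q))
          (natDegree_mul_le_of_le le_rfl (natDegree_dFX_le k p))).trans ?_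
        omega) h0
      have h2 := (plInf (RatFunc k)).le_of_ge hf hf0
      refine Or.inr ?_
      change a ≤ - RatFunc.intDegree _
      change a ≤ - RatFunc.intDegree _ at h2
      push_cast at h1
      omega
    have hv : ∀ (a : ℤ) f, (plInf (RatFunc k)).ge a f → (plInf (RatFunc k)).ge (a + 1) (Dv k f) := by
      intro a f hf
      by_cases h0 : Dv k f = 0
      · exact Or.inl h0
      have hf0 : f ≠ 0 := by
        rintro rfl
        exact h0 (map_zero _)
      have h1 := intDegree_der_le (Dv k) derivative 1 (Dv_algebraMap k) (by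
        intro p q hpq
        have hp : p ≠ 0 := by rintro rfl; simp at hpq
        have hq : q ≠ 0 := by rintro rfl; simp at hpq
        have hdeg : (p * derivative q - q * derivative p).degree <
            ((p.natDegree + q.natDegree : ℕ) : WithBot ℕ) := by
          refine (degree_sub_le _ _).trans_lt (max_lt ?_ ?_)
          · by_cases h : derivative q = 0
            · rw [h, mul_zero, degree_zero]
              exact WithBot.bot_lt_coe _
            · rw [degree_mul, degree_eq_natDegree hp, degree_eq_natDegree h]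
              have := degree_derivative_lt hq
              rw [degree_eq_natDegree h, degree_eq_natDegree hq] at this
              have h' : (derivative q).natDegree < q.natDegree := by exact_mod_cast this
              exact_mod_cast (by omega : p.natDegree + (derivative q).natDegree <
                p.natDegree + q.natDegree)
          · by_cases h : derivative p = 0
            · rw [h, mul_zero, degree_zero]
              exact WithBot.bot_lt_coe _
            · rw [degree_mul, degree_eq_natDegree hq, degree_eq_natDegree h]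
              have := degree_derivative_lt hp
              rw [degree_eq_natDegree h, degree_eq_natDegree hp] at this
              have h' : (derivative p).natDegree < p.natDegree := by exact_mod_cast this
              exact_mod_cast (by omega : q.natDegree + (derivative p).natDegree <
                p.natDegree + q.natDegree)
        rw [degree_eq_natDegree hpq] at hdeg
        have : (p * derivative q - q * derivative p).natDegree < p.natDegree + q.natDegree := by
          exact_mod_cast hdeg
        omega) h0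
      have h2 := (plInf (RatFunc k)).le_of_ge hf hf0
      refine Or.inr ?_
      change a + 1 ≤ - RatFunc.intDegree _
      change a ≤ - RatFunc.intDegree _ at h2
      push_cast at h1
      omega
    intro a b f g hf hg
    unfold Jac
    refine (plInf (RatFunc k)).ge_sub ?_ ?_
    · refine (plInf (RatFunc k)).ge_mono ?_ ((plInf (RatFunc k)).ge_mul (hu a f hf) (hv b g hg))
      omega
    · refine (plInf (RatFunc k)).ge_mono ?_ ((plInf (RatFunc k)).ge_mul (hv a f hf) (hu b g hg))
      omega

end jac

end Pool.Agent.H48.SymDP
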